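import Mathlib

/-!
Surfaces of infinite type, area forms and the group of area preserving diffeomorphisms.
-/

set_option linter.all false
set_option autoImplicit false

namespace Pool.Agent.Work.MP_ac1d8d_gt

open scoped Manifold ContDiff Topology

/-- `M` is a surface: a connected, Hausdorff, second countable smooth manifold modelled on the
real vector space `ℂ` of dimension two, without boundary. (Orientability follows from the
existence of an area form.) -/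
structure IsSurface (M : Type*) [TopologicalSpace M] [ChartedSpace ℂ M] : Prop where
  smooth : IsManifold 𝓘(ℝ, ℂ) ∞ M
  connected : ConnectedSpace M
  hausdorff : T2Space M
  countable : SecondCountableTopology M

/-- `M` has infinite type: its fundamental group is not finitely generated. -/
def InfiniteType (M : Type*) [TopologicalSpace M] : Prop :=
  ∀ x : M, ¬ Group.FG (FundamentalGroup M x)

/-- An area form: a smooth 2-form which vanishes nowhere. The 2-form is given by an alternating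
bilinear form on each tangent space; smoothness means that in each chart `e` of the atlas its
coefficient, the value on the two coordinate vector fields, is a smooth function. -/
structure AreaForm (M : Type*) [TopologicalSpace M] [ChartedSpace ℂ M] where
  form : ∀ x : M, TangentSpace 𝓘(ℝ, ℂ) x →L[ℝ] TangentSpace 𝓘(ℝ, ℂ) x →L[ℝ] ℝ
  alternating : ∀ (x : M) (v : TangentSpace 𝓘(ℝ, ℂ) x), form x v v = 0
  nonvanishing : ∀ x : M, form x ≠ 0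
  smooth : ∀ e ∈ atlas ℂ M, ContDiffOn ℝ ∞ (fun z : ℂ => form (e.symm z)
    (mfderiv 𝓘(ℝ, ℂ) 𝓘(ℝ, ℂ) e.symm z (1 : ℂ))
    (mfderiv 𝓘(ℝ, ℂ) 𝓘(ℝ, ℂ) e.symm z Complex.I)) e.target

/-- The homeomorphism `φ` is a smooth diffeomorphism and preserves the area form. -/
structure Preserves {M : Type*} [TopologicalSpace M] [ChartedSpace ℂ M] (η : AreaForm M)
    (φ : M ≃ₜ M) : Prop where
  smooth : ContMDiff 𝓘(ℝ, ℂ) 𝓘(ℝ, ℂ) ∞ φ
  smooth_inv : ContMDiff 𝓘(ℝ, ℂ) 𝓘(ℝ, ℂ) ∞ φ.symm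
  pullback : ∀ (x : M) (u v : TangentSpace 𝓘(ℝ, ℂ) x),
    η.form (φ x) (mfderiv 𝓘(ℝ, ℂ) 𝓘(ℝ, ℂ) φ x u) (mfderiv 𝓘(ℝ, ℂ) 𝓘(ℝ, ℂ) φ x v) = η.form x u v

variable {M : Type*} [TopologicalSpace M] [ChartedSpace ℂ M] {η : AreaForm M}

theorem form_congr {p q : M} (h : p = q) (u v : ℂ) :
    η.form p (u : ℂ) (v : ℂ) = η.form q (u : ℂ) (v : ℂ) := by subst h; rfl

theorem Preserves.mul {φ ψ : M ≃ₜ M} (hφ : Preserves η φ) (hψ : Preserves η ψ) :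
    Preserves η (φ * ψ) where
  smooth := hφ.smooth.comp hψ.smooth
  smooth_inv := hψ.smooth_inv.comp hφ.smooth_inv
  pullback x u v := by
    have h1 : MDifferentiableAt 𝓘(ℝ, ℂ) 𝓘(ℝ, ℂ) ψ x := hψ.smooth.mdifferentiable (by simp) x
    have h2 : MDifferentiableAt 𝓘(ℝ, ℂ) 𝓘(ℝ, ℂ) φ (ψ x) := hφ.smooth.mdifferentiable (by simp) _
    have h3 : mfderiv 𝓘(ℝ, ℂ) 𝓘(ℝ, ℂ) (φ * ψ : M ≃ₜ M) x =
        (mfderiv 𝓘(ℝ, ℂ) 𝓘(ℝ, ℂ) φ (ψ x)).comp (mfderiv 𝓘(ℝ, ℂ) 𝓘(ℝ, ℂ) ψ x) :=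
      mfderiv_comp x h2 h1
    rw [h3]
    exact (hφ.pullback (ψ x) _ _).trans (hψ.pullback x u v)

theorem Preserves.one : Preserves η (1 : M ≃ₜ M) where
  smooth := contMDiff_id
  smooth_inv := contMDiff_id
  pullback x u v := by
    have h3 : mfderiv 𝓘(ℝ, ℂ) 𝓘(ℝ, ℂ) (1 : M ≃ₜ M) x =
        ContinuousLinearMap.id ℝ (TangentSpace 𝓘(ℝ, ℂ) x) := mfderiv_id
    rw [h3]
    rfl

theorem Preserves.inv {φ : M ≃ₜ M} (hφ : Preserves η φ) : Preserves η φ⁻¹ where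
  smooth := hφ.smooth_inv
  smooth_inv := hφ.smooth
  pullback x u v := by
    have h1 : MDifferentiableAt 𝓘(ℝ, ℂ) 𝓘(ℝ, ℂ) φ.symm x :=
      hφ.smooth_inv.mdifferentiable (by simp) x
    have h2 : MDifferentiableAt 𝓘(ℝ, ℂ) 𝓘(ℝ, ℂ) φ (φ.symm x) :=
      hφ.smooth.mdifferentiable (by simp) _
    have h3 : HasMFDerivAt 𝓘(ℝ, ℂ) 𝓘(ℝ, ℂ) (φ ∘ φ.symm) x
        ((mfderiv 𝓘(ℝ, ℂ) 𝓘(ℝ, ℂ) φ (φ.symm x)).comp (mfderiv 𝓘(ℝ, ℂ) 𝓘(ℝ, ℂ) φ.symm x)) :=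
      h2.hasMFDerivAt.comp x h1.hasMFDerivAt
    have h4 : HasMFDerivAt 𝓘(ℝ, ℂ) 𝓘(ℝ, ℂ) (id : M → M) x
        ((mfderiv 𝓘(ℝ, ℂ) 𝓘(ℝ, ℂ) φ (φ.symm x)).comp (mfderiv 𝓘(ℝ, ℂ) 𝓘(ℝ, ℂ) φ.symm x)) :=
      h3.congr_of_eventuallyEq (Filter.Eventually.of_forall fun y => (φ.apply_symm_apply y).symm)
    have h5 := hasMFDerivAt_unique h4 (hasMFDerivAt_id x)
    have h6 : ∀ w : ℂ, (mfderiv 𝓘(ℝ, ℂ) 𝓘(ℝ, ℂ) φ (φ.symm x))
        ((mfderiv 𝓘(ℝ, ℂ) 𝓘(ℝ, ℂ) φ.symm x) w) = w := fun w => congrArg (fun L => L w) h5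
    have h7 := hφ.pullback (φ.symm x) (mfderiv 𝓘(ℝ, ℂ) 𝓘(ℝ, ℂ) φ.symm x u)
      (mfderiv 𝓘(ℝ, ℂ) 𝓘(ℝ, ℂ) φ.symm x v)
    rw [h6 u, h6 v] at h7
    exact h7.symm.trans (form_congr (φ.apply_symm_apply x) u v)

/-- The group `Diff(M, η)` of all diffeomorphisms of `M` preserving the area form `η`. -/
def AreaDiff (M : Type*) [TopologicalSpace M] [ChartedSpace ℂ M] (η : AreaForm M) :
    Subgroup (M ≃ₜ M) where
  carrier := {φ | Preserves η φ}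
  mul_mem' := fun h h' => h.mul h'
  one_mem' := Preserves.one
  inv_mem' := fun h => h.inv

end Pool.Agent.Work.MP_ac1d8d_gt
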