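import Mathlib

/-!
Local area preserving maps of the plane.
-/

set_option linter.all false
set_option autoImplicit false

namespace Pool.Agent.Work.MP_ac1d8d_gt

open scoped ContDiff Topology
open Filter Complex

theorem det_mul' (L M : ℂ →L[ℝ] ℂ) : (L.comp M).det = L.det * M.det :=
  LinearMap.det_comp (L : ℂ →ₗ[ℝ] ℂ) (M : ℂ →ₗ[ℝ] ℂ)

theorem det_id' : (ContinuousLinearMap.id ℝ ℂ).det = 1 :=
  LinearMap.det_id

/-- At all points near `z` the map `u` is smooth with real Jacobian determinant one. -/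
def Ar (u : ℂ → ℂ) (z : ℂ) : Prop :=
  ∀ᶠ y in 𝓝 z, ContDiffAt ℝ ∞ u y ∧ (fderiv ℝ u y).det = 1

theorem Ar.at {u : ℂ → ℂ} {z : ℂ} (h : Ar u z) :
    ContDiffAt ℝ ∞ u z ∧ (fderiv ℝ u z).det = 1 := h.self_of_nhds

theorem Ar.contDiffAt {u : ℂ → ℂ} {z : ℂ} (h : Ar u z) : ContDiffAt ℝ ∞ u z := h.at.1

theorem Ar.continuousAt {u : ℂ → ℂ} {z : ℂ} (h : Ar u z) : ContinuousAt u z :=
  h.contDiffAt.continuousAt

theorem Ar.eventually {u : ℂ → ℂ} {z : ℂ} (h : Ar u z) : ∀ᶠ y in 𝓝 z, Ar u y :=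
  h.eventually_nhds

theorem Ar.congr {u v : ℂ → ℂ} {z : ℂ} (h : Ar u z) (huv : u =ᶠ[𝓝 z] v) : Ar v z := by
  filter_upwards [h, huv.eventuallyEq_nhds] with y hy hyv
  refine ⟨hy.1.congr_of_eventuallyEq hyv.symm, ?_⟩
  rw [← hyv.fderiv_eq]
  exact hy.2

theorem ar_id (z : ℂ) : Ar (fun x => x) z := by
  refine Eventually.of_forall fun y => ⟨contDiffAt_id, ?_⟩
  rw [fderiv_fun_id]
  exact det_id'

theorem Ar.comp {u v : ℂ → ℂ} {z : ℂ} (hv : Ar v (u z)) (hu : Ar u z) :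
    Ar (fun x => v (u x)) z := by
  have hc := hu.continuousAt.eventually hv
  filter_upwards [hu, hc] with y hy hvy
  refine ⟨hvy.1.comp y hy.1, ?_⟩
  have h1 : DifferentiableAt ℝ u y := hy.1.differentiableAt (by simp)
  have h2 : DifferentiableAt ℝ v (u y) := hvy.1.differentiableAt (by simp)
  have := fderiv_comp y h2 h1
  rw [show (fun x => v (u x)) = v ∘ u from rfl, this]
  rw [det_mul', hvy.2, hy.2, one_mul]

/-- The determinant of a real linear endomorphism of the plane. -/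
theorem det_formula (L : ℂ →L[ℝ] ℂ) :
    L.det = (L 1).re * (L I).im - (L I).re * (L 1).im := by
  rw [ContinuousLinearMap.det, ← LinearMap.det_toMatrix Complex.basisOneI, Matrix.det_fin_two]
  simp [LinearMap.toMatrix_apply, Complex.basisOneI]

/-- The inverse of an area preserving local homeomorphism is area preserving. -/
theorem ar_symm (e : OpenPartialHomeomorph ℂ ℂ) {z : ℂ} (hz : z ∈ e.source) (h : Ar e z) :
    Ar e.symm (e z) := by
  have hz' : e z ∈ e.target := e.map_source hz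
  have hc : ContinuousAt e.symm (e z) := e.symm.continuousAt hz'
  have h2 : ∀ᶠ y in 𝓝 (e z), ContDiffAt ℝ ∞ e (e.symm y) ∧ (fderiv ℝ e (e.symm y)).det = 1 := by
    have h' : ∀ᶠ y in 𝓝 (e.symm (e z)), ContDiffAt ℝ ∞ e y ∧ (fderiv ℝ e y).det = 1 := by
      rw [e.left_inv hz]
      exact h
    exact hc.eventually h'
  filter_upwards [h2, e.open_target.mem_nhds hz'] with y hy hyt
  have hdet : (fderiv ℝ e (e.symm y)).det ≠ 0 := by rw [hy.2]; exact one_ne_zero
  set L : ℂ ≃L[ℝ] ℂ := (fderiv ℝ e (e.symm y)).toContinuousLinearEquivOfDetNeZero hdet with hL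
  have hLc : (L : ℂ →L[ℝ] ℂ) = fderiv ℝ e (e.symm y) :=
    ContinuousLinearMap.coe_toContinuousLinearEquivOfDetNeZero _ _
  have hd : HasFDerivAt e (L : ℂ →L[ℝ] ℂ) (e.symm y) := by
    rw [hLc]
    exact (hy.1.differentiableAt (by simp)).hasFDerivAt
  refine ⟨e.contDiffAt_symm hyt hd hy.1, ?_⟩
  have hs : HasFDerivAt e.symm (L.symm : ℂ →L[ℝ] ℂ) y := e.hasFDerivAt_symm hyt hd
  rw [hs.fderiv]
  have hmul : ((L.symm : ℂ →L[ℝ] ℂ).comp (L : ℂ →L[ℝ] ℂ)).det = 1 := by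
    rw [ContinuousLinearEquiv.coe_symm_comp_coe]
    exact det_id'
  rw [det_mul', hLc, hy.2, mul_one] at hmul
  exact hmul

end Pool.Agent.Work.MP_ac1d8d_gt
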