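import Mathlib
import Pool.Agent.Work.MP_ac1d8d_gt.Loc

/-!
The area preserving involution of the punctured unit disc.
-/

set_option linter.all false
set_option autoImplicit false

namespace Pool.Agent.Work.MP_ac1d8d_gt

open scoped ContDiff Topology ComplexConjugate
open Filter Complex Set

/-- The area preserving involution of the punctured unit disc, exchanging its two ends. -/
noncomputable def iot (w : ℂ) : ℂ := (Real.sqrt (1 / ‖w‖ ^ 2 - 1) : ℝ) • conj w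

theorem norm_iot {w : ℂ} (h0 : w ≠ 0) (h1 : ‖w‖ < 1) : ‖iot w‖ ^ 2 = 1 - ‖w‖ ^ 2 := by
  have hp : 0 < ‖w‖ := norm_pos_iff.2 h0
  have hn : 0 ≤ 1 / ‖w‖ ^ 2 - 1 := by
    rw [sub_nonneg, le_div_iff₀ (by positivity)]
    nlinarith
  rw [iot, norm_smul, mul_pow, Real.norm_eq_abs, sq_abs, Real.sq_sqrt hn, Complex.norm_conj]
  field_simp

theorem iot_ne_zero {w : ℂ} (h0 : w ≠ 0) (h1 : ‖w‖ < 1) : iot w ≠ 0 := by
  intro h
  have := norm_iot h0 h1
  rw [h, norm_zero] at this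
  nlinarith [norm_nonneg w]

theorem norm_iot_lt {w : ℂ} (h0 : w ≠ 0) (h1 : ‖w‖ < 1) : ‖iot w‖ < 1 := by
  have := norm_iot h0 h1
  have hp : 0 < ‖w‖ := norm_pos_iff.2 h0
  nlinarith [norm_nonneg (iot w)]

theorem iot_iot {w : ℂ} (h0 : w ≠ 0) (h1 : ‖w‖ < 1) : iot (iot w) = w := by
  have hp : 0 < ‖w‖ := norm_pos_iff.2 h0
  have hn : 0 < 1 / ‖w‖ ^ 2 - 1 := by
    rw [sub_pos, lt_div_iff₀ (by positivity)]
    nlinarith
  have h2 : iot (iot w) = (Real.sqrt (1 / ‖iot w‖ ^ 2 - 1) : ℝ) • conj (iot w) := rfl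
  rw [h2, norm_iot h0 h1, iot]
  simp only [Complex.real_smul, map_mul, Complex.conj_ofReal, Complex.conj_conj]
  rw [← mul_assoc, ← Complex.ofReal_mul, ← Real.sqrt_mul']
  · have : (1 / (1 - ‖w‖ ^ 2) - 1) * (1 / ‖w‖ ^ 2 - 1) = 1 := by
      have : 1 - ‖w‖ ^ 2 ≠ 0 := by nlinarith
      field_simp
      ring
    rw [this]; simp
  · exact hn.le

theorem ar_iot {w : ℂ} (h0 : w ≠ 0) (h1 : ‖w‖ < 1) : Ar iot w := by
  have hopen : ∀ᶠ y in 𝓝 w, y ≠ 0 ∧ ‖y‖ < 1 :=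
    Filter.Eventually.and (isOpen_ne.mem_nhds h0)
      ((isOpen_lt continuous_norm continuous_const).mem_nhds h1)
  filter_upwards [hopen] with y hy
  have hp : 0 < ‖y‖ := norm_pos_iff.2 hy.1
  have hN : ∀ z : ℂ, ‖z‖ ^ 2 = z.re ^ 2 + z.im ^ 2 := by
    intro z
    rw [← Complex.normSq_eq_norm_sq, Complex.normSq_apply]; ring
  have hfun : iot = fun z : ℂ => (Real.sqrt (1 / (z.re ^ 2 + z.im ^ 2) - 1) : ℝ) • conj z := by
    funext z
    rw [iot, hN]
  have hn0 : 0 < y.re ^ 2 + y.im ^ 2 := by rw [← hN]; positivity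
  have hn1 : y.re ^ 2 + y.im ^ 2 < 1 := by rw [← hN]; nlinarith [hy.2]
  have hq : 0 < 1 / (y.re ^ 2 + y.im ^ 2) - 1 := by
    rw [sub_pos, lt_div_iff₀ hn0]; linarith
  have d1 : HasFDerivAt (fun z : ℂ => z.re ^ 2 + z.im ^ 2)
      ((2 * y.re) • Complex.reCLM + (2 * y.im) • Complex.imCLM) y := by
    have a1 : HasFDerivAt (fun z : ℂ => z.re) Complex.reCLM y := Complex.reCLM.hasFDerivAt
    have a2 : HasFDerivAt (fun z : ℂ => z.im) Complex.imCLM y := Complex.imCLM.hasFDerivAt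
    have := (a1.pow 2).add (a2.pow 2)
    refine this.congr_fderiv ?_
    ext <;> simp
  have d2 : HasFDerivAt (fun z : ℂ => 1 / (z.re ^ 2 + z.im ^ 2) - 1)
      ((-((y.re ^ 2 + y.im ^ 2) ^ 2)⁻¹) •
        ((2 * y.re) • Complex.reCLM + (2 * y.im) • Complex.imCLM)) y := by
    have := ((hasDerivAt_inv hn0.ne').comp_hasFDerivAt y d1).sub_const 1
    simpa [one_div, Function.comp_def] using this
  have d3 : HasFDerivAt (fun z : ℂ => Real.sqrt (1 / (z.re ^ 2 + z.im ^ 2) - 1))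
      ((1 / (2 * Real.sqrt (1 / (y.re ^ 2 + y.im ^ 2) - 1))) •
      ((-((y.re ^ 2 + y.im ^ 2) ^ 2)⁻¹) •
        ((2 * y.re) • Complex.reCLM + (2 * y.im) • Complex.imCLM))) y :=
    d2.sqrt hq.ne'
  obtain ⟨a, b, s, hs0, hs2, ha, hb, d3'⟩ : ∃ a b s : ℝ, 0 < s ∧
      s ^ 2 = 1 / (y.re ^ 2 + y.im ^ 2) - 1 ∧ a * (s * (y.re ^ 2 + y.im ^ 2) ^ 2) = - y.re ∧
      b * (s * (y.re ^ 2 + y.im ^ 2) ^ 2) = - y.im ∧
      Real.sqrt (1 / (y.re ^ 2 + y.im ^ 2) - 1) = s ∧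
      HasFDerivAt (fun z : ℂ => Real.sqrt (1 / (z.re ^ 2 + z.im ^ 2) - 1))
        (a • Complex.reCLM + b • Complex.imCLM) y := by
    have hs0 : 0 < Real.sqrt (1 / (y.re ^ 2 + y.im ^ 2) - 1) := Real.sqrt_pos.2 hq
    refine ⟨-(y.re) / (Real.sqrt (1 / (y.re ^ 2 + y.im ^ 2) - 1) * (y.re ^ 2 + y.im ^ 2) ^ 2),
      -(y.im) / (Real.sqrt (1 / (y.re ^ 2 + y.im ^ 2) - 1) * (y.re ^ 2 + y.im ^ 2) ^ 2),
      Real.sqrt (1 / (y.re ^ 2 + y.im ^ 2) - 1), hs0, Real.sq_sqrt hq.le, ?_, ?_, rfl, ?_⟩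
    · rw [div_mul_cancel₀]
      exact mul_ne_zero hs0.ne' (pow_ne_zero _ hn0.ne')
    · rw [div_mul_cancel₀]
      exact mul_ne_zero hs0.ne' (pow_ne_zero _ hn0.ne')
    · refine d3.congr_fderiv ?_
      rw [smul_smul, smul_add, smul_smul, smul_smul]
      congr 2 <;> · field_simp
  obtain ⟨hsq, d3'⟩ := d3'
  have d4 : HasFDerivAt (fun z : ℂ => conj z) (Complex.conjCLE : ℂ →L[ℝ] ℂ) y :=
    Complex.conjCLE.hasFDerivAt
  have d5 := d3'.smul d4
  constructor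
  · rw [hfun]
    have c1 : ContDiffAt ℝ ∞ (fun z : ℂ => 1 / (z.re ^ 2 + z.im ^ 2) - 1) y := by
      have b1 : ContDiffAt ℝ ∞ (fun z : ℂ => z.re) y := Complex.reCLM.contDiff.contDiffAt
      have b2 : ContDiffAt ℝ ∞ (fun z : ℂ => z.im) y := Complex.imCLM.contDiff.contDiffAt
      exact (contDiffAt_const.div ((b1.pow 2).add (b2.pow 2)) hn0.ne').sub contDiffAt_const
    have c2 := c1.sqrt hq.ne'
    exact c2.smul (Complex.conjCLE.contDiff.contDiffAt)
  · have hev : iot =ᶠ[𝓝 y] ((fun z : ℂ => Real.sqrt (1 / (z.re ^ 2 + z.im ^ 2) - 1)) •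
        fun z : ℂ => conj z) := by
      rw [hfun]
      exact Eventually.of_forall fun _ => rfl
    have d6 := d5.congr_of_eventuallyEq hev
    rw [d6.fderiv, det_formula, hsq]
    clear d1 d2 d3 d3' d4 d5 d6 hev hfun hopen hsq
    simp only [ContinuousLinearMap.add_apply, ContinuousLinearMap.smul_apply,
      ContinuousLinearMap.smulRight_apply, ContinuousLinearEquiv.coe_coe, Complex.conjCLE_apply,
      Complex.reCLM_apply, Complex.imCLM_apply, smul_eq_mul, Complex.add_re, Complex.add_im,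
      Complex.real_smul, Complex.mul_re, Complex.mul_im, Complex.ofReal_re, Complex.ofReal_im,
      Complex.conj_re, Complex.conj_im, Complex.one_re, Complex.one_im, Complex.I_re,
      Complex.I_im, map_one, Complex.conj_I, Complex.neg_re, Complex.neg_im]
    generalize y.re = x at *
    generalize y.im = v at *
    have hn2 : (x ^ 2 + v ^ 2) * s ^ 2 = 1 - (x ^ 2 + v ^ 2) := by
      rw [hs2]; field_simp
    have e1 : s * a * (x ^ 2 + v ^ 2) ^ 2 = - x := by rw [← ha]; ring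
    have e2 : s * b * (x ^ 2 + v ^ 2) ^ 2 = - v := by rw [← hb]; ring
    have hne : (x ^ 2 + v ^ 2) ≠ 0 := hn0.ne'
    have e3 : s * (a * x + b * v) * (x ^ 2 + v ^ 2) = - 1 := by
      have : s * (a * x + b * v) * (x ^ 2 + v ^ 2) * (x ^ 2 + v ^ 2) = -1 * (x ^ 2 + v ^ 2) := by
        linear_combination x * e1 + v * e2
      exact mul_right_cancel₀ hne this
    have e4 : - (s ^ 2 + s * (a * x + b * v)) = 1 := by
      have : - (s ^ 2 + s * (a * x + b * v)) * (x ^ 2 + v ^ 2) = 1 * (x ^ 2 + v ^ 2) := by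
        linear_combination - hn2 - e3
      exact mul_right_cancel₀ hne this
    linear_combination e4

end Pool.Agent.Work.MP_ac1d8d_gt
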