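import Mathlib
import Pool.Agent.Work.MP_ac1d8d_gt.Loc

/-!
Surfaces with an atlas whose transition maps are area preserving.
-/

set_option linter.all false
set_option autoImplicit false

namespace Pool.Agent.Work.MP_ac1d8d_gt

open scoped ContDiff Topology
open Filter Complex Set

/-- The transition maps of the atlas are area preserving. -/
class AreaAtlas (X : Type*) [TopologicalSpace X] [ChartedSpace ℂ X] : Prop where
  compat : ∀ e ∈ atlas ℂ X, ∀ e' ∈ atlas ℂ X, ∀ x ∈ e.source, x ∈ e'.source →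
    Ar (fun z => e' (e.symm z)) (e x)

section
variable {X Y Z : Type*} [TopologicalSpace X] [ChartedSpace ℂ X]
  [TopologicalSpace Y] [ChartedSpace ℂ Y] 
  [TopologicalSpace Z] [ChartedSpace ℂ Z]

/-- `e` is compatible with the area preserving atlas. -/
def IsCh (e : OpenPartialHomeomorph X ℂ) : Prop :=
  ∀ e' ∈ atlas ℂ X, ∀ x ∈ e.source, x ∈ e'.source →
    Ar (fun z => e' (e.symm z)) (e x) ∧ Ar (fun z => e (e'.symm z)) (e' x)

theorem isCh_of_mem_atlas [AreaAtlas X] {e : OpenPartialHomeomorph X ℂ} (he : e ∈ atlas ℂ X) :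
    IsCh e := fun e' he' x hx hx' =>
  ⟨AreaAtlas.compat e he e' he' x hx hx', AreaAtlas.compat e' he' e he x hx' hx⟩

theorem isCh_chartAt [AreaAtlas X] (x : X) : IsCh (chartAt ℂ x) :=
  isCh_of_mem_atlas (chart_mem_atlas ℂ x)

theorem ev_symm (e : OpenPartialHomeomorph X ℂ) {x : X} (hx : x ∈ e.source) {P : X → Prop}
    (h : ∀ᶠ y in 𝓝 x, P y) : ∀ᶠ z in 𝓝 (e x), P (e.symm z) := by
  have hc : Tendsto e.symm (𝓝 (e x)) (𝓝 x) := by
    have := e.symm.continuousAt (e.map_source hx)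
    rwa [ContinuousAt, e.left_inv hx] at this
  exact hc.eventually h

theorem IsCh.ar {e e' : OpenPartialHomeomorph X ℂ} (he : IsCh e) (he' : IsCh e') {x : X}
    (hx : x ∈ e.source) (hx' : x ∈ e'.source) : Ar (fun z => e' (e.symm z)) (e x) := by
  have h1 := (he _ (chart_mem_atlas ℂ x) x hx (mem_chart_source ℂ x)).1
  have h2 := (he' _ (chart_mem_atlas ℂ x) x hx' (mem_chart_source ℂ x)).2
  have h3 : Ar (fun z => e' ((chartAt ℂ x).symm z)) (chartAt ℂ x (e.symm (e x))) := by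
    rw [e.left_inv hx]; exact h2
  refine (h3.comp h1).congr ?_
  have := ev_symm e hx ((chartAt ℂ x).open_source.mem_nhds (mem_chart_source ℂ x))
  filter_upwards [this] with z hz
  rw [(chartAt ℂ x).left_inv hz]

/-- The map `f` is continuous and area preserving at `x`. -/
def ArM (f : X → Y) (x : X) : Prop :=
  ContinuousAt f x ∧ Ar (fun z => chartAt ℂ (f x) (f ((chartAt ℂ x).symm z))) (chartAt ℂ x x)

theorem ArM.continuousAt {f : X → Y} {x : X} (h : ArM f x) : ContinuousAt f x := h.1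

theorem ar_change {f : X → Y} {x : X} (hf : ContinuousAt f x)
    {e₁ e₂ : OpenPartialHomeomorph X ℂ} (he₁ : IsCh e₁) (he₂ : IsCh e₂)
    (hx₁ : x ∈ e₁.source) (hx₂ : x ∈ e₂.source)
    {c₁ c₂ : OpenPartialHomeomorph Y ℂ} (hc₁ : IsCh c₁) (hc₂ : IsCh c₂)
    (hy₁ : f x ∈ c₁.source) (hy₂ : f x ∈ c₂.source)
    (h : Ar (fun z => c₁ (f (e₁.symm z))) (e₁ x)) :
    Ar (fun z => c₂ (f (e₂.symm z))) (e₂ x) := by
  have a1 := he₂.ar he₁ hx₂ hx₁
  have h' : Ar (fun z => c₁ (f (e₁.symm z))) (e₁ (e₂.symm (e₂ x))) := by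
    rw [e₂.left_inv hx₂]; exact h
  have a2 := h'.comp a1
  have a3 := hc₁.ar hc₂ hy₁ hy₂
  have a3' : Ar (fun z => c₂ (c₁.symm z)) (c₁ (f (e₁.symm (e₁ (e₂.symm (e₂ x)))))) := by
    rw [e₂.left_inv hx₂, e₁.left_inv hx₁]; exact a3
  refine (a3'.comp a2).congr ?_
  have b1 := ev_symm e₂ hx₂ (e₁.open_source.mem_nhds hx₁)
  have b2 := ev_symm e₂ hx₂ (hf.eventually (c₁.open_source.mem_nhds hy₁))
  filter_upwards [b1, b2] with z hz1 hz2
  rw [e₁.left_inv hz1, c₁.left_inv hz2]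

theorem arM_iff [AreaAtlas X] [AreaAtlas Y] {f : X → Y} {x : X}
    {e : OpenPartialHomeomorph X ℂ} (he : IsCh e) (hx : x ∈ e.source)
    {c : OpenPartialHomeomorph Y ℂ} (hc : IsCh c) (hy : f x ∈ c.source) :
    ArM f x ↔ ContinuousAt f x ∧ Ar (fun z => c (f (e.symm z))) (e x) := by
  constructor
  · rintro ⟨h1, h2⟩
    exact ⟨h1, ar_change h1 (isCh_chartAt x) he (mem_chart_source ℂ x) hx
      (isCh_chartAt (f x)) hc (mem_chart_source ℂ (f x)) hy h2⟩
  · rintro ⟨h1, h2⟩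
    exact ⟨h1, ar_change h1 he (isCh_chartAt x) hx (mem_chart_source ℂ x)
      hc (isCh_chartAt (f x)) hy (mem_chart_source ℂ (f x)) h2⟩

theorem ArM.congr {f g : X → Y} {x : X} (h : ArM f x) (hfg : f =ᶠ[𝓝 x] g) : ArM g x := by
  refine ⟨h.1.congr hfg, ?_⟩
  have hx : f x = g x := hfg.eq_of_nhds
  rw [← hx]
  refine h.2.congr ?_
  have := ev_symm (chartAt ℂ x) (mem_chart_source ℂ x) hfg
  filter_upwards [this] with z hz
  rw [hz]

theorem ArM.comp [AreaAtlas X] [AreaAtlas Y] [AreaAtlas Z] {f : X → Y} {g : Y → Z} {x : X}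
    (hg : ArM g (f x)) (hf : ArM f x) : ArM (fun y => g (f y)) x := by
  refine ⟨hg.1.comp hf.1, ?_⟩
  have h2 : Ar (fun z => chartAt ℂ (g (f x)) (g ((chartAt ℂ (f x)).symm z)))
      (chartAt ℂ (f x) (f ((chartAt ℂ x).symm (chartAt ℂ x x)))) := by
    rw [(chartAt ℂ x).left_inv (mem_chart_source ℂ x)]; exact hg.2
  refine (h2.comp hf.2).congr ?_
  have b := ev_symm (chartAt ℂ x) (mem_chart_source ℂ x)
    (hf.1.eventually ((chartAt ℂ (f x)).open_source.mem_nhds (mem_chart_source ℂ (f x))))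
  filter_upwards [b] with z hz
  rw [(chartAt ℂ (f x)).left_inv hz]

theorem arM_id [AreaAtlas X] (x : X) : ArM (fun y : X => y) x := by
  refine ⟨continuousAt_id, ?_⟩
  refine (ar_id _).congr ?_
  filter_upwards [(chartAt ℂ x).open_target.mem_nhds ((chartAt ℂ x).map_source
    (mem_chart_source ℂ x))] with z hz
  rw [(chartAt ℂ x).right_inv hz]

instance : AreaAtlas ℂ := ⟨by
  intro e he e' he' x hx hx'
  rw [chartedSpaceSelf_atlas] at he he'
  subst he; subst he'
  exact ar_id _⟩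

theorem arM_self_iff {f : ℂ → ℂ} {z : ℂ} : ArM f z ↔ Ar f z := by
  constructor
  · rintro ⟨_, h⟩; exact h
  · intro h; exact ⟨h.continuousAt, h⟩

theorem isCh_refl : IsCh (OpenPartialHomeomorph.refl ℂ) :=
  isCh_of_mem_atlas (by rw [chartedSpaceSelf_atlas])

theorem IsCh.arM [AreaAtlas X] {e : OpenPartialHomeomorph X ℂ} (he : IsCh e) {x : X}
    (hx : x ∈ e.source) : ArM e x := by
  rw [arM_iff he hx isCh_refl (by trivial)]
  refine ⟨e.continuousAt hx, (ar_id _).congr ?_⟩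
  filter_upwards [e.open_target.mem_nhds (e.map_source hx)] with z hz
  show z = e (e.symm z)
  rw [e.right_inv hz]

theorem IsCh.arM_symm [AreaAtlas X] {e : OpenPartialHomeomorph X ℂ} (he : IsCh e) {z : ℂ}
    (hz : z ∈ e.target) : ArM e.symm z := by
  rw [arM_iff isCh_refl (by trivial) he (e.map_target hz)]
  refine ⟨e.symm.continuousAt hz, (ar_id _).congr ?_⟩
  filter_upwards [e.open_target.mem_nhds hz] with z hz
  show z = e (e.symm z)
  rw [e.right_inv hz]

theorem isCh_iff [AreaAtlas X] {e : OpenPartialHomeomorph X ℂ}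
    (h1 : ∀ x ∈ e.source, ArM e x) (h2 : ∀ z ∈ e.target, ArM e.symm z) : IsCh e := by
  intro e' he' x hx hx'
  have hc := isCh_of_mem_atlas he'
  have hex := e.map_source hx
  constructor
  · have := h2 _ hex
    have hh := (hc.arM hx')
    rw [← e.left_inv hx] at hh
    exact arM_self_iff.1 (hh.comp this)
  · have hh := h1 x hx
    rw [← e'.left_inv hx'] at hh
    exact arM_self_iff.1 (hh.comp (hc.arM_symm (e'.map_source hx')))

/-- Homeomorphisms that are area preserving together with their inverse. -/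
def IsAut (φ : X ≃ₜ Y) : Prop := (∀ x, ArM φ x) ∧ (∀ y, ArM φ.symm y)

theorem isAut_refl [AreaAtlas X] : IsAut (Homeomorph.refl X) := ⟨arM_id, arM_id⟩

theorem IsAut.symm {φ : X ≃ₜ Y} (h : IsAut φ) : IsAut φ.symm := ⟨h.2, h.1⟩

theorem IsAut.trans [AreaAtlas X] [AreaAtlas Y] [AreaAtlas Z] {φ : X ≃ₜ Y} {ψ : Y ≃ₜ Z}
    (h : IsAut φ) (h' : IsAut ψ) : IsAut (φ.trans ψ) :=
  ⟨fun x => (h'.1 _).comp (h.1 x), fun y => (h.2 _).comp (h'.2 y)⟩

/-- The support of `φ` is contained in a compact subset of `O`. -/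
def SuppIn (φ : X ≃ₜ X) (O : Set X) : Prop := ∃ K, IsCompact K ∧ K ⊆ O ∧ ∀ x, x ∉ K → φ x = x

theorem SuppIn.mono {φ : X ≃ₜ X} {O O' : Set X} (h : SuppIn φ O) (hO : O ⊆ O') : SuppIn φ O' := by
  obtain ⟨K, h1, h2, h3⟩ := h
  exact ⟨K, h1, h2.trans hO, h3⟩

theorem suppIn_refl (O : Set X) : SuppIn (Homeomorph.refl X) O :=
  ⟨∅, isCompact_empty, empty_subset _, fun _ _ => rfl⟩

theorem SuppIn.symm {φ : X ≃ₜ X} {O : Set X} (h : SuppIn φ O) : SuppIn φ.symm O := by
  obtain ⟨K, h1, h2, h3⟩ := h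
  refine ⟨K, h1, h2, fun x hx => ?_⟩
  rw [Homeomorph.symm_apply_eq, h3 x hx]

theorem SuppIn.trans {φ ψ : X ≃ₜ X} {O : Set X} (h : SuppIn φ O) (h' : SuppIn ψ O) :
    SuppIn (φ.trans ψ) O := by
  obtain ⟨K, h1, h2, h3⟩ := h
  obtain ⟨K', h1', h2', h3'⟩ := h'
  refine ⟨K ∪ K', h1.union h1', union_subset h2 h2', fun x hx => ?_⟩
  rw [mem_union, not_or] at hx
  rw [Homeomorph.trans_apply, h3 x hx.1, h3' x hx.2]

open scoped Classical in
/-- Extension by the identity. -/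
noncomputable def extFun (e : OpenPartialHomeomorph X ℂ) (h : ℂ → ℂ) (x : X) : X :=
  if x ∈ e.source then e.symm (h (e x)) else x

theorem preserves {h : ℂ ≃ₜ ℂ} {K : Set ℂ} (hK : ∀ z, z ∉ K → h z = z) {z : ℂ} (hz : z ∈ K) :
    h z ∈ K := by
  by_contra hn
  have := h.injective (hK _ hn)
  rw [this] at hn
  exact hn hz

theorem extFun_of_mem {e : OpenPartialHomeomorph X ℂ} {h : ℂ → ℂ} {x : X} (hx : x ∈ e.source) :
    extFun e h x = e.symm (h (e x)) := by rw [extFun, if_pos hx]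

theorem extFun_of_notMem {e : OpenPartialHomeomorph X ℂ} {h : ℂ → ℂ} {x : X}
    (hx : x ∉ e.source) : extFun e h x = x := by rw [extFun, if_neg hx]

theorem extFun_mem {e : OpenPartialHomeomorph X ℂ} {h : ℂ ≃ₜ ℂ} {K : Set ℂ}
    (hKt : K ⊆ e.target) (hK : ∀ z, z ∉ K → h z = z) {x : X} (hx : x ∈ e.source) :
    h (e x) ∈ e.target := by
  by_cases hz : e x ∈ K
  · exact hKt (preserves hK hz)
  · rw [hK _ hz]; exact e.map_source hx

theorem extFun_inv {e : OpenPartialHomeomorph X ℂ} {h : ℂ ≃ₜ ℂ} {K : Set ℂ}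
    (hKt : K ⊆ e.target) (hK : ∀ z, z ∉ K → h z = z) (x : X) :
    extFun e h.symm (extFun e h x) = x := by
  by_cases hx : x ∈ e.source
  · rw [extFun_of_mem hx]
    have h1 := extFun_mem hKt hK hx
    rw [extFun_of_mem (e.map_target h1), e.right_inv h1, h.symm_apply_apply, e.left_inv hx]
  · rw [extFun_of_notMem hx, extFun_of_notMem hx]

theorem extFun_eventually [T2Space X] {e : OpenPartialHomeomorph X ℂ} {h : ℂ ≃ₜ ℂ} {K : Set ℂ}
    (hKc : IsCompact K) (hKt : K ⊆ e.target) (hK : ∀ z, z ∉ K → h z = z) (x : X) :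
    (x ∈ e.source ∧ extFun e h =ᶠ[𝓝 x] fun y => e.symm (h (e y))) ∨
      (extFun e h =ᶠ[𝓝 x] fun y => y) := by
  by_cases hx : x ∈ e.source
  · left
    refine ⟨hx, ?_⟩
    filter_upwards [e.open_source.mem_nhds hx] with y hy
    exact extFun_of_mem hy
  · right
    have hc : IsCompact (e.symm '' K) :=
      hKc.image_of_continuousOn (e.symm.continuousOn.mono hKt)
    have hxn : x ∉ e.symm '' K := by
      rintro ⟨z, hz, rfl⟩
      exact hx (e.map_target (hKt hz))
    filter_upwards [hc.isClosed.isOpen_compl.mem_nhds hxn] with y hy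
    by_cases hys : y ∈ e.source
    · rw [extFun_of_mem hys, hK, e.left_inv hys]
      intro hyK
      exact hy ⟨e y, hyK, e.left_inv hys⟩
    · exact extFun_of_notMem hys

theorem symm_fix {h : ℂ ≃ₜ ℂ} {K : Set ℂ} (hK : ∀ z, z ∉ K → h z = z) (z : ℂ) (hz : z ∉ K) :
    h.symm z = z := by rw [Homeomorph.symm_apply_eq, hK z hz]

theorem extFun_continuous [T2Space X] {e : OpenPartialHomeomorph X ℂ} {h : ℂ ≃ₜ ℂ} {K : Set ℂ}
    (hKc : IsCompact K) (hKt : K ⊆ e.target) (hK : ∀ z, z ∉ K → h z = z) :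
    Continuous (extFun e h) := by
  rw [continuous_iff_continuousAt]
  intro x
  rcases extFun_eventually hKc hKt hK x with ⟨hx, h1⟩ | h1
  · refine ContinuousAt.congr ?_ h1.symm
    have h2 : ContinuousAt e x := e.continuousAt hx
    have h3 : ContinuousAt e.symm (h (e x)) := e.symm.continuousAt (extFun_mem hKt hK hx)
    have h4 : ContinuousAt (fun y => h (e y)) x :=
      ContinuousAt.comp (g := h) h.continuous.continuousAt h2
    exact ContinuousAt.comp (g := e.symm) (f := fun y => h (e y)) h3 h4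
  · exact continuousAt_id.congr h1.symm

theorem extFun_arM [T2Space X] [AreaAtlas X] {e : OpenPartialHomeomorph X ℂ} (he : IsCh e)
    {h : ℂ ≃ₜ ℂ} {K : Set ℂ}
    (hKc : IsCompact K) (hKt : K ⊆ e.target) (hK : ∀ z, z ∉ K → h z = z)
    (ha : ∀ z, Ar h z) (x : X) : ArM (extFun e h) x := by
  rcases extFun_eventually hKc hKt hK x with ⟨hx, h1⟩ | h1
  · refine ArM.congr ?_ h1.symm
    have h2 : ArM e x := he.arM hx
    have h3 : ArM e.symm (h (e x)) := he.arM_symm (extFun_mem hKt hK hx)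
    have h4 : ArM h (e x) := arM_self_iff.2 (ha _)
    have h5 : ArM (fun y => h (e y)) x := ArM.comp (g := h) (f := e) h4 h2
    exact ArM.comp (g := e.symm) (f := fun y => h (e y)) h3 h5
  · exact (arM_id x).congr h1.symm

/-- Extension by the identity as a homeomorphism. -/
noncomputable def extHomeo [T2Space X] (e : OpenPartialHomeomorph X ℂ) (h : ℂ ≃ₜ ℂ) (K : Set ℂ)
    (hKc : IsCompact K) (hKt : K ⊆ e.target) (hK : ∀ z, z ∉ K → h z = z) : X ≃ₜ X where
  toFun := extFun e h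
  invFun := extFun e h.symm
  left_inv := extFun_inv hKt hK
  right_inv := extFun_inv (h := h.symm) hKt (symm_fix hK)
  continuous_toFun := extFun_continuous hKc hKt hK
  continuous_invFun := extFun_continuous hKc hKt (symm_fix hK)

theorem extHomeo_isAut [T2Space X] [AreaAtlas X] {e : OpenPartialHomeomorph X ℂ} (he : IsCh e)
    {h : ℂ ≃ₜ ℂ} {K : Set ℂ} (hKc : IsCompact K) (hKt : K ⊆ e.target)
    (hK : ∀ z, z ∉ K → h z = z) (ha : ∀ z, Ar h z) (ha' : ∀ z, Ar h.symm z) :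
    IsAut (extHomeo e h K hKc hKt hK) :=
  ⟨extFun_arM he hKc hKt hK ha, extFun_arM he hKc hKt (symm_fix hK) ha'⟩

theorem extHomeo_suppIn [T2Space X] {e : OpenPartialHomeomorph X ℂ}
    {h : ℂ ≃ₜ ℂ} {K : Set ℂ} (hKc : IsCompact K) (hKt : K ⊆ e.target)
    (hK : ∀ z, z ∉ K → h z = z) {O : Set X} (hO : e.symm '' K ⊆ O) :
    SuppIn (extHomeo e h K hKc hKt hK) O := by
  refine ⟨e.symm '' K, hKc.image_of_continuousOn (e.symm.continuousOn.mono hKt), hO, ?_⟩
  intro x hx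
  show extFun e h x = x
  by_cases hys : x ∈ e.source
  · rw [extFun_of_mem hys, hK, e.left_inv hys]
    intro hyK
    exact hx ⟨e x, hyK, e.left_inv hys⟩
  · exact extFun_of_notMem hys

end

end Pool.Agent.Work.MP_ac1d8d_gt
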