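import Mathlib
import Pool.Agent.Work.MP_ac1d8d_gt.Surf

/-!
Surfaces defined by families of parametrizations with area preserving changes.
-/

set_option linter.all false
set_option autoImplicit false

namespace Pool.Agent.Work.MP_ac1d8d_gt

open scoped ContDiff Topology
open Filter Complex Set

/-- A family of parametrizations of the set `M` by open subsets of the plane. -/
structure Param (M : Type*) (J : Type*) where
  U : J → Set ℂ
  p : J → ℂ → M
  openU : ∀ j, IsOpen (U j)
  inj : ∀ j, InjOn (p j) (U j)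
  cover : ∀ x, ∃ j, ∃ z ∈ U j, p j z = x
  trans : ∀ i j z w, z ∈ U i → w ∈ U j → p i z = p j w →
    ∃ τ : ℂ → ℂ, Ar τ z ∧ τ z = w ∧ ∀ᶠ y in 𝓝 z, p j (τ y) = p i y

namespace Param

variable {M J : Type*} (P : Param M J)

/-- The final topology. -/
@[reducible] def topology : TopologicalSpace M where
  IsOpen W := ∀ j, IsOpen (P.U j ∩ P.p j ⁻¹' W)
  isOpen_univ j := by simpa using P.openU j
  isOpen_inter s t hs ht j := by
    have : P.U j ∩ P.p j ⁻¹' (s ∩ t) = (P.U j ∩ P.p j ⁻¹' s) ∩ (P.U j ∩ P.p j ⁻¹' t) := by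
      ext z; simp only [mem_inter_iff, mem_preimage]; tauto
    rw [this]
    exact (hs j).inter (ht j)
  isOpen_sUnion S hS j := by
    have : P.U j ∩ P.p j ⁻¹' (⋃₀ S) = ⋃ s ∈ S, (P.U j ∩ P.p j ⁻¹' s) := by
      ext z; simp only [mem_inter_iff, mem_preimage, mem_sUnion, mem_iUnion, exists_prop]; tauto
    rw [this]
    exact isOpen_biUnion fun s hs => hS s hs j

theorem isOpen_iff {W : Set M} :
    IsOpen[P.topology] W ↔ ∀ j, IsOpen (P.U j ∩ P.p j ⁻¹' W) := Iff.rfl

theorem isOpen_image {j : J} {V : Set ℂ} (hV : IsOpen V) (hVU : V ⊆ P.U j) :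
    IsOpen[P.topology] (P.p j '' V) := by
  rw [P.isOpen_iff]
  intro i
  rw [isOpen_iff_mem_nhds]
  rintro z ⟨hz, w, hw, hzw⟩
  obtain ⟨τ, h1, h2, h3⟩ := P.trans i j z w hz (hVU hw) hzw.symm
  have h4 : ∀ᶠ y in 𝓝 z, τ y ∈ V := h1.continuousAt.eventually (by rw [h2]; exact hV.mem_nhds hw)
  filter_upwards [h3, h4, (P.openU i).mem_nhds hz] with y h5 h6 h7
  exact ⟨h7, τ y, h6, h5⟩

/-- The chart given by a parametrization. -/
noncomputable def chart (j : J) : @OpenPartialHomeomorph M ℂ P.topology _ :=
  letI := P.topology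
  { toFun := Function.invFunOn (P.p j) (P.U j)
    invFun := P.p j
    source := P.p j '' P.U j
    target := P.U j
    map_source' := by
      rintro x ⟨z, hz, rfl⟩
      exact Function.invFunOn_mem ⟨z, hz, rfl⟩
    map_target' := fun z hz => ⟨z, hz, rfl⟩
    left_inv' := by
      rintro x ⟨z, hz, rfl⟩
      exact Function.invFunOn_eq ⟨z, hz, rfl⟩
    right_inv' := fun z hz => (P.inj j).leftInvOn_invFunOn hz
    open_source := P.isOpen_image (P.openU j) Subset.rfl
    open_target := P.openU j
    continuousOn_toFun := by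
      rw [continuousOn_open_iff (P.isOpen_image (P.openU j) Subset.rfl)]
      intro V hV
      have : P.p j '' P.U j ∩ Function.invFunOn (P.p j) (P.U j) ⁻¹' V
          = P.p j '' (P.U j ∩ V) := by
        ext x
        constructor
        · rintro ⟨⟨z, hz, rfl⟩, h⟩
          refine ⟨z, ⟨hz, ?_⟩, rfl⟩
          have : Function.invFunOn (P.p j) (P.U j) (P.p j z) = z :=
            (P.inj j).leftInvOn_invFunOn hz
          rw [← this]; exact h
        · rintro ⟨z, ⟨hz, hzV⟩, rfl⟩
          refine ⟨⟨z, hz, rfl⟩, ?_⟩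
          have : Function.invFunOn (P.p j) (P.U j) (P.p j z) = z :=
            (P.inj j).leftInvOn_invFunOn hz
          show Function.invFunOn (P.p j) (P.U j) (P.p j z) ∈ V
          rw [this]; exact hzV
      rw [this]
      exact P.isOpen_image ((P.openU j).inter hV) inter_subset_left
    continuousOn_invFun := by
      rw [continuousOn_open_iff (P.openU j)]
      intro W hW
      exact hW j }

theorem chart_symm_apply (j : J) (z : ℂ) :
    letI := P.topology
    (P.chart j).symm z = P.p j z := rfl

theorem chart_apply {j : J} {z : ℂ} (hz : z ∈ P.U j) :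
    letI := P.topology
    (P.chart j) (P.p j z) = z := (P.inj j).leftInvOn_invFunOn hz

theorem chart_source (j : J) :
    letI := P.topology
    (P.chart j).source = P.p j '' P.U j := rfl

theorem chart_target (j : J) :
    letI := P.topology
    (P.chart j).target = P.U j := rfl

/-- The charted space. -/
@[reducible] noncomputable def chartedSpace : @ChartedSpace ℂ _ M P.topology :=
  letI := P.topology
  { atlas := range P.chart
    chartAt := fun x => P.chart (P.cover x).choose
    mem_chart_source := fun x => by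
      obtain ⟨z, hz, h⟩ := (P.cover x).choose_spec
      exact ⟨z, hz, h⟩
    chart_mem_atlas := fun x => mem_range_self _ }

theorem areaAtlas : @AreaAtlas M P.topology P.chartedSpace := by
  letI := P.topology
  letI := P.chartedSpace
  refine ⟨?_⟩
  rintro _ ⟨i, rfl⟩ _ ⟨j, rfl⟩ x hx hx'
  obtain ⟨z, hz, rfl⟩ := hx
  obtain ⟨w, hw, hwz⟩ := hx'
  obtain ⟨τ, h1, h2, h3⟩ := P.trans i j z w hz hw hwz.symm
  rw [P.chart_apply hz]
  refine h1.congr ?_
  have h4 : ∀ᶠ y in 𝓝 z, τ y ∈ P.U j :=
    h1.continuousAt.eventually (by rw [h2]; exact (P.openU j).mem_nhds hw)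
  filter_upwards [h3, h4] with y h5 h6
  rw [P.chart_symm_apply, ← h5, P.chart_apply h6]

theorem chart_mem_atlas (j : J) :
    letI := P.topology
    letI := P.chartedSpace
    P.chart j ∈ atlas ℂ M := mem_range_self j

end Param

end Pool.Agent.Work.MP_ac1d8d_gt
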