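import Mathlib

/-!
Combinatorics of the free group of rank two.
-/

set_option linter.all false
set_option autoImplicit false

namespace Pool.Agent.Work.MP_ac1d8d_gt

open Set

/-- The free group of rank two. -/
abbrev Gp : Type := FreeGroup Bool

/-- The inverse letter. -/
def inv (l : Bool × Bool) : Bool × Bool := (l.1, !l.2)

/-- The group element of a letter. -/
def gl (l : Bool × Bool) : Gp := FreeGroup.mk [l]

@[simp] theorem inv_inv' (l : Bool × Bool) : inv (inv l) = l := by
  simp [inv]

theorem inv_ne (l : Bool × Bool) : inv l ≠ l := by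
  rcases l with ⟨a, b⟩
  cases b <;> simp [inv]

theorem gl_inv (l : Bool × Bool) : gl (inv l) = (gl l)⁻¹ := by
  simp [gl, inv, FreeGroup.inv_mk, FreeGroup.invRev]

theorem toWord_gl (l : Bool × Bool) : (gl l).toWord = [l] := by
  simp [gl, FreeGroup.toWord_mk, FreeGroup.reduce]

theorem gl_injective : Function.Injective gl := by
  intro l l' h
  have := congrArg FreeGroup.toWord h
  rw [toWord_gl, toWord_gl] at this
  simpa using this

theorem gl_ne_one (l : Bool × Bool) : gl l ≠ 1 := by
  intro h
  have := congrArg FreeGroup.toWord h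
  rw [toWord_gl, FreeGroup.toWord_one] at this
  simp at this

/-- The words starting with the letter `l`. -/
def W (l : Bool × Bool) : Set Gp := {w | ∃ t, w.toWord = l :: t}

theorem one_notMem_W (l : Bool × Bool) : (1 : Gp) ∉ W l := by
  rintro ⟨t, ht⟩
  rw [FreeGroup.toWord_one] at ht
  simp at ht

theorem gl_mem_W (l : Bool × Bool) : gl l ∈ W l := ⟨[], toWord_gl l⟩

theorem W_disj {l l' : Bool × Bool} {w : Gp} (h : w ∈ W l) (h' : w ∈ W l') : l = l' := by
  obtain ⟨t, ht⟩ := h
  obtain ⟨t', ht'⟩ := h'
  rw [ht] at ht'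
  simp at ht'
  exact ht'.1

theorem exists_W {w : Gp} (h : w ≠ 1) : ∃ l, w ∈ W l := by
  rcases hw : w.toWord with _ | ⟨l, t⟩
  · exact absurd (FreeGroup.toWord_eq_nil_iff.1 hw) h
  · exact ⟨l, t, hw⟩

theorem red_left {a b : List (Bool × Bool)} (h : FreeGroup.IsReduced (a ++ b)) :
    FreeGroup.IsReduced a := List.IsChain.left_of_append h

theorem red_right {a b : List (Bool × Bool)} (h : FreeGroup.IsReduced (a ++ b)) :
    FreeGroup.IsReduced b := List.IsChain.right_of_append h

theorem isReduced_pair (a b : Bool × Bool) : FreeGroup.IsReduced [a, b] ↔ a ≠ inv b := by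
  rw [FreeGroup.isReduced_cons_cons]
  rcases a with ⟨a1, a2⟩
  rcases b with ⟨b1, b2⟩
  simp only [inv, FreeGroup.IsReduced.singleton, and_true, ne_eq, Prod.mk.injEq, not_and]
  constructor
  · intro h h1 h2
    have := h h1
    rw [this] at h2
    cases b2 <;> simp at h2
  · intro h h1
    have := h h1
    cases a2 <;> cases b2 <;> simp_all

theorem toWord_mul_gl (w : Gp) (m : Bool × Bool) :
    (∃ L, w.toWord = L ++ [inv m] ∧ (w * gl m).toWord = L) ∨
      (w * gl m).toWord = w.toWord ++ [m] := by
  have hmul : (w * gl m).toWord = FreeGroup.reduce (w.toWord ++ [m]) := by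
    rw [FreeGroup.toWord_mul, toWord_gl]
  have hred : FreeGroup.IsReduced w.toWord := FreeGroup.isReduced_toWord
  rcases List.eq_nil_or_concat w.toWord with hw | ⟨L, a, hw⟩
  · right
    rw [hmul, hw]
    exact FreeGroup.IsReduced.singleton.reduce_eq
  · rw [List.concat_eq_append] at hw
    by_cases ha : a = inv m
    · left
      refine ⟨L, by rw [hw, ha], ?_⟩
      rw [hmul, hw, ha, List.append_assoc]
      have h1 : FreeGroup.mk (L ++ ([inv m] ++ [m])) = FreeGroup.mk L := by
        have : FreeGroup.mk (L ++ ([inv m] ++ [m])) =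
            FreeGroup.mk L * (gl (inv m) * gl m) := by
          simp [gl, FreeGroup.mul_mk]
        rw [this, gl_inv]
        simp
      have h2 := congrArg FreeGroup.toWord h1
      rw [FreeGroup.toWord_mk, FreeGroup.toWord_mk] at h2
      rw [h2]
      apply FreeGroup.IsReduced.reduce_eq
      rw [hw] at hred
      exact red_left hred
    · right
      rw [hmul]
      apply FreeGroup.IsReduced.reduce_eq
      rw [hw]
      refine FreeGroup.IsReduced.append_overlap (L₂ := [a]) ?_ ?_ (by simp)
      · rw [hw] at hred; exact hred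
      · exact (isReduced_pair a m).2 ha

theorem W_exit {w : Gp} {l m : Bool × Bool} (h : w ∈ W l) (h' : w * gl m ∉ W l) :
    w = gl l ∧ m = inv l := by
  obtain ⟨t, ht⟩ := h
  rcases toWord_mul_gl w m with ⟨L, h1, h2⟩ | h2
  · rcases L with _ | ⟨a, L⟩
    · rw [ht] at h1
      simp at h1
      obtain ⟨h3, h4⟩ := h1
      refine ⟨?_, ?_⟩
      · apply FreeGroup.toWord_injective
        rw [ht, toWord_gl, h4]
      · rw [h3, inv_inv']
    · exfalso
      apply h'
      rw [ht] at h1
      simp at h1
      exact ⟨L, by rw [h2, h1.1]⟩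
  · exfalso
    apply h'
    refine ⟨t ++ [m], ?_⟩
    rw [h2, ht]; simp

theorem W_enter {w : Gp} {l m : Bool × Bool} (h : w ∉ W l) (h' : w * gl m ∈ W l) :
    w = 1 ∧ m = l := by
  have h1 : (w * gl m) * gl (inv m) = w := by rw [gl_inv]; simp
  obtain ⟨h2, h3⟩ := W_exit h' (by rw [h1]; exact h) (m := inv m)
  have h4 : m = l := by rw [← inv_inv' m, h3, inv_inv']
  subst h4
  refine ⟨?_, rfl⟩
  have : w * gl m = 1 * gl m := by rw [one_mul]; exact h2
  exact mul_right_cancel this

theorem toWord_gl_mul {v : Gp} {l : Bool × Bool} (h : v ∉ W (inv l)) :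
    (gl l * v).toWord = l :: v.toWord := by
  rw [FreeGroup.toWord_mul, toWord_gl]
  apply FreeGroup.IsReduced.reduce_eq
  have hred : FreeGroup.IsReduced v.toWord := FreeGroup.isReduced_toWord
  rcases hv : v.toWord with _ | ⟨a, t⟩
  · exact FreeGroup.IsReduced.singleton
  · rw [hv] at hred
    have h1 : a ≠ inv l := by
      rintro rfl
      exact h ⟨t, hv⟩
    have h2 : FreeGroup.IsReduced [l, a] := by
      rw [isReduced_pair]
      intro h3
      apply h1
      rw [h3, inv_inv']
    exact FreeGroup.IsReduced.append_overlap (L₁ := [l]) (L₂ := [a]) (L₃ := t) h2 hred (by simp)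

theorem gl_mul_mem {v : Gp} {l : Bool × Bool} (h : v ∉ W (inv l)) : gl l * v ∈ W l :=
  ⟨_, toWord_gl_mul h⟩

theorem compl_W {w : Gp} {l : Bool × Bool} : w ∉ W l ↔ (gl l)⁻¹ * w ∈ W (inv l) := by
  constructor
  · intro h
    rw [← gl_inv]
    exact gl_mul_mem (by rwa [inv_inv'])
  · intro h h'
    obtain ⟨t, ht⟩ := h'
    have hred : FreeGroup.IsReduced w.toWord := FreeGroup.isReduced_toWord
    rw [ht] at hred
    have h1 : (gl l)⁻¹ * w = FreeGroup.mk t := by
      have : w = gl l * FreeGroup.mk t := by
        rw [← FreeGroup.mk_toWord (x := w), ht]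
        simp [gl, FreeGroup.mul_mk]
      rw [this]; simp
    have h2 : ((gl l)⁻¹ * w).toWord = t := by
      rw [h1, FreeGroup.toWord_mk]
      apply FreeGroup.IsReduced.reduce_eq
      exact red_right (a := [l]) hred
    obtain ⟨t', ht'⟩ := h
    rw [h2] at ht'
    rw [ht'] at hred
    have h3 : FreeGroup.IsReduced [l, inv l] := red_left (b := t') (by simpa using hred)
    rw [isReduced_pair, inv_inv'] at h3
    exact h3 rfl

theorem gl_pow_mul {l : Bool × Bool} (n : ℕ) {v : Gp} (h : v ∉ W (inv l)) :
    (gl l ^ n * v).toWord = List.replicate n l ++ v.toWord := by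
  induction n with
  | zero => simp
  | succ n ih =>
    rw [pow_succ', mul_assoc, toWord_gl_mul, ih]
    · simp [List.replicate_succ]
    · rintro ⟨t, ht⟩
      rw [ih] at ht
      cases n with
      | zero => exact h ⟨t, by simpa using ht⟩
      | succ n =>
        simp [List.replicate_succ] at ht
        exact inv_ne l ht.1.symm

theorem notMem_W_inv {l : Bool × Bool} {v : Gp} (h : v = 1 ∨ v ∈ W l) : v ∉ W (inv l) := by
  rcases h with rfl | h
  · exact one_notMem_W _
  · intro h'
    exact inv_ne l (W_disj h' h)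

theorem far_length {l : Bool × Bool} (n : ℕ) {v : Gp} (h : v = 1 ∨ v ∈ W l) :
    n ≤ (gl l ^ n * v).toWord.length := by
  rw [gl_pow_mul n (notMem_W_inv h)]
  simp

theorem far_mem {l : Bool × Bool} {n : ℕ} (hn : n ≠ 0) {v : Gp} (h : v = 1 ∨ v ∈ W l) :
    gl l ^ n * v ∈ W l := by
  obtain ⟨m, rfl⟩ := Nat.exists_eq_succ_of_ne_zero hn
  refine ⟨List.replicate m l ++ v.toWord, ?_⟩
  rw [gl_pow_mul _ (notMem_W_inv h)]
  simp [List.replicate_succ]

theorem exists_far (l : Bool × Bool) (F : Set Gp) (hF : F.Finite) :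
    ∃ n : ℕ, n ≠ 0 ∧ ∀ v : Gp, (v = 1 ∨ v ∈ W l) → gl l ^ n * v ∉ F := by
  obtain ⟨N, hN⟩ := (hF.image fun w => w.toWord.length).bddAbove
  refine ⟨N + 1, by simp, fun v hv hvF => ?_⟩
  have h1 := hN (mem_image_of_mem _ hvF)
  have h2 := far_length (N + 1) hv
  have h3 : (gl l ^ (N + 1) * v).toWord.length ≤ N := h1
  omega

/-- For the swindle: the translates by powers of a letter of the other kind are disjoint. -/
theorem pow_other {l m : Bool × Bool} (h : m.1 ≠ l.1) {n : ℕ} (hn : n ≠ 0) {v : Gp}
    (hv : v = 1 ∨ v ∈ W l) : gl m ^ n * v ∈ W m := by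
  have hv' : v ∉ W (inv m) := by
    rcases hv with rfl | hv
    · exact one_notMem_W _
    · intro h'
      have := W_disj h' hv
      apply h
      rw [← this]; rfl
  obtain ⟨k, rfl⟩ := Nat.exists_eq_succ_of_ne_zero hn
  refine ⟨List.replicate k m ++ v.toWord, ?_⟩
  rw [gl_pow_mul _ hv']
  simp [List.replicate_succ]

/-- The commutator of the two generators. -/
def dl : Gp := gl (true, true) * gl (false, true) * (gl (true, true))⁻¹ * (gl (false, true))⁻¹

theorem dl_mul {v : Gp} (hv : v ∈ W (true, false)) : dl * v ∈ W (true, true) := by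
  have e : dl * v = gl (true, true) * (gl (false, true) * (gl (true, false) *
      (gl (false, false) * v))) := by
    have h1 : (gl (true, true))⁻¹ = gl (true, false) := (gl_inv (true, true)).symm
    have h2 : (gl (false, true))⁻¹ = gl (false, false) := (gl_inv (false, true)).symm
    rw [dl, h1, h2]
    group
  rw [e]
  have d : ∀ {a b : Bool × Bool} {w : Gp}, w ∈ W a → a ≠ b → w ∉ W b :=
    fun h1 h2 h3 => h2 (W_disj h1 h3)
  have a1 : gl (false, false) * v ∈ W (false, false) :=
    gl_mul_mem (d hv (by decide))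
  have a2 : gl (true, false) * (gl (false, false) * v) ∈ W (true, false) :=
    gl_mul_mem (d a1 (by decide))
  have a3 := gl_mul_mem (l := (false, true)) (d a2 (by decide))
  exact gl_mul_mem (d a3 (by decide))

/-- The tree is connected, and the half trees are connected. -/
theorem W_induction {l : Bool × Bool} {P : Gp → Prop} (h0 : P (gl l))
    (hs : ∀ w m, w ∈ W l → w * gl m ∈ W l → P w → P (w * gl m)) :
    ∀ w ∈ W l, P w := by
  have key : ∀ n : ℕ, ∀ w ∈ W l, w.toWord.length = n + 1 → P w := by
    intro n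
    induction n with
    | zero =>
      rintro w ⟨t, ht⟩ hlen
      rw [ht] at hlen
      simp at hlen
      subst hlen
      have : w = gl l := by
        apply FreeGroup.toWord_injective
        rw [ht, toWord_gl]
      rw [this]; exact h0
    | succ n ih =>
      rintro w ⟨t, ht⟩ hlen
      rcases List.eq_nil_or_concat t with rfl | ⟨L, m, rfl⟩
      · rw [ht] at hlen; simp at hlen
      · have hred : FreeGroup.IsReduced w.toWord := FreeGroup.isReduced_toWord
        rw [ht] at hred
        have h1 : FreeGroup.IsReduced (l :: L) := red_left (b := [m]) (by simpa using hred)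
        set w' : Gp := FreeGroup.mk (l :: L) with hw'
        have h2 : w'.toWord = l :: L := by
          rw [hw', FreeGroup.toWord_mk]; exact h1.reduce_eq
        have h3 : w' * gl m = w := by
          rw [hw', gl, FreeGroup.mul_mk, ← FreeGroup.mk_toWord (x := w), ht]
          simp
        have h4 : P w' := by
          refine ih w' ⟨L, h2⟩ ?_
          rw [h2]
          rw [ht] at hlen
          simp at hlen ⊢
          omega
        rw [← h3]
        refine hs w' m ⟨L, h2⟩ ?_ h4
        rw [h3]
        exact ⟨_, ht⟩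
  rintro w hw
  obtain ⟨t, ht⟩ := id hw
  exact key t.length w hw (by rw [ht]; simp)

theorem gp_induction {P : Gp → Prop} (h0 : P 1) (hs : ∀ w m, P w → P (w * gl m)) :
    ∀ w, P w := by
  intro w
  by_cases hw : w = 1
  · rw [hw]; exact h0
  · obtain ⟨l, hl⟩ := exists_W hw
    refine W_induction ?_ (fun w m _ _ h => hs w m h) w hl
    have := hs 1 l h0
    rwa [one_mul] at this

end Pool.Agent.Work.MP_ac1d8d_gt
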