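import Mathlib
import Pool.Agent.Work.MP_ac1d8d_gt.Param
import Pool.Agent.Work.MP_ac1d8d_gt.Iota
import Pool.Agent.Work.MP_ac1d8d_gt.Tree

/-!
The surface: a tree of planes glued along punctured discs.
-/

set_option linter.all false
set_option autoImplicit false

namespace Pool.Agent.Work.MP_ac1d8d_gt

open scoped ContDiff Topology ComplexConjugate
open Filter Complex Set

/-- The centers of the four discs. -/
def cr (l : Bool × Bool) : ℝ := (if l.1 then 9 else 3) * (if l.2 then -1 else 1)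

/-- The centers as complex numbers. -/
noncomputable def cc (l : Bool × Bool) : ℂ := (cr l : ℂ)

theorem cc_inv (l : Bool × Bool) : cc (inv l) = - cc l := by
  rcases l with ⟨a, b⟩
  cases a <;> cases b <;> simp [cc, cr, inv]

theorem dist_cc {l l' : Bool × Bool} (h : l ≠ l') : 6 ≤ ‖cc l - cc l'‖ := by
  rw [cc, cc, ← Complex.ofReal_sub, Complex.norm_real, Real.norm_eq_abs]
  rcases l with ⟨a, b⟩
  rcases l' with ⟨a', b'⟩
  cases a <;> cases b <;> cases a' <;> cases b' <;>
    simp [cr] at h ⊢ <;> norm_num [abs_of_pos, abs_of_neg, abs_of_nonneg, abs_of_nonpos]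

/-- The disc of center `cc l` and radius one, without center. -/
def PD (l : Bool × Bool) : Set ℂ := {z | z - cc l ≠ 0 ∧ ‖z - cc l‖ < 1}

/-- The plane without the four centers. -/
def UU : Set ℂ := {z | ∀ l, z - cc l ≠ 0}

theorem isOpen_UU : IsOpen UU := by
  have : UU = ⋂ l : Bool × Bool, {z | z - cc l ≠ 0} := by
    ext z; simp [UU]
  rw [this]
  exact isOpen_iInter_of_finite fun l => isOpen_ne_fun (by fun_prop) (by fun_prop)

theorem far_of_close {l l' : Bool × Bool} (h : l ≠ l') {z : ℂ} (hz : ‖z - cc l‖ ≤ 1) :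
    5 ≤ ‖z - cc l'‖ := by
  have h1 := dist_cc h
  have h2 : ‖cc l - cc l'‖ ≤ ‖z - cc l‖ + ‖z - cc l'‖ := by
    have : cc l - cc l' = -(z - cc l) + (z - cc l') := by ring
    rw [this]
    refine (norm_add_le _ _).trans ?_
    rw [norm_neg]
  linarith

theorem mem_UU_of_close {l : Bool × Bool} {z : ℂ} (h0 : z - cc l ≠ 0) (hz : ‖z - cc l‖ ≤ 1) :
    z ∈ UU := by
  intro l'
  by_cases h : l = l'
  · rw [← h]; exact h0
  · have := far_of_close h hz
    intro h'
    rw [h', norm_zero] at this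
    linarith

theorem PD_subset (l : Bool × Bool) : PD l ⊆ UU := fun z hz => mem_UU_of_close hz.1 hz.2.le

theorem PD_disj {l l' : Bool × Bool} {z : ℂ} (h : z ∈ PD l) (h' : z ∈ PD l') : l = l' := by
  by_contra hne
  have := far_of_close hne h.2.le
  linarith [h'.2]

/-- The gluing map from the disc of `l` to the disc of `inv l`. -/
noncomputable def glue (l : Bool × Bool) (z : ℂ) : ℂ := cc (inv l) + iot (z - cc l)

theorem glue_sub (l : Bool × Bool) (z : ℂ) : glue l z - cc (inv l) = iot (z - cc l) := by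
  simp [glue]

theorem glue_mem {l : Bool × Bool} {z : ℂ} (h : z ∈ PD l) : glue l z ∈ PD (inv l) := by
  refine ⟨?_, ?_⟩
  · rw [glue_sub]; exact iot_ne_zero h.1 h.2
  · rw [glue_sub]; exact norm_iot_lt h.1 h.2

theorem glue_glue {l : Bool × Bool} {z : ℂ} (h : z ∈ PD l) : glue (inv l) (glue l z) = z := by
  rw [glue, inv_inv', glue_sub, iot_iot h.1 h.2]
  ring

theorem ar_glue {l : Bool × Bool} {z : ℂ} (h : z ∈ PD l) : Ar (glue l) z := by
  have h1 : Ar (fun x => x - cc l) z := by
    refine Eventually.of_forall fun y => ⟨by fun_prop, ?_⟩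
    rw [fderiv_sub_const, fderiv_fun_id]
    exact det_id'
  have h2 : Ar (fun x => cc (inv l) + x) (iot (z - cc l)) := by
    refine Eventually.of_forall fun y => ⟨by fun_prop, ?_⟩
    rw [fderiv_const_add, fderiv_fun_id]
    exact det_id'
  have h3 : Ar (fun x => iot (x - cc l)) z :=
    Ar.comp (v := iot) (u := fun x => x - cc l) (ar_iot h.1 h.2) h1
  exact Ar.comp (v := fun x => cc (inv l) + x) (u := fun x => iot (x - cc l)) h2 h3

theorem isOpen_PD (l : Bool × Bool) : IsOpen (PD l) := by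
  have : PD l = {z | z - cc l ≠ 0} ∩ {z | ‖z - cc l‖ < 1} := rfl
  rw [this]
  exact (isOpen_ne_fun (by fun_prop) (by fun_prop)).inter
    (isOpen_lt (by fun_prop) continuous_const)

/-- The points of the disjoint union of the planes. -/
structure Pt where
  g : Gp
  z : ℂ
  h : z ∈ UU

/-- Equality after gluing. -/
def Rel (g : Gp) (z : ℂ) (g' : Gp) (z' : ℂ) : Prop :=
  (g = g' ∧ z = z') ∨ ∃ l, g' = g * gl l ∧ z ∈ PD l ∧ z' = glue l z

theorem Rel.symm {g g' : Gp} {z z' : ℂ} (h : Rel g z g' z') : Rel g' z' g z := by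
  rcases h with ⟨rfl, rfl⟩ | ⟨l, h1, h2, h3⟩
  · exact Or.inl ⟨rfl, rfl⟩
  · right
    refine ⟨inv l, ?_, ?_, ?_⟩
    · rw [h1, gl_inv]; simp
    · rw [h3]; exact glue_mem h2
    · rw [h3, glue_glue h2]

theorem Rel.trans {g g' g'' : Gp} {z z' z'' : ℂ} (h : Rel g z g' z') (h' : Rel g' z' g'' z'') :
    Rel g z g'' z'' := by
  rcases h with ⟨rfl, rfl⟩ | ⟨l, h1, h2, h3⟩
  · exact h'
  · rcases h' with ⟨rfl, rfl⟩ | ⟨l', h1', h2', h3'⟩
    · exact Or.inr ⟨l, h1, h2, h3⟩
    · have hl : inv l = l' := by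
        apply PD_disj (z := z')
        · rw [h3]; exact glue_mem h2
        · exact h2'
      left
      subst hl
      refine ⟨?_, ?_⟩
      · rw [h1', h1, gl_inv]; simp
      · rw [h3', h3, glue_glue h2]

/-- Gluing. -/
instance relSetoid : Setoid Pt where
  r a b := Rel a.g a.z b.g b.z
  iseqv := ⟨fun _ => Or.inl ⟨rfl, rfl⟩, fun h => h.symm, fun h h' => h.trans h'⟩

/-- The surface. -/
def Surf : Type := Quotient relSetoid

/-- The point of the surface. -/
def toSurf (a : Pt) : Surf := Quotient.mk relSetoid a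

theorem toSurf_eq {a b : Pt} : toSurf a = toSurf b ↔ Rel a.g a.z b.g b.z := Quotient.eq

theorem zero_mem_UU : (0 : ℂ) ∈ UU := by
  rintro ⟨a, b⟩
  cases a <;> cases b <;> simp [cc, cr]

open scoped Classical in
/-- The parametrizations of the surface. -/
noncomputable def mk (g : Gp) (z : ℂ) : Surf :=
  if h : z ∈ UU then toSurf ⟨g, z, h⟩ else toSurf ⟨g, 0, zero_mem_UU⟩

theorem mk_of_mem (g : Gp) {z : ℂ} (h : z ∈ UU) : mk g z = toSurf ⟨g, z, h⟩ := dif_pos h

theorem mk_eq_iff {g g' : Gp} {z z' : ℂ} (hz : z ∈ UU) (hz' : z' ∈ UU) :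
    mk g z = mk g' z' ↔ Rel g z g' z' := by
  rw [mk_of_mem g hz, mk_of_mem g' hz', toSurf_eq]

theorem mk_glue {g : Gp} {l : Bool × Bool} {z : ℂ} (hz : z ∈ PD l) :
    mk (g * gl l) (glue l z) = mk g z := by
  rw [mk_eq_iff (PD_subset _ (glue_mem hz)) (PD_subset _ hz)]
  exact Rel.symm (Or.inr ⟨l, rfl, hz, rfl⟩)

theorem exists_mk (x : Surf) : ∃ g z, z ∈ UU ∧ mk g z = x := by
  obtain ⟨a, rfl⟩ := Quotient.exists_rep x
  exact ⟨a.g, a.z, a.h, mk_of_mem _ a.h⟩

/-- The parametrizations. -/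
noncomputable def surfParam : Param Surf Gp where
  U _ := UU
  p := mk
  openU _ := isOpen_UU
  inj g z hz w hw h := by
    rw [mk_eq_iff hz hw] at h
    rcases h with ⟨_, h⟩ | ⟨l, h1, _⟩
    · exact h
    · exfalso
      have : gl l = 1 := by
        have := h1.symm
        rwa [mul_eq_left] at this
      exact gl_ne_one l this
  cover x := by
    obtain ⟨g, z, hz, h⟩ := exists_mk x
    exact ⟨g, z, hz, h⟩
  trans g g' z w hz hw h := by
    rw [mk_eq_iff hz hw] at h
    rcases h with ⟨rfl, rfl⟩ | ⟨l, rfl, h2, rfl⟩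
    · exact ⟨fun u => u, ar_id z, rfl, Eventually.of_forall fun _ => rfl⟩
    · refine ⟨glue l, ar_glue h2, rfl, ?_⟩
      filter_upwards [(isOpen_PD l).mem_nhds h2] with y hy
      exact mk_glue hy

noncomputable instance : TopologicalSpace Surf := surfParam.topology

noncomputable instance : ChartedSpace ℂ Surf := surfParam.chartedSpace

instance : AreaAtlas Surf := surfParam.areaAtlas

/-- The tile of `g`. -/
def tile (g : Gp) : Set Surf := mk g '' UU

theorem isOpen_mk_image {g : Gp} {V : Set ℂ} (hV : IsOpen V) (h : V ⊆ UU) :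
    IsOpen (mk g '' V) := surfParam.isOpen_image (j := g) hV h

theorem isOpen_tile (g : Gp) : IsOpen (tile g) := isOpen_mk_image isOpen_UU Subset.rfl

theorem continuousOn_mk (g : Gp) : ContinuousOn (mk g) UU :=
  (surfParam.chart g).symm.continuousOn

theorem mk_mem_tile {g g' : Gp} {z : ℂ} (hz : z ∈ UU) :
    mk g z ∈ tile g' ↔ g' = g ∨ ∃ l, g' = g * gl l ∧ z ∈ PD l := by
  constructor
  · rintro ⟨w, hw, h⟩
    rw [mk_eq_iff hw hz] at h
    rcases h.symm with ⟨rfl, _⟩ | ⟨l, h1, h2, _⟩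
    · exact Or.inl rfl
    · exact Or.inr ⟨l, h1, h2⟩
  · rintro (rfl | ⟨l, rfl, h2⟩)
    · exact ⟨z, hz, rfl⟩
    · exact ⟨glue l z, PD_subset _ (glue_mem h2), mk_glue h2⟩

theorem isPreconnected_UU : IsPreconnected UU := by
  have h : UU = (range cc)ᶜ := by
    ext z
    simp only [UU, mem_setOf_eq, mem_compl_iff, mem_range, not_exists, sub_ne_zero]
    exact forall_congr' fun l => ne_comm
  rw [h]
  have hc : (range cc).Countable := (finite_range cc).countable
  refine (hc.isConnected_compl_of_one_lt_rank ?_).isPreconnected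
  rw [Complex.rank_real_complex]
  exact_mod_cast one_lt_two

theorem isPreconnected_tile (g : Gp) : IsPreconnected (tile g) :=
  isPreconnected_UU.image _ (continuousOn_mk g)

theorem cc_add_half (l : Bool × Bool) : cc l + 1 / 2 ∈ PD l := by
  refine ⟨by simp, ?_⟩
  rw [add_sub_cancel_left]
  norm_num

theorem tile_inter (g : Gp) (l : Bool × Bool) : (tile g ∩ tile (g * gl l)).Nonempty := by
  have h := cc_add_half l
  exact ⟨mk g (cc l + 1/2), (mk_mem_tile (PD_subset _ h)).2 (Or.inl rfl),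
    (mk_mem_tile (PD_subset _ h)).2 (Or.inr ⟨l, rfl, h⟩)⟩

instance : Nonempty Surf := ⟨mk 1 0⟩

instance : T2Space Surf := by
  have same : ∀ (g : Gp) (z w : ℂ), z ∈ UU → w ∈ UU → z ≠ w →
      ∃ u v : Set Surf, IsOpen u ∧ IsOpen v ∧ mk g z ∈ u ∧ mk g w ∈ v ∧ Disjoint u v := by
    intro g z w hz hw hne
    obtain ⟨u, v, hu, hv, hzu, hwv, hd⟩ := t2_separation hne
    refine ⟨mk g '' (UU ∩ u), mk g '' (UU ∩ v), isOpen_mk_image (isOpen_UU.inter hu)
      inter_subset_left, isOpen_mk_image (isOpen_UU.inter hv) inter_subset_left,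
      ⟨z, ⟨hz, hzu⟩, rfl⟩, ⟨w, ⟨hw, hwv⟩, rfl⟩, ?_⟩
    rw [Set.disjoint_left]
    rintro _ ⟨a, ha, rfl⟩ ⟨b, hb, h⟩
    have := surfParam.inj g hb.1 ha.1 h
    subst this
    exact Set.disjoint_left.1 hd ha.2 hb.2
  refine ⟨?_⟩
  intro x y hxy
  obtain ⟨g, z, hz, rfl⟩ := exists_mk x
  obtain ⟨g', z', hz', rfl⟩ := exists_mk y
  by_cases h1 : mk g z ∈ tile g'
  · obtain ⟨w, hw, h⟩ := h1
    rw [← h] at hxy ⊢
    exact same g' w z' hw hz' (fun h' => hxy (by rw [h']))
  · by_cases h2 : mk g' z' ∈ tile g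
    · obtain ⟨w, hw, h⟩ := h2
      rw [← h] at hxy ⊢
      exact same g z w hz hw (fun h' => hxy (by rw [h']))
    · by_cases hadj : ∃ l, g' = g * gl l
      · obtain ⟨l, rfl⟩ := hadj
        have hzl : z ∉ PD l := fun h => h1 ((mk_mem_tile hz).2 (Or.inr ⟨l, rfl, h⟩))
        have hzl' : z' ∉ PD (inv l) := fun h => h2 ((mk_mem_tile hz').2
          (Or.inr ⟨inv l, by rw [gl_inv]; simp, h⟩))
        have hz1 : 1 ≤ ‖z - cc l‖ := by
          by_contra hlt
          exact hzl ⟨hz l, not_le.1 hlt⟩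
        have hz1' : 1 ≤ ‖z' - cc (inv l)‖ := by
          by_contra hlt
          exact hzl' ⟨hz' _, not_le.1 hlt⟩
        have ho : ∀ l, IsOpen {u : ℂ | 1 / 2 < ‖u - cc l‖ ^ 2} := fun l =>
          isOpen_lt continuous_const (by fun_prop)
        refine ⟨mk g '' (UU ∩ {u | 1 / 2 < ‖u - cc l‖ ^ 2}),
          mk (g * gl l) '' (UU ∩ {u | 1 / 2 < ‖u - cc (inv l)‖ ^ 2}),
          isOpen_mk_image (isOpen_UU.inter (ho _)) inter_subset_left,
          isOpen_mk_image (isOpen_UU.inter (ho _)) inter_subset_left,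
          ⟨z, ⟨hz, ?_⟩, rfl⟩, ⟨z', ⟨hz', ?_⟩, rfl⟩, ?_⟩
        · show 1 / 2 < ‖z - cc l‖ ^ 2
          nlinarith
        · show 1 / 2 < ‖z' - cc (inv l)‖ ^ 2
          nlinarith
        · rw [Set.disjoint_left]
          rintro _ ⟨a, ha, rfl⟩ ⟨b, hb, h⟩
          rw [mk_eq_iff hb.1 ha.1] at h
          rcases h.symm with ⟨h3, _⟩ | ⟨l', h3, h4, h5⟩
          · exact gl_ne_one l (by rwa [eq_comm, mul_eq_left] at h3)
          · have hl : l = l' := gl_injective (mul_left_cancel h3)
            subst hl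
            have h6 := norm_iot h4.1 h4.2
            rw [← glue_sub, ← h5] at h6
            have h7 : 1 / 2 < ‖a - cc l‖ ^ 2 := ha.2
            have h8 : 1 / 2 < ‖b - cc (inv l)‖ ^ 2 := hb.2
            linarith
      · refine ⟨tile g, tile g', isOpen_tile g, isOpen_tile g', ⟨z, hz, rfl⟩, ⟨z', hz', rfl⟩, ?_⟩
        rw [Set.disjoint_left]
        rintro _ ⟨a, ha, rfl⟩ h
        rw [mk_mem_tile ha] at h
        rcases h with h | ⟨l, h3, _⟩
        · subst h
          exact h1 ⟨z, hz, rfl⟩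
        · exact hadj ⟨l, h3⟩

instance : SecondCountableTopology Surf := by
  have : ∀ g : Gp, SecondCountableTopology (tile g) := fun g =>
    (surfParam.chart g).secondCountableTopology_source
  haveI : Countable Gp := inferInstance
  exact TopologicalSpace.secondCountableTopology_of_countable_cover (fun g => isOpen_tile g)
    (by
      rw [eq_univ_iff_forall]
      intro x
      obtain ⟨g, z, hz, rfl⟩ := exists_mk x
      exact mem_iUnion.2 ⟨g, z, hz, rfl⟩)

instance : ConnectedSpace Surf := by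
  have key : ∀ g : Gp, IsPreconnected (⋃ h : Gp, tile h) := by
    intro _
    apply IsPreconnected.iUnion_of_reflTransGen (fun g => isPreconnected_tile g)
    have h1 : ∀ g : Gp, Relation.ReflTransGen (fun i j : Gp => (tile i ∩ tile j).Nonempty) 1 g := by
      apply gp_induction
      · exact Relation.ReflTransGen.refl
      · intro w m hw
        exact hw.tail (tile_inter w m)
    intro i j
    have h2 : Relation.ReflTransGen (fun i j : Gp => (tile i ∩ tile j).Nonempty) i 1 := by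
      have := h1 i
      induction this with
      | refl => exact Relation.ReflTransGen.refl
      | tail _ hbc ih => exact Relation.ReflTransGen.head (by rwa [inter_comm]) ih
    exact h2.trans (h1 j)
  have hu : (⋃ h : Gp, tile h) = univ := by
    rw [eq_univ_iff_forall]
    intro x
    obtain ⟨g, z, hz, rfl⟩ := exists_mk x
    exact mem_iUnion.2 ⟨g, z, hz, rfl⟩
  haveI : PreconnectedSpace Surf := ⟨by rw [← hu]; exact key 1⟩
  exact ⟨inferInstance⟩

end Pool.Agent.Work.MP_ac1d8d_gt
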