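import Mathlib
import Pool.Agent.Work.MP_ac1d8d_gt.Loc

/-! Generating functions: local area preserving germs extend to compactly supported
area preserving diffeomorphisms of the plane. -/

set_option autoImplicit false

namespace Pool.Agent.Work.MP_ac1d8d_gt

open scoped ContDiff Topology NNReal
open Filter Complex Metric

namespace Gen

theorem exists_homeo (φ : ℂ → ℂ) (hφ : ContDiff ℝ ∞ φ) (hb : ∀ z, ‖fderiv ℝ φ z‖ ≤ 1 / 2)
    (hdet : ∀ z, (fderiv ℝ (fun z => z + φ z) z).det ≠ 0) :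
    ∃ A : ℂ ≃ₜ ℂ, (∀ z, A z = z + φ z) ∧ ContDiff ℝ ∞ A.symm := by
  have hd : Differentiable ℝ φ := hφ.differentiable (by simp)
  have happ : ApproximatesLinearOn (fun z => z + φ z)
      ((ContinuousLinearEquiv.refl ℝ ℂ : ℂ ≃L[ℝ] ℂ) : ℂ →L[ℝ] ℂ) Set.univ (1 / 2 : ℝ≥0) := by
    intro x _ y _
    have h1 := Convex.norm_image_sub_le_of_norm_fderiv_le (𝕜 := ℝ) (f := φ) (s := Set.univ)
      (C := 1 / 2) (fun z _ => hd z) (fun z _ => hb z) convex_univ (Set.mem_univ y)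
      (Set.mem_univ x)
    have h2 : x + φ x - (y + φ y)
        - ((ContinuousLinearEquiv.refl ℝ ℂ : ℂ ≃L[ℝ] ℂ) : ℂ →L[ℝ] ℂ) (x - y) = φ x - φ y := by
      simp only [ContinuousLinearEquiv.coe_refl, ContinuousLinearMap.coe_id', id]
      ring
    rw [h2]
    simpa using h1
  have hc : Subsingleton ℂ ∨ (1 / 2 : ℝ≥0)
      < ‖((ContinuousLinearEquiv.refl ℝ ℂ : ℂ ≃L[ℝ] ℂ).symm : ℂ →L[ℝ] ℂ)‖₊⁻¹ := by
    right
    have h1 : ‖((ContinuousLinearEquiv.refl ℝ ℂ : ℂ ≃L[ℝ] ℂ).symm : ℂ →L[ℝ] ℂ)‖₊ = 1 := by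
      rw [← NNReal.coe_inj, coe_nnnorm]
      simp only [ContinuousLinearEquiv.refl_symm, ContinuousLinearEquiv.coe_refl]
      exact ContinuousLinearMap.norm_id
    rw [h1, inv_one]
    rw [← NNReal.coe_lt_coe]
    norm_num
  let A : ℂ ≃ₜ ℂ := happ.toHomeomorph _ hc
  have hA : ∀ z, A z = z + φ z := fun z => rfl
  refine ⟨A, hA, ?_⟩
  have hsm : ContDiff ℝ ∞ (fun z => z + φ z) := contDiff_id.add hφ
  refine A.contDiff_symm
    (f₀' := fun z => (fderiv ℝ (fun z => z + φ z) z).toContinuousLinearEquivOfDetNeZero (hdet z))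
    (fun z => ?_) hsm
  rw [ContinuousLinearMap.coe_toContinuousLinearEquivOfDetNeZero]
  exact (hsm.differentiable (by simp) z).hasFDerivAt

/-- master lemma -/
theorem master (F : ℂ → ℝ) (hF : ContDiff ℝ ∞ F) {r : ℝ}
    (hsupp : ∀ z, r ≤ ‖z‖ → fderiv ℝ F z = 0)
    (ha : ∀ z, ‖fderiv ℝ (fun y => fderiv ℝ F y 1) z‖ ≤ 1 / 2)
    (hb : ∀ z, ‖fderiv ℝ (fun y => fderiv ℝ F y I) z‖ ≤ 1 / 2) :
    ∃ h : ℂ ≃ₜ ℂ, (∀ z, Ar h z) ∧ (∀ z, Ar h.symm z) ∧ (∀ z, r ≤ ‖z‖ → h z = z) ∧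
      ∀ z, h (z + ((fderiv ℝ F z 1 : ℝ) : ℂ) * I) = z + ((fderiv ℝ F z I : ℝ) : ℂ) := by
  have hF' : ContDiff ℝ ∞ (fderiv ℝ F) := hF.fderiv_right (by simp)
  have hac : ContDiff ℝ ∞ (fun y => fderiv ℝ F y 1) := hF'.clm_apply contDiff_const
  have hbc : ContDiff ℝ ∞ (fun y => fderiv ℝ F y I) := hF'.clm_apply contDiff_const
  have hφa : ContDiff ℝ ∞ (fun z => ((fderiv ℝ F z 1 : ℝ) : ℂ) * I) :=
    (ofRealCLM.contDiff.comp hac).mul contDiff_const
  have hφb : ContDiff ℝ ∞ (fun z => ((fderiv ℝ F z I : ℝ) : ℂ)) :=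
    ofRealCLM.contDiff.comp hbc
  have hDa : ∀ z v, fderiv ℝ (fun z => ((fderiv ℝ F z 1 : ℝ) : ℂ) * I) z v
      = ((fderiv ℝ (fun y => fderiv ℝ F y 1) z v : ℝ) : ℂ) * I := by
    intro z v
    have h1 : HasFDerivAt (fun y => fderiv ℝ F y 1) (fderiv ℝ (fun y => fderiv ℝ F y 1) z) z :=
      (hac.differentiable (by simp) z).hasFDerivAt
    have h2 : HasFDerivAt (fun z => ((fderiv ℝ F z 1 : ℝ) : ℂ) * I)
        (I • ofRealCLM.comp (fderiv ℝ (fun y => fderiv ℝ F y 1) z)) z :=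
      (ofRealCLM.hasFDerivAt.comp z h1).mul_const I
    rw [h2.fderiv]
    simp [mul_comm]
  have hDb : ∀ z v, fderiv ℝ (fun z => ((fderiv ℝ F z I : ℝ) : ℂ)) z v
      = ((fderiv ℝ (fun y => fderiv ℝ F y I) z v : ℝ) : ℂ) := by
    intro z v
    have h1 : HasFDerivAt (fun y => fderiv ℝ F y I) (fderiv ℝ (fun y => fderiv ℝ F y I) z) z :=
      (hbc.differentiable (by simp) z).hasFDerivAt
    have h2 := (ofRealCLM.hasFDerivAt.comp z h1)
    rw [show (fun z => ((fderiv ℝ F z I : ℝ) : ℂ)) = ofRealCLM ∘ (fun y => fderiv ℝ F y I) from rfl,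
      h2.fderiv]
    simp
  -- symmetry
  have hsym : ∀ z, fderiv ℝ (fun y => fderiv ℝ F y 1) z I = fderiv ℝ (fun y => fderiv ℝ F y I) z 1 := by
    intro z
    have h1 : HasFDerivAt (fderiv ℝ F) (fderiv ℝ (fderiv ℝ F) z) z :=
      (hF'.differentiable (by simp) z).hasFDerivAt
    have h2 : ∀ v w : ℂ, fderiv ℝ (fun y => fderiv ℝ F y v) z w = fderiv ℝ (fderiv ℝ F) z w v := by
      intro v w
      have h3 := h1.clm_apply (hasFDerivAt_const v z)
      rw [h3.fderiv]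
      simp
    rw [h2, h2]
    have h4 : IsSymmSndFDerivAt ℝ F z :=
      (hF.contDiffAt).isSymmSndFDerivAt (by
        rw [minSmoothness_of_isRCLikeNormedField]
        exact (WithTop.coe_le_coe.2 le_top : ((2 : ℕ∞) : WithTop ℕ∞) ≤ ((⊤ : ℕ∞) : WithTop ℕ∞)))
    exact h4 I 1
  have hdA : ∀ z v, fderiv ℝ (fun z => z + ((fderiv ℝ F z 1 : ℝ) : ℂ) * I) z v
      = v + ((fderiv ℝ (fun y => fderiv ℝ F y 1) z v : ℝ) : ℂ) * I := by
    intro z v
    have h1 : HasFDerivAt (fun z => z + ((fderiv ℝ F z 1 : ℝ) : ℂ) * I)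
        (ContinuousLinearMap.id ℝ ℂ + fderiv ℝ (fun z => ((fderiv ℝ F z 1 : ℝ) : ℂ) * I) z) z :=
      (hasFDerivAt_id z).add (hφa.differentiable (by simp) z).hasFDerivAt
    rw [h1.fderiv, _root_.add_apply, hDa]
    simp
  have hdB : ∀ z v, fderiv ℝ (fun z => z + ((fderiv ℝ F z I : ℝ) : ℂ)) z v
      = v + ((fderiv ℝ (fun y => fderiv ℝ F y I) z v : ℝ) : ℂ) := by
    intro z v
    have h1 : HasFDerivAt (fun z => z + ((fderiv ℝ F z I : ℝ) : ℂ))
        (ContinuousLinearMap.id ℝ ℂ + fderiv ℝ (fun z => ((fderiv ℝ F z I : ℝ) : ℂ)) z) z :=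
      (hasFDerivAt_id z).add (hφb.differentiable (by simp) z).hasFDerivAt
    rw [h1.fderiv, _root_.add_apply, hDb]
    simp
  have hdetA : ∀ z, (fderiv ℝ (fun z => z + ((fderiv ℝ F z 1 : ℝ) : ℂ) * I) z).det
      = 1 + fderiv ℝ (fun y => fderiv ℝ F y 1) z I := by
    intro z
    rw [det_formula, hdA, hdA]
    simp
  have hdetB : ∀ z, (fderiv ℝ (fun z => z + ((fderiv ℝ F z I : ℝ) : ℂ)) z).det
      = 1 + fderiv ℝ (fun y => fderiv ℝ F y I) z 1 := by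
    intro z
    rw [det_formula, hdB, hdB]
    simp
  have hpos : ∀ z, 0 < 1 + fderiv ℝ (fun y => fderiv ℝ F y 1) z I := by
    intro z
    have h1 : ‖fderiv ℝ (fun y => fderiv ℝ F y 1) z I‖ ≤ 1 / 2 := by
      refine (ContinuousLinearMap.le_opNorm _ _).trans ?_
      rw [norm_I, mul_one]
      exact ha z
    rw [Real.norm_eq_abs, abs_le] at h1
    linarith [h1.1]
  obtain ⟨A, hA, hAs⟩ := exists_homeo (fun z => ((fderiv ℝ F z 1 : ℝ) : ℂ) * I) hφa (by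
      intro z
      refine ContinuousLinearMap.opNorm_le_bound _ (by norm_num) (fun v => ?_)
      rw [hDa, norm_mul, norm_I, mul_one, norm_real]
      exact (ContinuousLinearMap.le_opNorm _ _).trans
        (mul_le_mul_of_nonneg_right (ha z) (norm_nonneg _)))
    (fun z => by rw [hdetA]; exact (hpos z).ne')
  obtain ⟨B, hB, hBs⟩ := exists_homeo (fun z => ((fderiv ℝ F z I : ℝ) : ℂ)) hφb (by
      intro z
      refine ContinuousLinearMap.opNorm_le_bound _ (by norm_num) (fun v => ?_)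
      rw [hDb, norm_real]
      exact (ContinuousLinearMap.le_opNorm _ _).trans
        (mul_le_mul_of_nonneg_right (hb z) (norm_nonneg _)))
    (fun z => by rw [hdetB, ← hsym]; exact (hpos z).ne')
  have hAc : ContDiff ℝ ∞ A := by
    have : (A : ℂ → ℂ) = fun z => z + ((fderiv ℝ F z 1 : ℝ) : ℂ) * I := funext hA
    rw [this]
    exact contDiff_id.add hφa
  have hBc : ContDiff ℝ ∞ B := by
    have : (B : ℂ → ℂ) = fun z => z + ((fderiv ℝ F z I : ℝ) : ℂ) := funext hB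
    rw [this]
    exact contDiff_id.add hφb
  let h : ℂ ≃ₜ ℂ := A.symm.trans B
  have hval : ∀ z, h z = B (A.symm z) := fun z => rfl
  have hhc : ContDiff ℝ ∞ h := hBc.comp hAs
  have hhA : ∀ z, h (A z) = B z := by
    intro z
    rw [hval, A.symm_apply_apply]
  have hdet1 : ∀ z, (fderiv ℝ h z).det = 1 := by
    intro z
    obtain ⟨w, rfl⟩ := A.surjective z
    have h1 : fderiv ℝ (h ∘ A) w = (fderiv ℝ h (A w)).comp (fderiv ℝ A w) :=
      fderiv_comp w (hhc.differentiable (by simp) _) (hAc.differentiable (by simp) _)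
    have h2 : (h ∘ A : ℂ → ℂ) = B := funext hhA
    rw [h2] at h1
    have h3 := congrArg ContinuousLinearMap.det h1
    rw [det_mul'] at h3
    have hAf : (A : ℂ → ℂ) = fun z => z + ((fderiv ℝ F z 1 : ℝ) : ℂ) * I := funext hA
    have hBf : (B : ℂ → ℂ) = fun z => z + ((fderiv ℝ F z I : ℝ) : ℂ) := funext hB
    have h4 : (fderiv ℝ A w).det = 1 + fderiv ℝ (fun y => fderiv ℝ F y 1) w I := by
      rw [hAf, hdetA]
    have h5 : (fderiv ℝ B w).det = 1 + fderiv ℝ (fun y => fderiv ℝ F y 1) w I := by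
      rw [hBf, hdetB, hsym]
    rw [h4, h5] at h3
    have h6 := (hpos w).ne'
    field_simp at h3
    linarith
  have hAr : ∀ z, Ar h z := fun z => Eventually.of_forall fun y => ⟨hhc.contDiffAt, hdet1 y⟩
  refine ⟨h, hAr, ?_, ?_, ?_⟩
  · intro z
    have h1 := ar_symm h.toOpenPartialHomeomorph (z := h.symm z) (by simp) (by simpa using hAr _)
    simpa using h1
  · intro z hz
    have h1 : A z = z := by rw [hA, hsupp z hz]; simp
    have h2 : B z = z := by rw [hB, hsupp z hz]; simp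
    have h3 := hhA z
    rw [h1, h2] at h3
    exact h3
  · intro z
    rw [← hA, ← hB]
    exact hhA z

/-- compactly supported area preserving homeomorphisms -/
def Good (r : ℝ) (h : ℂ ≃ₜ ℂ) : Prop :=
  (∀ z, Ar h z) ∧ (∀ z, Ar h.symm z) ∧ (∀ z, r ≤ ‖z‖ → h z = z)

theorem Good.trans {r : ℝ} {h₁ h₂ : ℂ ≃ₜ ℂ} (H₁ : Good r h₁) (H₂ : Good r h₂) :
    Good r (h₁.trans h₂) := by
  refine ⟨fun z => ?_, fun z => ?_, fun z hz => ?_⟩
  · exact (H₂.1 (h₁ z)).comp (H₁.1 z)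
  · exact (H₁.2.1 (h₂.symm z)).comp (H₂.2.1 z)
  · rw [Homeomorph.trans_apply, H₁.2.2 z hz, H₂.2.2 z hz]

theorem Good.mono {r R : ℝ} {h : ℂ ≃ₜ ℂ} (H : Good r h) (hrR : r ≤ R) : Good R h :=
  ⟨H.1, H.2.1, fun z hz => H.2.2 z (hrR.trans hz)⟩

theorem good_refl (r : ℝ) : Good r (Homeomorph.refl ℂ) :=
  ⟨fun z => ar_id z, fun z => ar_id z, fun _ _ => rfl⟩

/-- a second derivative of a compactly supported smooth function is bounded -/
theorem exists_bound (G : ℂ → ℝ) (hG : ContDiff ℝ ∞ G) (hc : HasCompactSupport G) (v : ℂ) :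
    ∃ K : ℝ, 0 ≤ K ∧ ∀ z, ‖fderiv ℝ (fun y => fderiv ℝ G y v) z‖ ≤ K := by
  have h1 : ContDiff ℝ ∞ (fun y => fderiv ℝ G y v) :=
    (hG.fderiv_right (by simp)).clm_apply contDiff_const
  have h2 : ContDiff ℝ ∞ (fderiv ℝ (fun y => fderiv ℝ G y v)) := h1.fderiv_right (by simp)
  have h3 : HasCompactSupport (fun y => fderiv ℝ G y v) := hc.fderiv_apply ℝ v
  have h4 : HasCompactSupport (fderiv ℝ (fun y => fderiv ℝ G y v)) := h3.fderiv ℝ
  obtain ⟨K, hK⟩ := h2.continuous.bounded_above_of_compact_support h4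
  exact ⟨K, (norm_nonneg _).trans (hK 0), hK⟩

/-- two-parameter families of generating functions -/
theorem family (Q₁ Q₂ : ℂ → ℝ) (hQ₁ : ContDiff ℝ ∞ Q₁) (hQ₂ : ContDiff ℝ ∞ Q₂) {r : ℝ}
    (hr : 0 < r) : ∃ δ > 0, ∀ s t : ℝ, |s| ≤ δ → |t| ≤ δ → ∃ h : ℂ ≃ₜ ℂ, Good r h ∧
      ∀ z, ‖z‖ < r / 4 → h (z + ((s * fderiv ℝ Q₁ z 1 + t * fderiv ℝ Q₂ z 1 : ℝ) : ℂ) * I)
        = z + ((s * fderiv ℝ Q₁ z I + t * fderiv ℝ Q₂ z I : ℝ) : ℂ) := by
  let β : ContDiffBump (0 : ℂ) := ⟨r / 4, r / 2, by positivity, by linarith⟩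
  have hβ : ContDiff ℝ ∞ β := β.contDiff
  have hβc : HasCompactSupport β := β.hasCompactSupport
  set G₁ : ℂ → ℝ := fun z => β z * Q₁ z with hG₁
  set G₂ : ℂ → ℝ := fun z => β z * Q₂ z with hG₂
  have c₁ : ContDiff ℝ ∞ G₁ := hβ.mul hQ₁
  have c₂ : ContDiff ℝ ∞ G₂ := hβ.mul hQ₂
  have s₁ : HasCompactSupport G₁ := hβc.mul_right
  have s₂ : HasCompactSupport G₂ := hβc.mul_right
  have hz1 : ∀ (Q : ℂ → ℝ) (z : ℂ), ‖z‖ < r / 4 → (fun z => β z * Q z) =ᶠ[𝓝 z] Q := by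
    intro Q z hz
    have : ball (0 : ℂ) (r / 4) ∈ 𝓝 z := isOpen_ball.mem_nhds (by simpa using hz)
    filter_upwards [this] with y hy
    have h1 : β y = 1 := β.one_of_mem_closedBall (ball_subset_closedBall hy)
    rw [h1, one_mul]
  have hz0 : ∀ (Q : ℂ → ℝ) (z : ℂ), r ≤ ‖z‖ → (fun z => β z * Q z) =ᶠ[𝓝 z] fun _ => 0 := by
    intro Q z hz
    have : (closedBall (0 : ℂ) (r / 2))ᶜ ∈ 𝓝 z := by
      refine isClosed_closedBall.isOpen_compl.mem_nhds ?_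
      simp only [Set.mem_compl_iff, mem_closedBall, dist_zero_right]
      linarith
    filter_upwards [this] with y hy
    have h1 : β y = 0 := by
      apply β.zero_of_le_dist
      simp only [Set.mem_compl_iff, mem_closedBall, not_le] at hy
      exact hy.le
    rw [h1, zero_mul]
  obtain ⟨K₁, hK₁, b₁⟩ := exists_bound G₁ c₁ s₁ 1
  obtain ⟨K₂, hK₂, b₂⟩ := exists_bound G₂ c₂ s₂ 1
  obtain ⟨K₃, hK₃, b₃⟩ := exists_bound G₁ c₁ s₁ I
  obtain ⟨K₄, hK₄, b₄⟩ := exists_bound G₂ c₂ s₂ I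
  set K := K₁ + K₂ + K₃ + K₄ + 1 with hK
  have hKpos : 0 < K := by positivity
  refine ⟨1 / (4 * K), by positivity, fun s t hs ht => ?_⟩
  have cF : ContDiff ℝ ∞ (fun z => s * G₁ z + t * G₂ z) :=
    (contDiff_const.mul c₁).add (contDiff_const.mul c₂)
  have hFd : ∀ z, fderiv ℝ (fun z => s * G₁ z + t * G₂ z) z
      = s • fderiv ℝ G₁ z + t • fderiv ℝ G₂ z := by
    intro z
    have h1 := ((c₁.differentiable (by simp) z).hasFDerivAt.const_mul s).add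
      ((c₂.differentiable (by simp) z).hasFDerivAt.const_mul t)
    exact h1.fderiv
  have hFv : ∀ v : ℂ, (fun y => fderiv ℝ (fun z => s * G₁ z + t * G₂ z) y v)
      = fun y => s * fderiv ℝ G₁ y v + t * fderiv ℝ G₂ y v := by
    intro v
    ext y
    rw [hFd]
    simp
  have hFvd : ∀ v z : ℂ, fderiv ℝ (fun y => fderiv ℝ (fun z => s * G₁ z + t * G₂ z) y v) z
      = s • fderiv ℝ (fun y => fderiv ℝ G₁ y v) z + t • fderiv ℝ (fun y => fderiv ℝ G₂ y v) z := by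
    intro v z
    rw [hFv]
    have e₁ : ContDiff ℝ ∞ (fun y => fderiv ℝ G₁ y v) :=
      (c₁.fderiv_right (by simp)).clm_apply contDiff_const
    have e₂ : ContDiff ℝ ∞ (fun y => fderiv ℝ G₂ y v) :=
      (c₂.fderiv_right (by simp)).clm_apply contDiff_const
    have h1 := ((e₁.differentiable (by simp) z).hasFDerivAt.const_mul s).add
      ((e₂.differentiable (by simp) z).hasFDerivAt.const_mul t)
    exact h1.fderiv
  have hbd : ∀ (a b A B : ℝ) (L M : ℂ →L[ℝ] ℝ), |a| ≤ 1 / (4 * K) → |b| ≤ 1 / (4 * K) →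
      ‖L‖ ≤ A → ‖M‖ ≤ B → A ≤ K → B ≤ K → ‖a • L + b • M‖ ≤ 1 / 2 := by
    intro a b A B L M ha hb hL hM hA hB
    refine (norm_add_le _ _).trans ?_
    rw [norm_smul, norm_smul, Real.norm_eq_abs, Real.norm_eq_abs]
    have h1 : |a| * ‖L‖ ≤ 1 / (4 * K) * K :=
      mul_le_mul ha (hL.trans hA) (norm_nonneg _) (by positivity)
    have h2 : |b| * ‖M‖ ≤ 1 / (4 * K) * K :=
      mul_le_mul hb (hM.trans hB) (norm_nonneg _) (by positivity)
    have h3 : 1 / (4 * K) * K = 1 / 4 := by field_simp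
    linarith
  obtain ⟨h, hh1, hh2, hh3, hh4⟩ := master (fun z => s * G₁ z + t * G₂ z) cF (r := r)
    (by
      intro z hz
      rw [hFd, (hz0 Q₁ z hz).fderiv_eq, (hz0 Q₂ z hz).fderiv_eq]
      simp)
    (fun z => by
      rw [hFvd]
      exact hbd _ _ K₁ K₂ _ _ hs ht (b₁ z) (b₂ z) (by rw [hK]; linarith) (by rw [hK]; linarith))
    (fun z => by
      rw [hFvd]
      exact hbd _ _ K₃ K₄ _ _ hs ht (b₃ z) (b₄ z) (by rw [hK]; linarith) (by rw [hK]; linarith))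
  refine ⟨h, ⟨hh1, hh2, hh3⟩, fun z hz => ?_⟩
  have h1 := hh4 z
  rw [hFd, (hz1 Q₁ z hz).fderiv_eq, (hz1 Q₂ z hz).fderiv_eq] at h1
  simpa using h1

end Gen

open Gen in
theorem local_trans {r : ℝ} (hr : 0 < r) :
    ∃ δ > 0, ∀ a : ℂ, ‖a‖ < δ → ∃ h : ℂ ≃ₜ ℂ, (∀ z, Ar h z) ∧ (∀ z, Ar h.symm z) ∧
      (∀ z, r ≤ ‖z‖ → h z = z) ∧ (∀ᶠ z in 𝓝 0, h z = z + a) := by
  obtain ⟨δ, hδ, hfam⟩ := family (fun z => z.im) (fun z => z.re)
    (imCLM.contDiff) (reCLM.contDiff) hr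
  refine ⟨min δ (r / 8), lt_min hδ (by positivity), fun a ha => ?_⟩
  have h1 : |a.re| ≤ δ := (abs_re_le_norm a).trans (ha.le.trans (min_le_left _ _))
  have h2 : |a.im| ≤ δ := (abs_im_le_norm a).trans (ha.le.trans (min_le_left _ _))
  have h3 : |a.im| < r / 8 := lt_of_le_of_lt (abs_im_le_norm a) (ha.trans_le (min_le_right _ _))
  obtain ⟨h, hh, hval⟩ := hfam a.re (-a.im) h1 (by rwa [abs_neg])
  refine ⟨h, hh.1, hh.2.1, hh.2.2, ?_⟩
  have hball : ball (0 : ℂ) (r / 8) ∈ 𝓝 (0 : ℂ) := ball_mem_nhds _ (by positivity)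
  filter_upwards [hball] with z hz
  rw [mem_ball, dist_zero_right] at hz
  have h4 : ‖z + (a.im : ℂ) * I‖ < r / 4 := by
    refine (norm_add_le _ _).trans_lt ?_
    rw [norm_mul, norm_I, mul_one, norm_real, Real.norm_eq_abs]
    linarith
  have h5 := hval _ h4
  have e1 : ∀ w v : ℂ, fderiv ℝ (fun z : ℂ => z.im) w v = v.im := by
    intro w v
    have : (fun z : ℂ => z.im) = imCLM := rfl
    rw [this, ContinuousLinearMap.fderiv]
    rfl
  have e2 : ∀ w v : ℂ, fderiv ℝ (fun z : ℂ => z.re) w v = v.re := by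
    intro w v
    have : (fun z : ℂ => z.re) = reCLM := rfl
    rw [this, ContinuousLinearMap.fderiv]
    rfl
  rw [e1, e1, e2, e2] at h5
  simp only [one_im, I_im, one_re, I_re, mul_zero, mul_one, zero_add, add_zero] at h5
  have e3 : z + (a.im : ℂ) * I + ((-a.im : ℝ) : ℂ) * I = z := by
    push_cast
    ring
  rw [e3] at h5
  rw [h5, add_assoc, add_comm ((a.im : ℂ) * I), re_add_im]

namespace Gen

/-- germs at `0` realised by compactly supported maps -/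
def Rz (r : ℝ) (L : ℂ → ℂ) : Prop := ∃ h : ℂ ≃ₜ ℂ, Good r h ∧ ∀ᶠ z in 𝓝 (0 : ℂ), h z = L z

theorem Rz.comp {r : ℝ} {L M : ℂ → ℂ} (hL : Rz r L) (hM : Rz r M) (hMc : ContinuousAt M 0)
    (hM0 : M 0 = 0) : Rz r (fun z => L (M z)) := by
  obtain ⟨h, hh, hhL⟩ := hL
  obtain ⟨g, hg, hgM⟩ := hM
  refine ⟨g.trans h, hg.trans hh, ?_⟩
  have h1 : Tendsto M (𝓝 0) (𝓝 0) := by
    have := hMc.tendsto
    rwa [hM0] at this
  filter_upwards [hgM, h1.eventually hhL] with z hz1 hz2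
  rw [Homeomorph.trans_apply, hz1, hz2]

theorem Rz.congr {r : ℝ} {L M : ℂ → ℂ} (hL : Rz r L) (h : ∀ᶠ z in 𝓝 (0 : ℂ), L z = M z) :
    Rz r M := by
  obtain ⟨g, hg, hgM⟩ := hL
  refine ⟨g, hg, ?_⟩
  filter_upwards [hgM, h] with z h1 h2
  rw [h1, h2]

/-- horizontal shear -/
def sX (s : ℝ) (z : ℂ) : ℂ := z + ((s * z.im : ℝ) : ℂ)

/-- vertical shear -/
def sY (s : ℝ) (z : ℂ) : ℂ := z + ((s * z.re : ℝ) : ℂ) * I

theorem sX_cont (s : ℝ) : Continuous (sX s) := by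
  unfold sX
  exact continuous_id.add (continuous_ofReal.comp (continuous_const.mul continuous_im))

theorem sY_cont (s : ℝ) : Continuous (sY s) := by
  unfold sY
  exact continuous_id.add ((continuous_ofReal.comp (continuous_const.mul continuous_re)).mul
    continuous_const)

theorem sX_zero (s : ℝ) : sX s 0 = 0 := by simp [sX]

theorem sY_zero (s : ℝ) : sY s 0 = 0 := by simp [sY]

theorem sX_add (s t : ℝ) (z : ℂ) : sX (s + t) z = sX s (sX t z) := by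
  apply Complex.ext <;> simp [sX] <;> ring

theorem sY_add (s t : ℝ) (z : ℂ) : sY (s + t) z = sY s (sY t z) := by
  apply Complex.ext <;> simp [sY] <;> ring

theorem fderiv_sq_im (z v : ℂ) : fderiv ℝ (fun z : ℂ => z.im ^ 2 / 2) z v = z.im * v.im := by
  have h1 : HasFDerivAt (fun z : ℂ => z.im) imCLM z := imCLM.hasFDerivAt
  have h3 : HasFDerivAt (fun y : ℂ => y.im * y.im) (z.im • imCLM + z.im • imCLM) z := h1.mul h1
  have h4 := h3.mul_const (1 / 2 : ℝ)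
  have e1 : (fun z : ℂ => z.im ^ 2 / 2) = fun y : ℂ => y.im * y.im * (1 / 2) := by
    ext y
    ring
  rw [e1, h4.fderiv]
  simp
  ring

theorem fderiv_sq_re (z v : ℂ) : fderiv ℝ (fun z : ℂ => z.re ^ 2 / 2) z v = z.re * v.re := by
  have h1 : HasFDerivAt (fun z : ℂ => z.re) reCLM z := reCLM.hasFDerivAt
  have h3 : HasFDerivAt (fun y : ℂ => y.re * y.re) (z.re • reCLM + z.re • reCLM) z := h1.mul h1
  have h4 := h3.mul_const (1 / 2 : ℝ)
  have e1 : (fun z : ℂ => z.re ^ 2 / 2) = fun y : ℂ => y.re * y.re * (1 / 2) := by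
    ext y
    ring
  rw [e1, h4.fderiv]
  simp
  ring

theorem shear_small {r : ℝ} (hr : 0 < r) :
    ∃ δ > 0, ∀ s : ℝ, |s| ≤ δ → Rz r (sX s) ∧ Rz r (sY s) := by
  obtain ⟨δ, hδ, hfam⟩ := family (fun z => z.im ^ 2 / 2) (fun z => z.re ^ 2 / 2)
    ((imCLM.contDiff.pow 2).div_const 2) ((reCLM.contDiff.pow 2).div_const 2) hr
  refine ⟨δ, hδ, fun s hs => ⟨?_, ?_⟩⟩
  · obtain ⟨h, hh, hval⟩ := hfam s 0 hs (by simpa using hδ.le)
    refine ⟨h, hh, ?_⟩
    have hball : ball (0 : ℂ) (r / 4) ∈ 𝓝 (0 : ℂ) := ball_mem_nhds _ (by positivity)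
    filter_upwards [hball] with z hz
    rw [mem_ball, dist_zero_right] at hz
    have h5 := hval z hz
    rw [fderiv_sq_im, fderiv_sq_im, fderiv_sq_re, fderiv_sq_re] at h5
    simpa [sX] using h5
  · obtain ⟨h, hh, hval⟩ := hfam 0 (-s) (by simpa using hδ.le) (by rwa [abs_neg])
    refine ⟨h, hh, ?_⟩
    have hball : ball (0 : ℂ) (r / 4) ∈ 𝓝 (0 : ℂ) := ball_mem_nhds _ (by positivity)
    have h1 : Tendsto (sY s) (𝓝 0) (𝓝 0) := by
      have := (sY_cont s).tendsto 0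
      rwa [sY_zero] at this
    filter_upwards [h1.eventually hball] with z hz
    rw [dist_zero_right] at hz
    have h5 := hval _ hz
    rw [fderiv_sq_im, fderiv_sq_im, fderiv_sq_re, fderiv_sq_re] at h5
    have e1 : sY s z + ((0 * ((sY s z).im * (1 : ℂ).im) + -s * ((sY s z).re * (1 : ℂ).re) : ℝ) : ℂ) * I
        = z := by
      apply Complex.ext <;> simp [sY]
    rw [e1] at h5
    rw [h5]
    simp

theorem shear_all {r : ℝ} (hr : 0 < r) (s : ℝ) : Rz r (sX s) ∧ Rz r (sY s) := by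
  obtain ⟨δ, hδ, hsm⟩ := shear_small hr
  have key : ∀ t : ℝ, |t| ≤ δ → ∀ n : ℕ, Rz r (sX (n * t)) ∧ Rz r (sY (n * t)) := by
    intro t ht n
    induction n with
    | zero =>
      have h1 := hsm 0 (by simpa using hδ.le)
      simpa using h1
    | succ n ih =>
      have h1 := hsm t ht
      constructor
      · have h2 := h1.1.comp ih.1 (sX_cont _).continuousAt (sX_zero _)
        refine h2.congr (Eventually.of_forall fun z => ?_)
        rw [← sX_add]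
        congr 1
        push_cast
        ring
      · have h2 := h1.2.comp ih.2 (sY_cont _).continuousAt (sY_zero _)
        refine h2.congr (Eventually.of_forall fun z => ?_)
        rw [← sY_add]
        congr 1
        push_cast
        ring
  obtain ⟨n, hn⟩ := exists_nat_gt (|s| / δ)
  have hn0 : 0 < (n : ℝ) := lt_of_le_of_lt (by positivity) hn
  have h1 := key (s / n) (by
    rw [abs_div, abs_of_pos hn0, div_le_iff₀ hn0]
    rw [div_lt_iff₀ hδ] at hn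
    linarith) n
  have h2 : (n : ℝ) * (s / n) = s := by field_simp
  rwa [h2] at h1

/-- a real linear map in coordinates -/
def lin (a b c d : ℝ) (z : ℂ) : ℂ :=
  ((a * z.re + b * z.im : ℝ) : ℂ) + ((c * z.re + d * z.im : ℝ) : ℂ) * I

theorem lin_cont (a b c d : ℝ) : Continuous (lin a b c d) := by
  unfold lin
  exact (continuous_ofReal.comp ((continuous_const.mul continuous_re).add
    (continuous_const.mul continuous_im))).add ((continuous_ofReal.comp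
      ((continuous_const.mul continuous_re).add
        (continuous_const.mul continuous_im))).mul continuous_const)

theorem lin_zero (a b c d : ℝ) : lin a b c d 0 = 0 := by simp [lin]

theorem lin_rz_aux {r : ℝ} (hr : 0 < r) {a b c d : ℝ} (hdet : a * d - b * c = 1) (hc : c ≠ 0) :
    Rz r (lin a b c d) := by
  have h1 := (shear_all hr ((a - 1) / c)).1
  have h2 := (shear_all hr c).2
  have h3 := (shear_all hr ((d - 1) / c)).1
  have h4 := h2.comp h3 (sX_cont _).continuousAt (sX_zero _)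
  have h5 := h1.comp h4 ((sY_cont _).comp (sX_cont _)).continuousAt
    (by rw [sX_zero, sY_zero])
  refine h5.congr (Eventually.of_forall fun z => ?_)
  have hb : b = (a * d - 1) / c := by
    field_simp
    linarith
  subst hb
  apply Complex.ext
  · simp [sX, sY, lin]
    field_simp
    ring
  · simp [sX, sY, lin]
    field_simp
    ring

theorem lin_rz {r : ℝ} (hr : 0 < r) {a b c d : ℝ} (hdet : a * d - b * c = 1) :
    Rz r (lin a b c d) := by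
  by_cases hc : c = 0
  · subst hc
    have ha : a ≠ 0 := by
      rintro rfl
      simp at hdet
    have h1 : Rz r (lin a b a (b + d)) := lin_rz_aux hr (by linarith) ha
    have h2 := (shear_all hr (-1)).2
    have h3 := h2.comp h1 (lin_cont _ _ _ _).continuousAt (lin_zero _ _ _ _)
    refine h3.congr (Eventually.of_forall fun z => ?_)
    apply Complex.ext
    · simp [sY, lin]
    · simp [sY, lin]
      ring
  · exact lin_rz_aux hr hdet hc

theorem exists_beta : ∃ β : ℂ → ℝ, ContDiff ℝ ∞ β ∧ HasCompactSupport β ∧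
    (∀ z, ‖z‖ ≤ 1 → β z = 1) ∧ (∀ z, 2 ≤ ‖z‖ → β z = 0) ∧ ∀ z, ‖β z‖ ≤ 1 := by
  let β : ContDiffBump (0 : ℂ) := ⟨1, 2, one_pos, one_lt_two⟩
  refine ⟨β, β.contDiff, β.hasCompactSupport, ?_, ?_, ?_⟩
  · intro z hz
    exact β.one_of_mem_closedBall (by simpa using hz)
  · intro z hz
    exact β.zero_of_le_dist (by simpa using hz)
  · intro z
    rw [Real.norm_eq_abs, abs_of_nonneg β.nonneg]
    exact β.le_one

theorem norm_apply_comp {v : ℂ} (hv : ‖v‖ ≤ 1) (L : ℂ →L[ℝ] (ℂ →L[ℝ] ℝ)) :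
    ‖(ContinuousLinearMap.apply ℝ ℝ v).comp L‖ ≤ ‖L‖ := by
  refine ContinuousLinearMap.opNorm_le_bound _ (ContinuousLinearMap.opNorm_nonneg L) (fun w => ?_)
  simp only [ContinuousLinearMap.comp_apply, ContinuousLinearMap.apply_apply]
  calc ‖L w v‖ ≤ ‖L w‖ * ‖v‖ := ContinuousLinearMap.le_opNorm _ _
    _ ≤ ‖L w‖ * 1 := mul_le_mul_of_nonneg_left hv (norm_nonneg _)
    _ = ‖L w‖ := mul_one _
    _ ≤ ‖L‖ * ‖w‖ := ContinuousLinearMap.le_opNorm _ _

theorem second_bound {β P : ℂ → ℝ} (hβ : ContDiff ℝ ∞ β) {C₁ C₂ M : ℝ} (hM : 0 ≤ M)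
    (hC₁0 : 0 ≤ C₁) {z v : ℂ} (hv : ‖v‖ ≤ 1)
    (hβ1 : ‖β z‖ ≤ 1) (hC₁ : ‖fderiv ℝ β z‖ ≤ C₁) (hC₂ : ‖fderiv ℝ (fderiv ℝ β) z‖ ≤ C₂)
    {η : ℂ → (ℂ →L[ℝ] ℝ)} {η' : ℂ →L[ℝ] (ℂ →L[ℝ] ℝ)}
    (hP : ∀ᶠ y in 𝓝 z, HasFDerivAt P (η y) y) (hη : HasFDerivAt η η' z)
    (b1 : ‖P z‖ ≤ M) (b2 : ‖η z‖ ≤ M) (b3 : ‖η'‖ ≤ M) :
    ‖fderiv ℝ (fun y => fderiv ℝ (fun z => β z * P z) y v) z‖ ≤ (1 + 2 * C₁ + C₂) * M := by
  have hβd : ContDiff ℝ ∞ (fderiv ℝ β) := hβ.fderiv_right (by simp)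
  have h1 : (fun y => fderiv ℝ (fun z => β z * P z) y v) =ᶠ[𝓝 z]
      fun y => β y * η y v + P y * fderiv ℝ β y v := by
    filter_upwards [hP] with y hy
    have h0 := ((hβ.differentiable (by simp) y).hasFDerivAt.mul hy).fderiv
    have h0' : fderiv ℝ (fun z => β z * P z) y = β y • η y + P y • fderiv ℝ β y := h0
    rw [h0']
    simp
  have h2 : HasFDerivAt (fun y => η y v) ((ContinuousLinearMap.apply ℝ ℝ v).comp η') z :=
    (ContinuousLinearMap.apply ℝ ℝ v).hasFDerivAt.comp z hη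
  have h3 : HasFDerivAt (fun y => fderiv ℝ β y v)
      ((ContinuousLinearMap.apply ℝ ℝ v).comp (fderiv ℝ (fderiv ℝ β) z)) z :=
    (ContinuousLinearMap.apply ℝ ℝ v).hasFDerivAt.comp z
      (hβd.differentiable (by simp) z).hasFDerivAt
  have h4a : HasFDerivAt (fun y => β y * η y v)
      (β z • (ContinuousLinearMap.apply ℝ ℝ v).comp η' + η z v • fderiv ℝ β z) z :=
    (hβ.differentiable (by simp) z).hasFDerivAt.mul h2
  have h4b : HasFDerivAt (fun y => P y * fderiv ℝ β y v)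
      (P z • (ContinuousLinearMap.apply ℝ ℝ v).comp (fderiv ℝ (fderiv ℝ β) z)
        + fderiv ℝ β z v • η z) z :=
    hP.self_of_nhds.mul h3
  have h4 : HasFDerivAt (fun y => β y * η y v + P y * fderiv ℝ β y v)
      ((β z • (ContinuousLinearMap.apply ℝ ℝ v).comp η' + η z v • fderiv ℝ β z)
        + (P z • (ContinuousLinearMap.apply ℝ ℝ v).comp (fderiv ℝ (fderiv ℝ β) z)
        + fderiv ℝ β z v • η z)) z := h4a.add h4b
  rw [h1.fderiv_eq, h4.fderiv]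
  have hηv : ‖η z v‖ ≤ M := by
    calc ‖η z v‖ ≤ ‖η z‖ * ‖v‖ := ContinuousLinearMap.le_opNorm _ _
      _ ≤ M * 1 := mul_le_mul b2 hv (norm_nonneg _) hM
      _ = M := mul_one _
  have hβv : ‖fderiv ℝ β z v‖ ≤ C₁ := by
    calc ‖fderiv ℝ β z v‖ ≤ ‖fderiv ℝ β z‖ * ‖v‖ := ContinuousLinearMap.le_opNorm _ _
      _ ≤ C₁ * 1 := mul_le_mul hC₁ hv (norm_nonneg _) hC₁0
      _ = C₁ := mul_one _
  have t1 : ‖β z • (ContinuousLinearMap.apply ℝ ℝ v).comp η'‖ ≤ M := by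
    rw [norm_smul]
    calc ‖β z‖ * ‖(ContinuousLinearMap.apply ℝ ℝ v).comp η'‖ ≤ 1 * M :=
          mul_le_mul hβ1 ((norm_apply_comp hv _).trans b3) (norm_nonneg _) zero_le_one
      _ = M := one_mul _
  have t2 : ‖η z v • fderiv ℝ β z‖ ≤ M * C₁ := by
    rw [norm_smul]
    exact mul_le_mul hηv hC₁ (norm_nonneg _) hM
  have t3 : ‖P z • (ContinuousLinearMap.apply ℝ ℝ v).comp (fderiv ℝ (fderiv ℝ β) z)‖
      ≤ M * C₂ := by
    rw [norm_smul]
    exact mul_le_mul b1 ((norm_apply_comp hv _).trans hC₂) (norm_nonneg _) hM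
  have t4 : ‖fderiv ℝ β z v • η z‖ ≤ C₁ * M := by
    rw [norm_smul]
    exact mul_le_mul hβv b2 (norm_nonneg _) hC₁0
  have t5 := norm_add_le (β z • (ContinuousLinearMap.apply ℝ ℝ v).comp η')
    (η z v • fderiv ℝ β z)
  have t6 := norm_add_le (P z • (ContinuousLinearMap.apply ℝ ℝ v).comp
    (fderiv ℝ (fderiv ℝ β) z)) (fderiv ℝ β z v • η z)
  have t7 := norm_add_le (β z • (ContinuousLinearMap.apply ℝ ℝ v).comp η' + η z v • fderiv ℝ β z)
    (P z • (ContinuousLinearMap.apply ℝ ℝ v).comp (fderiv ℝ (fderiv ℝ β) z)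
        + fderiv ℝ β z v • η z)
  calc _ ≤ _ := t7
    _ ≤ (M + M * C₁) + (M * C₂ + C₁ * M) :=
      add_le_add (t5.trans (add_le_add t1 t2)) (t6.trans (add_le_add t3 t4))
    _ = (1 + 2 * C₁ + C₂) * M := by ring

theorem exists_bound_two (β : ℂ → ℝ) (hβ2 : Continuous (fderiv ℝ (fderiv ℝ β)))
    (hz : ∀ z : ℂ, 2 < ‖z‖ → β =ᶠ[𝓝 z] fun _ => 0) :
    ∃ C₁ : ℝ, 0 ≤ C₁ ∧ ∀ z, ‖fderiv ℝ (fderiv ℝ β) z‖ ≤ C₁ := by
  have h1 : Continuous (fun z => ‖fderiv ℝ (fderiv ℝ β) z‖) :=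
    (continuous_norm (E := ℂ →L[ℝ] ℂ →L[ℝ] ℝ)).comp hβ2
  obtain ⟨C, hC⟩ := (isCompact_closedBall (0:ℂ) 2).exists_bound_of_continuousOn h1.continuousOn
  refine ⟨max C 0, le_max_right _ _, fun z => ?_⟩
  by_cases h : ‖z‖ ≤ 2
  · have h2 := hC z (by simpa using h)
    rw [Real.norm_eq_abs, abs_of_nonneg (norm_nonneg (fderiv ℝ (fderiv ℝ β) z))] at h2
    exact h2.trans (le_max_left _ _)
  · push Not at h
    have h3 : fderiv ℝ β =ᶠ[𝓝 z] fun _ => 0 := by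
      filter_upwards [(hz z h).eventuallyEq_nhds] with y hy
      rw [hy.fderiv_eq]
      simp
    rw [h3.fderiv_eq, fderiv_fun_const]
    exact le_max_of_le_right (le_of_eq (norm_zero (E := ℂ →L[ℝ] ℂ →L[ℝ] ℝ)))

theorem exists_beta' : ∃ (β : ℂ → ℝ) (C₁ C₂ : ℝ), 0 ≤ C₁ ∧ 0 ≤ C₂ ∧ ContDiff ℝ ∞ β ∧
    (∀ z, ‖z‖ ≤ 1 → β z = 1) ∧ (∀ z, 2 ≤ ‖z‖ → β z = 0) ∧ (∀ z, ‖β z‖ ≤ 1) ∧
    (∀ z, ‖fderiv ℝ β z‖ ≤ C₁) ∧ (∀ z, ‖fderiv ℝ (fderiv ℝ β) z‖ ≤ C₂) := by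
  obtain ⟨β, hβ, hβc, hβone, hβzero, hβle⟩ := exists_beta
  have hβ1 : ContDiff ℝ ∞ (fderiv ℝ β) := hβ.fderiv_right (by simp)
  have hβ2 : ContDiff ℝ ∞ (fderiv ℝ (fderiv ℝ β)) := hβ1.fderiv_right (by simp)
  have hs1 : HasCompactSupport (fderiv ℝ β) := hβc.fderiv ℝ
  obtain ⟨C₁, hC₁⟩ := hβ1.continuous.bounded_above_of_compact_support hs1
  have hz0 : ∀ z : ℂ, 2 < ‖z‖ → β =ᶠ[𝓝 z] fun _ => 0 := by
    intro z hz
    have : (closedBall (0 : ℂ) 2)ᶜ ∈ 𝓝 z := by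
      refine isClosed_closedBall.isOpen_compl.mem_nhds ?_
      simp only [Set.mem_compl_iff, mem_closedBall, dist_zero_right]
      linarith
    filter_upwards [this] with y hy
    simp only [Set.mem_compl_iff, mem_closedBall, dist_zero_right, not_le] at hy
    rw [hβzero y hy.le]
  obtain ⟨C₂, hC₂0, hC₂⟩ := exists_bound_two β hβ2.continuous hz0
  exact ⟨β, C₁, C₂, (norm_nonneg (fderiv ℝ β 0)).trans (hC₁ 0), hC₂0, hβ, hβone,
    hβzero, hβle, hC₁, hC₂⟩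

/-- cut-off estimate -/
theorem cutoff : ∃ C : ℝ, 0 < C ∧ ∀ M : ℝ, 0 ≤ M → ∀ (P : ℂ → ℝ) (η : ℂ → (ℂ →L[ℝ] ℝ))
    (η' : ℂ → (ℂ →L[ℝ] (ℂ →L[ℝ] ℝ))), ContDiffOn ℝ ∞ P (ball 0 3) →
    (∀ z ∈ ball (0 : ℂ) 3, HasFDerivAt P (η z) z ∧ HasFDerivAt η (η' z) z ∧ ‖P z‖ ≤ M ∧
      ‖η z‖ ≤ M ∧ ‖η' z‖ ≤ M) →
    ∃ F : ℂ → ℝ, ContDiff ℝ ∞ F ∧ (∀ z, ‖z‖ < 1 → fderiv ℝ F z = η z) ∧
      (∀ z, 3 ≤ ‖z‖ → fderiv ℝ F z = 0) ∧
      ∀ v : ℂ, ‖v‖ ≤ 1 → ∀ z, ‖fderiv ℝ (fun y => fderiv ℝ F y v) z‖ ≤ C * M := by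
  obtain ⟨β, C₁, C₂, hC₁0, hC₂0, hβ, hβone, hβzero, hβle, hC₁, hC₂⟩ := exists_beta'
  refine ⟨1 + 2 * C₁ + C₂, by positivity, ?_⟩
  intro M hM P η η' hP hη
  have hz0 : ∀ z : ℂ, 2 < ‖z‖ → (fun z => β z * P z) =ᶠ[𝓝 z] fun _ => 0 := by
    intro z hz
    have : (closedBall (0 : ℂ) 2)ᶜ ∈ 𝓝 z := by
      refine isClosed_closedBall.isOpen_compl.mem_nhds ?_
      simp only [Set.mem_compl_iff, mem_closedBall, dist_zero_right]
      linarith
    filter_upwards [this] with y hy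
    simp only [Set.mem_compl_iff, mem_closedBall, dist_zero_right, not_le] at hy
    rw [hβzero y hy.le, zero_mul]
  refine ⟨fun z => β z * P z, ?_, ?_, ?_, ?_⟩
  · rw [contDiff_iff_contDiffAt]
    intro z
    by_cases hz : ‖z‖ < 3
    · exact hβ.contDiffAt.mul ((hP z (by simpa using hz)).contDiffAt
        (isOpen_ball.mem_nhds (by simpa using hz)))
    · push Not at hz
      exact contDiffAt_const.congr_of_eventuallyEq (hz0 z (by linarith))
  · intro z hz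
    have hz1 : (fun z => β z * P z) =ᶠ[𝓝 z] P := by
      have : ball (0 : ℂ) 1 ∈ 𝓝 z := isOpen_ball.mem_nhds (by simpa using hz)
      filter_upwards [this] with y hy
      rw [mem_ball, dist_zero_right] at hy
      rw [hβone y hy.le, one_mul]
    rw [hz1.fderiv_eq]
    exact (hη z (by rw [mem_ball, dist_zero_right]; linarith)).1.fderiv
  · intro z hz
    rw [(hz0 z (by linarith)).fderiv_eq]
    simp
  · intro v hv z
    by_cases hz : ‖z‖ < 3
    · have hzb : z ∈ ball (0 : ℂ) 3 := by simpa using hz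
      obtain ⟨hw1, hw2, hw3, hw4, hw5⟩ := hη z hzb
      refine second_bound hβ hM hC₁0 hv (hβle z) (hC₁ z) (hC₂ z) ?_ hw2 hw3 hw4 hw5
      filter_upwards [isOpen_ball.mem_nhds hzb] with y hy
      exact (hη y hy).1
    · push Not at hz
      have h1 : (fun y => fderiv ℝ (fun z => β z * P z) y v) =ᶠ[𝓝 z] fun _ => 0 := by
        filter_upwards [(hz0 z (by linarith)).eventuallyEq_nhds] with y hy
        rw [hy.fderiv_eq]
        simp
      rw [h1.fderiv_eq]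
      simp only [fderiv_fun_const, Pi.zero_apply, norm_zero]
      positivity

end Gen

end Pool.Agent.Work.MP_ac1d8d_gt
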