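import Mathlib
import Pool.Agent.Work.MP_ac1d8d_gt.GenA

/-! Generating functions, second part: every area preserving germ is realised. -/

set_option autoImplicit false

namespace Pool.Agent.Work.MP_ac1d8d_gt

open scoped ContDiff Topology NNReal
open Filter Complex Metric

namespace Gen

theorem det_A {a : ℂ → ℝ} {z : ℂ} (ha : DifferentiableAt ℝ a z) :
    (fderiv ℝ (fun z => z + ((a z : ℝ) : ℂ) * I) z).det = 1 + fderiv ℝ a z I := by
  have h1 : HasFDerivAt (fun z => z + ((a z : ℝ) : ℂ) * I)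
      (ContinuousLinearMap.id ℝ ℂ + I • ofRealCLM.comp (fderiv ℝ a z)) z :=
    (hasFDerivAt_id z).add ((ofRealCLM.hasFDerivAt.comp z ha.hasFDerivAt).mul_const I)
  rw [h1.fderiv, det_formula]
  simp

theorem det_B {b : ℂ → ℝ} {z : ℂ} (hb : DifferentiableAt ℝ b z) :
    (fderiv ℝ (fun z => z + ((b z : ℝ) : ℂ)) z).det = 1 + fderiv ℝ b z 1 := by
  have h1 : HasFDerivAt (fun z => z + ((b z : ℝ) : ℂ))
      (ContinuousLinearMap.id ℝ ℂ + ofRealCLM.comp (fderiv ℝ b z)) z :=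
    (hasFDerivAt_id z).add (ofRealCLM.hasFDerivAt.comp z hb.hasFDerivAt)
  rw [h1.fderiv, det_formula]
  simp

/-- the mixed coordinate map -/
noncomputable def Ph (u : ℂ → ℂ) (z : ℂ) : ℂ := ((z.re : ℝ) : ℂ) + (((u z).im : ℝ) : ℂ) * I

theorem Ph_re (u : ℂ → ℂ) (z : ℂ) : (Ph u z).re = z.re := by simp [Ph]

theorem Ph_im (u : ℂ → ℂ) (z : ℂ) : (Ph u z).im = (u z).im := by simp [Ph]

theorem Ph_contDiffAt {u : ℂ → ℂ} {z : ℂ} (hu : ContDiffAt ℝ ∞ u z) :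
    ContDiffAt ℝ ∞ (Ph u) z := by
  unfold Ph
  exact (ofRealCLM.contDiff.contDiffAt.comp z (reCLM.contDiff.contDiffAt)).add
    ((ofRealCLM.contDiff.contDiffAt.comp z (imCLM.contDiff.contDiffAt.comp z hu)).mul
      contDiffAt_const)

theorem Ph_hasFDerivAt {u : ℂ → ℂ} {z : ℂ} {L : ℂ →L[ℝ] ℂ} (hu : HasFDerivAt u L z) :
    HasFDerivAt (Ph u) (ofRealCLM.comp reCLM + I • ofRealCLM.comp (imCLM.comp L)) z := by
  have h1 : HasFDerivAt (fun z : ℂ => ((z.re : ℝ) : ℂ)) (ofRealCLM.comp reCLM) z :=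
    ofRealCLM.hasFDerivAt.comp z reCLM.hasFDerivAt
  have h2 : HasFDerivAt (fun z : ℂ => (((u z).im : ℝ) : ℂ)) (ofRealCLM.comp (imCLM.comp L)) z :=
    ofRealCLM.hasFDerivAt.comp z (imCLM.hasFDerivAt.comp z hu)
  exact h1.add (h2.mul_const I)

theorem Ph_det {u : ℂ → ℂ} {z : ℂ} (hu : DifferentiableAt ℝ u z) :
    (fderiv ℝ (Ph u) z).det = (fderiv ℝ u z I).im := by
  rw [(Ph_hasFDerivAt hu.hasFDerivAt).fderiv, det_formula]
  simp

theorem gen_exists (u : ℂ → ℂ) (hu : Ar u 0) (h0 : u 0 = 0)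
    (hD : fderiv ℝ u 0 = ContinuousLinearMap.id ℝ ℂ) :
    ∃ (Ψ Φ : ℂ → ℂ) (P : ℂ → ℝ) (η : ℂ → (ℂ →L[ℝ] ℝ)) (ρ : ℝ), 0 < ρ ∧ ContinuousAt Φ 0 ∧
      Φ 0 = 0 ∧ (∀ᶠ z in 𝓝 0, Ψ (Φ z) = z) ∧ ContDiffOn ℝ ∞ P (ball 0 ρ) ∧ P 0 = 0 ∧
      η 0 = 0 ∧ (∀ p ∈ ball (0 : ℂ) ρ, HasFDerivAt P (η p) p) ∧
      ContDiffOn ℝ ∞ η (ball 0 ρ) ∧ HasFDerivAt η (0 : ℂ →L[ℝ] (ℂ →L[ℝ] ℝ)) (0 : ℂ) ∧
      ∀ p ∈ ball (0 : ℂ) ρ, Ψ p = p + ((η p 1 : ℝ) : ℂ) * I ∧ u (Ψ p) = p + ((η p I : ℝ) : ℂ) := by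
  have hu0 : ContDiffAt ℝ ∞ u 0 := hu.contDiffAt
  have hud : HasFDerivAt u (ContinuousLinearMap.id ℝ ℂ) 0 := by
    have := (hu0.differentiableAt (by simp)).hasFDerivAt
    rwa [hD] at this
  have hΦc : ContDiffAt ℝ ∞ (Ph u) 0 := Ph_contDiffAt hu0
  have hΦd : HasFDerivAt (Ph u) ((ContinuousLinearEquiv.refl ℝ ℂ : ℂ ≃L[ℝ] ℂ) : ℂ →L[ℝ] ℂ) 0 := by
    have h1 := Ph_hasFDerivAt hud
    convert h1 using 1
    ext v
    simp only [ContinuousLinearEquiv.coe_refl, ContinuousLinearMap.coe_id', id,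
      _root_.add_apply, ContinuousLinearMap.comp_apply, _root_.smul_apply, reCLM_apply,
      imCLM_apply, ofRealCLM_apply, smul_eq_mul]
    rw [mul_comm, re_add_im]
  have hΦ0 : Ph u 0 = 0 := by simp [Ph, h0]
  let e : OpenPartialHomeomorph ℂ ℂ := hΦc.toOpenPartialHomeomorph (Ph u) hΦd (by simp)
  have he : (e : ℂ → ℂ) = Ph u := rfl
  have he0 : (0 : ℂ) ∈ e.source := hΦc.mem_toOpenPartialHomeomorph_source hΦd (by simp)
  have het : (0 : ℂ) ∈ e.target := by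
    have := e.map_source he0
    rwa [he, hΦ0] at this
  have hΨ0 : e.symm 0 = 0 := by
    have := e.left_inv he0
    rwa [he, hΦ0] at this
  have hΨc : ContinuousAt e.symm 0 := e.symm.continuousAt het
  -- the good neighbourhood
  have hfd : ContinuousAt (fderiv ℝ u) 0 :=
    (hu0.fderiv_right (m := 0) (by simp)).continuousAt
  have hdetne : ∀ᶠ q in 𝓝 (0 : ℂ), (fderiv ℝ u q I).im ≠ 0 := by
    have h1 : ContinuousAt (fun q => (fderiv ℝ u q I).im) 0 :=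
      continuous_im.continuousAt.comp (hfd.clm_apply continuousAt_const)
    apply h1.eventually_ne
    rw [hD]
    simp
  have hq : ∀ᶠ q in 𝓝 (0 : ℂ), ContDiffAt ℝ ∞ u q ∧ (fderiv ℝ u q).det = 1 ∧
      (fderiv ℝ u q I).im ≠ 0 := by
    filter_upwards [hu, hdetne] with q h1 h2
    exact ⟨h1.1, h1.2, h2⟩
  have hp : ∀ᶠ p in 𝓝 (0 : ℂ), p ∈ e.target ∧ ContDiffAt ℝ ∞ u (e.symm p) ∧
      (fderiv ℝ u (e.symm p)).det = 1 ∧ (fderiv ℝ u (e.symm p) I).im ≠ 0 := by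
    have h1 : Tendsto e.symm (𝓝 0) (𝓝 0) := by
      have := hΨc.tendsto
      rwa [hΨ0] at this
    filter_upwards [e.open_target.mem_nhds het, h1.eventually hq] with p h2 h3
    exact ⟨h2, h3⟩
  obtain ⟨ρ, hρ, hball⟩ := Metric.eventually_nhds_iff_ball.1 hp
  -- smoothness of the inverse
  have hΨs : ∀ p ∈ ball (0 : ℂ) ρ, ContDiffAt ℝ ∞ e.symm p := by
    intro p hp
    obtain ⟨h1, h2, h3, h4⟩ := hball p hp
    have h5 : (fderiv ℝ (Ph u) (e.symm p)).det ≠ 0 := by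
      rw [Ph_det (h2.differentiableAt (by simp))]
      exact h4
    have h6 : HasFDerivAt e (((fderiv ℝ (Ph u) (e.symm p)).toContinuousLinearEquivOfDetNeZero h5 :
        ℂ ≃L[ℝ] ℂ) : ℂ →L[ℝ] ℂ) (e.symm p) := by
      rw [ContinuousLinearMap.coe_toContinuousLinearEquivOfDetNeZero]
      exact ((Ph_contDiffAt h2).differentiableAt (by simp)).hasFDerivAt
    exact e.contDiffAt_symm h1 h6 (Ph_contDiffAt h2)
  have hΨre : ∀ p ∈ ball (0 : ℂ) ρ, (e.symm p).re = p.re := by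
    intro p hp
    have h1 := e.right_inv (hball p hp).1
    rw [he] at h1
    have h2 := congrArg Complex.re h1
    rwa [Ph_re] at h2
  have hΨim : ∀ p ∈ ball (0 : ℂ) ρ, (u (e.symm p)).im = p.im := by
    intro p hp
    have h1 := e.right_inv (hball p hp).1
    rw [he] at h1
    have h2 := congrArg Complex.im h1
    rwa [Ph_im] at h2
  let a : ℂ → ℝ := fun p => (e.symm p).im - p.im
  let b : ℂ → ℝ := fun p => (u (e.symm p)).re - p.re
  have hWs : ∀ p ∈ ball (0 : ℂ) ρ, ContDiffAt ℝ ∞ (fun p => u (e.symm p)) p := fun p hp =>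
    (hball p hp).2.1.comp p (hΨs p hp)
  have has : ∀ p ∈ ball (0 : ℂ) ρ, ContDiffAt ℝ ∞ a p := fun p hp =>
    (imCLM.contDiff.contDiffAt.comp p (hΨs p hp)).sub imCLM.contDiff.contDiffAt
  have hbs : ∀ p ∈ ball (0 : ℂ) ρ, ContDiffAt ℝ ∞ b p := fun p hp =>
    (reCLM.contDiff.contDiffAt.comp p (hWs p hp)).sub reCLM.contDiff.contDiffAt
  have hΨa : ∀ p ∈ ball (0 : ℂ) ρ, e.symm p = p + ((a p : ℝ) : ℂ) * I := by
    intro p hp
    apply Complex.ext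
    · simp [hΨre p hp]
    · simp [a]
  have hWb : ∀ p ∈ ball (0 : ℂ) ρ, u (e.symm p) = p + ((b p : ℝ) : ℂ) := by
    intro p hp
    apply Complex.ext
    · simp [b]
    · simp [hΨim p hp]
  have hsym : ∀ p ∈ ball (0 : ℂ) ρ, fderiv ℝ a p I = fderiv ℝ b p 1 := by
    intro p hp
    have hnb : ball (0 : ℂ) ρ ∈ 𝓝 p := isOpen_ball.mem_nhds hp
    have e1 : (e.symm : ℂ → ℂ) =ᶠ[𝓝 p] fun p => p + ((a p : ℝ) : ℂ) * I := by
      filter_upwards [hnb] with y hy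
      exact hΨa y hy
    have e2 : (fun p => u (e.symm p)) =ᶠ[𝓝 p] fun p => p + ((b p : ℝ) : ℂ) := by
      filter_upwards [hnb] with y hy
      exact hWb y hy
    have d1 : (fderiv ℝ e.symm p).det = 1 + fderiv ℝ a p I := by
      rw [e1.fderiv_eq, det_A ((has p hp).differentiableAt (by simp))]
    have d2 : (fderiv ℝ (fun p => u (e.symm p)) p).det = 1 + fderiv ℝ b p 1 := by
      rw [e2.fderiv_eq, det_B ((hbs p hp).differentiableAt (by simp))]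
    have d3 : fderiv ℝ (fun p => u (e.symm p)) p
        = (fderiv ℝ u (e.symm p)).comp (fderiv ℝ e.symm p) :=
      fderiv_comp p ((hball p hp).2.1.differentiableAt (by simp))
        ((hΨs p hp).differentiableAt (by simp))
    rw [d3, det_mul', (hball p hp).2.2.1, one_mul, d1] at d2
    linarith
  let η : ℂ → (ℂ →L[ℝ] ℝ) := fun p => a p • reCLM + b p • imCLM
  have hηs : ∀ p ∈ ball (0 : ℂ) ρ, ContDiffAt ℝ ∞ η p := fun p hp =>
    ((has p hp).smul contDiffAt_const).add ((hbs p hp).smul contDiffAt_const)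
  have hηd : ∀ p, DifferentiableAt ℝ a p → DifferentiableAt ℝ b p → HasFDerivAt η
      ((fderiv ℝ a p).smulRight reCLM + (fderiv ℝ b p).smulRight imCLM) p := by
    intro p h1 h2
    exact (h1.hasFDerivAt.smul_const reCLM).add (h2.hasFDerivAt.smul_const imCLM)
  obtain ⟨P₀, hP₀⟩ := (convex_ball (0 : ℂ) ρ).exists_forall_hasFDerivAt_of_fderiv_symmetric
    isOpen_ball
    (show DifferentiableOn ℝ η (ball 0 ρ) from
      fun p hp => ((hηs p hp).differentiableAt (by simp)).differentiableWithinAt)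
    (by
      intro p hp x y
      rw [(hηd p ((has p hp).differentiableAt (by simp))
        ((hbs p hp).differentiableAt (by simp))).fderiv]
      have hx : ∀ (L : ℂ →L[ℝ] ℝ) (x : ℂ), L x = x.re * L 1 + x.im * L I := by
        intro L x
        have h1 : x = x.re • (1 : ℂ) + x.im • I := by
          apply Complex.ext <;> simp
        conv_lhs => rw [h1]
        rw [map_add, map_smul, map_smul, smul_eq_mul, smul_eq_mul]
      simp only [_root_.add_apply, ContinuousLinearMap.smulRight_apply, _root_.smul_apply,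
        reCLM_apply, imCLM_apply, smul_eq_mul]
      rw [hx (fderiv ℝ a p) x, hx (fderiv ℝ a p) y, hx (fderiv ℝ b p) x, hx (fderiv ℝ b p) y,
        hsym p hp]
      ring)
  have h0b : (0 : ℂ) ∈ ball (0 : ℂ) ρ := mem_ball_self hρ
  have hP : ∀ p ∈ ball (0 : ℂ) ρ, HasFDerivAt (fun p => P₀ p - P₀ 0) (η p) p := fun p hp =>
    (hP₀ p hp).sub_const _
  have hηc : ContDiffOn ℝ ∞ η (ball 0 ρ) := fun p hp => (hηs p hp).contDiffWithinAt
  refine ⟨e.symm, Ph u, fun p => P₀ p - P₀ 0, η, ρ, hρ, hΦc.continuousAt, hΦ0, ?_, ?_, ?_, ?_,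
    hP, hηc, ?_, ?_⟩
  · filter_upwards [e.open_source.mem_nhds he0] with z hz
    exact e.left_inv hz
  · rw [contDiffOn_infty_iff_fderiv_of_isOpen isOpen_ball]
    refine ⟨fun p hp => (hP p hp).differentiableAt.differentiableWithinAt, ?_⟩
    exact hηc.congr (fun p hp => (hP p hp).fderiv)
  · simp
  · simp only [η, a, b, hΨ0, h0]
    simp
  · have hΨd : HasFDerivAt e.symm (ContinuousLinearMap.id ℝ ℂ) 0 := by
      have h1 := e.hasFDerivAt_symm het (f' := ContinuousLinearEquiv.refl ℝ ℂ) (by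
        rw [hΨ0]
        exact hΦd)
      simpa using h1
    have hWd : HasFDerivAt (fun p => u (e.symm p)) (ContinuousLinearMap.id ℝ ℂ) 0 := by
      have h1 : HasFDerivAt u (ContinuousLinearMap.id ℝ ℂ) (e.symm 0) := by
        rw [hΨ0]
        exact hud
      have h2 := h1.comp (0 : ℂ) hΨd
      rw [ContinuousLinearMap.comp_id] at h2
      exact h2
    have had : HasFDerivAt a (0 : ℂ →L[ℝ] ℝ) (0 : ℂ) := by
      have h1 := (imCLM.hasFDerivAt.comp (0 : ℂ) hΨd).sub (imCLM.hasFDerivAt (x := (0 : ℂ)))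
      have h2 : imCLM.comp (ContinuousLinearMap.id ℝ ℂ) - imCLM = 0 := by
        simp
      rw [h2] at h1
      exact h1
    have hbd : HasFDerivAt b (0 : ℂ →L[ℝ] ℝ) (0 : ℂ) := by
      have h1 := (reCLM.hasFDerivAt.comp (0 : ℂ) hWd).sub (reCLM.hasFDerivAt (x := (0 : ℂ)))
      have h2 : reCLM.comp (ContinuousLinearMap.id ℝ ℂ) - reCLM = 0 := by
        simp
      rw [h2] at h1
      exact h1
    have h3 := hηd 0 had.differentiableAt hbd.differentiableAt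
    rw [had.fderiv, hbd.fderiv] at h3
    have h4 : (0 : ℂ →L[ℝ] ℝ).smulRight reCLM + (0 : ℂ →L[ℝ] ℝ).smulRight imCLM = 0 := by
      ext v w
      simp
    rw [h4] at h3
    exact h3
  · intro p hp
    have e1 : η p 1 = a p := by simp [η]
    have e2 : η p I = b p := by simp [η]
    rw [e1, e2]
    exact ⟨hΨa p hp, hWb p hp⟩

/-- smallness of the generating function near its critical point -/
theorem small_near {P : ℂ → ℝ} {η : ℂ → (ℂ →L[ℝ] ℝ)} {ρ : ℝ} (hρ : 0 < ρ) (hP0 : P 0 = 0)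
    (hη0 : η 0 = 0) (hP : ∀ p ∈ ball (0 : ℂ) ρ, HasFDerivAt P (η p) p)
    (hη : ContDiffOn ℝ ∞ η (ball 0 ρ))
    (hη' : HasFDerivAt η (0 : ℂ →L[ℝ] (ℂ →L[ℝ] ℝ)) (0 : ℂ)) {κ : ℝ} (hκ : 0 < κ) :
    ∃ ρ' > 0, ρ' ≤ ρ ∧ ∀ p ∈ ball (0 : ℂ) ρ', ‖fderiv ℝ η p‖ ≤ κ ∧ ‖η p‖ ≤ κ * ‖p‖ ∧
      ‖P p‖ ≤ κ * ‖p‖ ^ 2 := by
  have h0b : (0 : ℂ) ∈ ball (0 : ℂ) ρ := mem_ball_self hρ
  have hη0c : ContDiffAt ℝ ∞ η 0 := (hη 0 h0b).contDiffAt (isOpen_ball.mem_nhds h0b)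
  have hfd : ContinuousAt (fderiv ℝ η) 0 :=
    (hη0c.fderiv_right (m := 0) (by simp)).continuousAt
  have hlim : Tendsto (fun p => ‖fderiv ℝ η p‖) (𝓝 0) (𝓝 0) := by
    have h1 : ContinuousAt (fun p => ‖fderiv ℝ η p‖) 0 :=
      (continuous_norm (E := ℂ →L[ℝ] ℂ →L[ℝ] ℝ)).continuousAt.comp hfd
    have h2 := h1.tendsto
    rw [hη'.fderiv] at h2
    rwa [show ‖(0 : ℂ →L[ℝ] ℂ →L[ℝ] ℝ)‖ = 0 from norm_zero (E := ℂ →L[ℝ] ℂ →L[ℝ] ℝ)] at h2
  have hev : ∀ᶠ p in 𝓝 (0 : ℂ), ‖fderiv ℝ η p‖ < κ := hlim.eventually (gt_mem_nhds hκ)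
  obtain ⟨ρ₁, hρ₁, hb1⟩ := Metric.eventually_nhds_iff_ball.1 hev
  refine ⟨min ρ₁ ρ, lt_min hρ₁ hρ, min_le_right _ _, ?_⟩
  have hsub : ball (0 : ℂ) (min ρ₁ ρ) ⊆ ball 0 ρ := ball_subset_ball (min_le_right _ _)
  have hsub1 : ball (0 : ℂ) (min ρ₁ ρ) ⊆ ball 0 ρ₁ := ball_subset_ball (min_le_left _ _)
  have h0b' : (0 : ℂ) ∈ ball (0 : ℂ) (min ρ₁ ρ) := mem_ball_self (lt_min hρ₁ hρ)
  have hηd : ∀ p ∈ ball (0 : ℂ) (min ρ₁ ρ), DifferentiableAt ℝ η p := fun p hp =>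
    ((hη p (hsub hp)).contDiffAt (isOpen_ball.mem_nhds (hsub hp))).differentiableAt (by simp)
  have hηb : ∀ p ∈ ball (0 : ℂ) (min ρ₁ ρ), ‖η p‖ ≤ κ * ‖p‖ := by
    intro p hp
    have h1 := (convex_ball (0 : ℂ) (min ρ₁ ρ)).norm_image_sub_le_of_norm_fderiv_le (𝕜 := ℝ)
      (f := η) (C := κ) hηd (fun q hq => (hb1 q (hsub1 hq)).le) h0b' hp
    simpa [hη0] using h1
  intro p hp
  refine ⟨(hb1 p (hsub1 hp)).le, hηb p hp, ?_⟩
  have hpn : ‖p‖ < min ρ₁ ρ := by simpa using hp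
  have hcb : closedBall (0 : ℂ) ‖p‖ ⊆ ball 0 (min ρ₁ ρ) := closedBall_subset_ball hpn
  have h1 := (convex_closedBall (0 : ℂ) ‖p‖).norm_image_sub_le_of_norm_fderiv_le (𝕜 := ℝ)
    (f := P) (C := κ * ‖p‖) (fun q hq => (hP q (hsub (hcb hq))).differentiableAt)
    (fun q hq => by
      rw [(hP q (hsub (hcb hq))).fderiv]
      refine (hηb q (hcb hq)).trans ?_
      have : ‖q‖ ≤ ‖p‖ := by simpa using hq
      exact mul_le_mul_of_nonneg_left this hκ.le)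
    (mem_closedBall_self (norm_nonneg p)) (show p ∈ closedBall (0 : ℂ) ‖p‖ by simp)
  rw [hP0, sub_zero, sub_zero] at h1
  calc ‖P p‖ ≤ κ * ‖p‖ * ‖p‖ := h1
    _ = κ * ‖p‖ ^ 2 := by ring

/-- conjugation by a homothety -/
noncomputable def scaleH (ε : ℝ) (hε : ε ≠ 0) (h : ℂ ≃ₜ ℂ) : ℂ ≃ₜ ℂ :=
  ((Homeomorph.mulLeft₀ ((ε : ℂ)⁻¹) (inv_ne_zero (by exact_mod_cast hε))).trans h).trans
    (Homeomorph.mulLeft₀ (ε : ℂ) (by exact_mod_cast hε))

theorem scaleH_apply {ε : ℝ} (hε : ε ≠ 0) (h : ℂ ≃ₜ ℂ) (z : ℂ) :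
    scaleH ε hε h z = ε * h ((ε : ℂ)⁻¹ * z) := rfl

theorem scaleH_symm {ε : ℝ} (hε : ε ≠ 0) (h : ℂ ≃ₜ ℂ) :
    (scaleH ε hε h).symm = scaleH ε hε h.symm := by
  ext z
  rw [Homeomorph.symm_apply_eq]
  have hε' : (ε : ℂ) ≠ 0 := by exact_mod_cast hε
  rw [scaleH_apply, scaleH_apply, ← mul_assoc, inv_mul_cancel₀ hε', one_mul,
    Homeomorph.apply_symm_apply, ← mul_assoc, mul_inv_cancel₀ hε', one_mul]

theorem Ar_scale {ε : ℝ} (hε : ε ≠ 0) {h : ℂ → ℂ} (hh : ∀ z, Ar h z) (z : ℂ) :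
    Ar (fun z => (ε : ℂ) * h ((ε : ℂ)⁻¹ * z)) z := by
  have hε' : (ε : ℂ) ≠ 0 := by exact_mod_cast hε
  refine Eventually.of_forall fun y => ?_
  have h1 := (hh ((ε : ℂ)⁻¹ * y)).at
  have hlin : HasFDerivAt (fun z : ℂ => (ε : ℂ)⁻¹ * z)
      ((ε⁻¹ : ℝ) • ContinuousLinearMap.id ℝ ℂ) y := by
    have h2 := ((ε⁻¹ : ℝ) • ContinuousLinearMap.id ℝ ℂ).hasFDerivAt (x := y)
    have h3 : (fun z : ℂ => (ε : ℂ)⁻¹ * z) = ((ε⁻¹ : ℝ) • ContinuousLinearMap.id ℝ ℂ) := by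
      ext z
      simp
    rw [h3]
    exact h2
  have hsm : ContDiff ℝ ∞ (fun z : ℂ => (ε : ℂ)⁻¹ * z) := contDiff_const.mul contDiff_id
  constructor
  · exact contDiffAt_const.mul (h1.1.comp y hsm.contDiffAt)
  · have h4 : HasFDerivAt h (fderiv ℝ h ((ε : ℂ)⁻¹ * y)) ((ε : ℂ)⁻¹ * y) :=
      (h1.1.differentiableAt (by simp)).hasFDerivAt
    have h5 : HasFDerivAt (fun z => h ((ε : ℂ)⁻¹ * z))
        ((fderiv ℝ h ((ε : ℂ)⁻¹ * y)).comp ((ε⁻¹ : ℝ) • ContinuousLinearMap.id ℝ ℂ)) y :=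
      h4.comp y hlin
    have h6 : HasFDerivAt (fun z => (ε : ℂ) * h ((ε : ℂ)⁻¹ * z))
        (fderiv ℝ h ((ε : ℂ)⁻¹ * y)) y := by
      have h7 := h5.const_mul (ε : ℂ)
      have h8 : (ε : ℂ) • ((fderiv ℝ h ((ε : ℂ)⁻¹ * y)).comp
          ((ε⁻¹ : ℝ) • ContinuousLinearMap.id ℝ ℂ)) = fderiv ℝ h ((ε : ℂ)⁻¹ * y) := by
        ext v
        have h9 : fderiv ℝ h ((ε : ℂ)⁻¹ * y) ((ε⁻¹ : ℝ) • v)
            = (ε⁻¹ : ℝ) • fderiv ℝ h ((ε : ℂ)⁻¹ * y) v := map_smul _ _ _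
        calc ((ε : ℂ) • ((fderiv ℝ h ((ε : ℂ)⁻¹ * y)).comp
              ((ε⁻¹ : ℝ) • ContinuousLinearMap.id ℝ ℂ))) v
            = (ε : ℂ) * fderiv ℝ h ((ε : ℂ)⁻¹ * y) ((ε⁻¹ : ℝ) • v) := rfl
          _ = fderiv ℝ h ((ε : ℂ)⁻¹ * y) v := by
              rw [h9, real_smul]
              push_cast
              rw [← mul_assoc, mul_inv_cancel₀ hε', one_mul]
      rw [h8] at h7
      exact h7
    rw [h6.fderiv]
    exact h1.2

theorem Good.scale {ε R r : ℝ} (hε : 0 < ε) {h : ℂ ≃ₜ ℂ} (H : Good R h) (hr : R * ε ≤ r) :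
    Good r (scaleH ε hε.ne' h) := by
  have hε' : (ε : ℂ) ≠ 0 := by exact_mod_cast hε.ne'
  refine ⟨fun z => Ar_scale hε.ne' H.1 z, fun z => ?_, fun z hz => ?_⟩
  · rw [scaleH_symm]
    exact Ar_scale hε.ne' H.2.1 z
  · rw [scaleH_apply, H.2.2, ← mul_assoc, mul_inv_cancel₀ hε', one_mul]
    rw [norm_mul, norm_inv, norm_real, Real.norm_eq_abs, abs_of_pos hε]
    rw [inv_mul_eq_div, le_div_iff₀ hε]
    linarith

theorem near_id {u : ℂ → ℂ} (hu : Ar u 0) (h0 : u 0 = 0)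
    (hD : fderiv ℝ u 0 = ContinuousLinearMap.id ℝ ℂ) {r : ℝ} (hr : 0 < r) : Rz r u := by
  obtain ⟨Ψ, Φ, P, η, ρ, hρ, hΦc, hΦ0, hΨΦ, hPs, hP0, hη0, hP, hηs, hη', hval⟩ :=
    gen_exists u hu h0 hD
  obtain ⟨C, hC, hcut⟩ := cutoff
  obtain ⟨ρ', hρ', hρ'ρ, hsmall⟩ := small_near hρ hP0 hη0 hP hηs hη'
    (κ := 1 / (18 * C)) (by positivity)
  set κ : ℝ := 1 / (18 * C) with hκ
  have hκ0 : 0 < κ := by positivity
  -- the scale
  set ε : ℝ := min (ρ' / 3) (r / 3) with hε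
  have hε0 : 0 < ε := lt_min (by positivity) (by positivity)
  have hε1 : 3 * ε ≤ ρ' := by
    have : ε ≤ ρ' / 3 := min_le_left _ _
    linarith
  have hε2 : 3 * ε ≤ r := by
    have : ε ≤ r / 3 := min_le_right _ _
    linarith
  have hε' : (ε : ℂ) ≠ 0 := by exact_mod_cast hε0.ne'
  have hin : ∀ w ∈ ball (0 : ℂ) 3, ε • w ∈ ball (0 : ℂ) ρ' := by
    intro w hw
    rw [mem_ball, dist_zero_right] at hw ⊢
    rw [norm_smul, Real.norm_eq_abs, abs_of_pos hε0]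
    nlinarith
  have hsc : ∀ w : ℂ, HasFDerivAt (fun w : ℂ => ε • w) (ε • ContinuousLinearMap.id ℝ ℂ) w :=
    fun w => (hasFDerivAt_id w).const_smul ε
  have hnorm : ∀ w ∈ ball (0 : ℂ) 3, ‖ε • w‖ ≤ 3 * ε := by
    intro w hw
    rw [mem_ball, dist_zero_right] at hw
    rw [norm_smul, Real.norm_eq_abs, abs_of_pos hε0]
    nlinarith
  obtain ⟨F, hFs, hF1, hF3, hFb⟩ := hcut (9 * κ) (by positivity)
    (fun w => (ε⁻¹) ^ 2 * P (ε • w)) (fun w => ε⁻¹ • η (ε • w)) (fun w => fderiv ℝ η (ε • w))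
    (by
      intro w hw
      have h1 : ContDiffAt ℝ ∞ P (ε • w) :=
        (hPs _ (ball_subset_ball hρ'ρ (hin w hw))).contDiffAt
          (isOpen_ball.mem_nhds (ball_subset_ball hρ'ρ (hin w hw)))
      have h2 : ContDiffAt ℝ ∞ (fun w : ℂ => ε • w) w := (contDiff_const_smul ε).contDiffAt
      exact (contDiffAt_const.mul (h1.comp w h2)).contDiffWithinAt)
    (by
      intro w hw
      have hwb := hin w hw
      obtain ⟨b1, b2, b3⟩ := hsmall _ hwb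
      have hn := hnorm w hw
      have hηc : HasFDerivAt η (fderiv ℝ η (ε • w)) (ε • w) :=
        (((hηs _ (ball_subset_ball hρ'ρ hwb)).contDiffAt
          (isOpen_ball.mem_nhds (ball_subset_ball hρ'ρ hwb))).differentiableAt
            (by simp)).hasFDerivAt
      refine ⟨?_, ?_, ?_, ?_, ?_⟩
      · have h1 := ((hP _ (ball_subset_ball hρ'ρ hwb)).comp w (hsc w)).const_mul ((ε⁻¹) ^ 2)
        have h2 : (ε⁻¹) ^ 2 • (η (ε • w)).comp (ε • ContinuousLinearMap.id ℝ ℂ)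
            = ε⁻¹ • η (ε • w) := by
          ext v
          simp only [_root_.smul_apply, ContinuousLinearMap.comp_apply,
            ContinuousLinearMap.coe_id', id, map_smul, smul_eq_mul]
          field_simp
        rw [h2] at h1
        exact h1
      · have h1 := (hηc.comp w (hsc w)).const_smul (ε⁻¹)
        have h2 : (ε⁻¹) • (fderiv ℝ η (ε • w)).comp (ε • ContinuousLinearMap.id ℝ ℂ)
            = fderiv ℝ η (ε • w) := by
          ext v x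
          simp only [_root_.smul_apply, ContinuousLinearMap.comp_apply,
            ContinuousLinearMap.coe_id', id, map_smul, smul_eq_mul]
          field_simp
        rw [h2] at h1
        exact h1
      · rw [norm_mul, Real.norm_eq_abs, abs_of_pos (by positivity)]
        have h1 : ‖ε • w‖ ^ 2 ≤ (3 * ε) ^ 2 := pow_le_pow_left₀ (norm_nonneg _) hn 2
        calc (ε⁻¹) ^ 2 * ‖P (ε • w)‖ ≤ (ε⁻¹) ^ 2 * (κ * (3 * ε) ^ 2) := by
              apply mul_le_mul_of_nonneg_left _ (by positivity)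
              exact b3.trans (mul_le_mul_of_nonneg_left h1 hκ0.le)
          _ = 9 * κ := by
              field_simp
              ring
      · rw [norm_smul, Real.norm_eq_abs, abs_of_pos (by positivity)]
        calc ε⁻¹ * ‖η (ε • w)‖ ≤ ε⁻¹ * (κ * (3 * ε)) := by
              apply mul_le_mul_of_nonneg_left _ (by positivity)
              exact b2.trans (mul_le_mul_of_nonneg_left hn hκ0.le)
          _ = 3 * κ := by field_simp
          _ ≤ 9 * κ := by linarith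
      · exact b1.trans (by linarith))
  have hCκ : C * (9 * κ) = 1 / 2 := by
    rw [hκ]
    field_simp
    norm_num
  rw [hCκ] at hFb
  obtain ⟨h, hh1, hh2, hh3, hh4⟩ := master F hFs (r := 3) hF3 (hFb 1 (by simp))
    (hFb I (by simp))
  refine ⟨scaleH ε hε0.ne' h, Good.scale hε0 ⟨hh1, hh2, hh3⟩ hε2, ?_⟩
  -- identification near zero
  have hΦt : Tendsto Φ (𝓝 0) (𝓝 0) := by
    have := hΦc.tendsto
    rwa [hΦ0] at this
  have hball : ball (0 : ℂ) ε ∈ 𝓝 (0 : ℂ) := ball_mem_nhds _ hε0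
  filter_upwards [hΨΦ, hΦt.eventually hball] with z hz1 hz2
  set p := Φ z with hp
  have hpn : ‖p‖ < ε := by simpa using hz2
  have hpρ : p ∈ ball (0 : ℂ) ρ := by
    rw [mem_ball, dist_zero_right]
    linarith
  obtain ⟨v1, v2⟩ := hval p hpρ
  rw [hz1] at v1 v2
  set w : ℂ := (ε : ℂ)⁻¹ * p with hw
  have hwn : ‖w‖ < 1 := by
    rw [hw, norm_mul, norm_inv, norm_real, Real.norm_eq_abs, abs_of_pos hε0, inv_mul_eq_div,
      div_lt_one hε0]
    exact hpn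
  have hεw : ε • w = p := by
    rw [real_smul, hw, ← mul_assoc, mul_inv_cancel₀ hε', one_mul]
  have h5 := hh4 w
  rw [hF1 w hwn, hεw] at h5
  rw [scaleH_apply]
  have h6 : (ε : ℂ)⁻¹ * z = w + (((ε⁻¹ • η p) 1 : ℝ) : ℂ) * I := by
    rw [v1, hw]
    simp only [_root_.smul_apply, smul_eq_mul]
    push_cast
    ring
  rw [h6, h5, v2, hw]
  simp only [_root_.smul_apply, smul_eq_mul]
  push_cast
  field_simp

end Gen

open Gen in
theorem local_germ (u : ℂ → ℂ) (hu : Ar u 0) (h0 : u 0 = 0) {r : ℝ} (hr : 0 < r) :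
    ∃ h : ℂ ≃ₜ ℂ, (∀ z, Ar h z) ∧ (∀ z, Ar h.symm z) ∧ (∀ z, r ≤ ‖z‖ → h z = z) ∧
      (∀ᶠ z in 𝓝 0, h z = u z) := by
  set L := fderiv ℝ u 0 with hL
  have hdet : L.det = 1 := hu.at.2
  -- coordinates of L
  have hLz : ∀ z : ℂ, L z = lin (L 1).re (L I).re (L 1).im (L I).im z := by
    intro z
    have h1 : z = z.re • (1 : ℂ) + z.im • I := by
      apply Complex.ext <;> simp
    conv_lhs => rw [h1]
    rw [map_add, map_smul, map_smul]
    apply Complex.ext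
    · simp [lin]
      ring
    · simp [lin]
      ring
  have hd' : (L 1).re * (L I).im - (L I).re * (L 1).im = 1 := by
    rw [← det_formula]
    exact hdet
  -- inverse
  have hdne : L.det ≠ 0 := by rw [hdet]; exact one_ne_zero
  set E : ℂ ≃L[ℝ] ℂ := L.toContinuousLinearEquivOfDetNeZero hdne with hE
  have hEL : (E : ℂ →L[ℝ] ℂ) = L := ContinuousLinearMap.coe_toContinuousLinearEquivOfDetNeZero _ _
  have hEz : ∀ z, E z = L z := fun z => by
    rw [← hEL]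
    rfl
  have hEdet : (E.symm : ℂ →L[ℝ] ℂ).det = 1 := by
    have hmul : ((E.symm : ℂ →L[ℝ] ℂ).comp (E : ℂ →L[ℝ] ℂ)).det = 1 := by
      rw [ContinuousLinearEquiv.coe_symm_comp_coe]
      exact det_id'
    rw [det_mul', hEL, hdet, mul_one] at hmul
    exact hmul
  have hArE : Ar (fun z => E.symm z) 0 := by
    refine Eventually.of_forall fun y => ⟨E.symm.contDiff.contDiffAt, ?_⟩
    have : fderiv ℝ (fun z => E.symm z) y = (E.symm : ℂ →L[ℝ] ℂ) := E.symm.hasFDerivAt.fderiv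
    rw [this]
    exact hEdet
  have hv : Ar (fun z => u (E.symm z)) 0 := by
    refine Ar.comp ?_ hArE
    rw [map_zero]
    exact hu
  have hv0 : (fun z => u (E.symm z)) 0 = 0 := by
    simp only [map_zero]
    exact h0
  have hvD : fderiv ℝ (fun z => u (E.symm z)) 0 = ContinuousLinearMap.id ℝ ℂ := by
    have h1 : HasFDerivAt u L (E.symm 0) := by
      rw [map_zero]
      exact (hu.contDiffAt.differentiableAt (by simp)).hasFDerivAt
    have h2 : HasFDerivAt (fun z => u (E.symm z)) (L.comp (E.symm : ℂ →L[ℝ] ℂ)) 0 :=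
      h1.comp (0 : ℂ) E.symm.hasFDerivAt
    rw [h2.fderiv, ← hEL]
    exact ContinuousLinearEquiv.coe_comp_coe_symm E
  have r1 : Rz r (fun z => u (E.symm z)) := near_id hv hv0 hvD hr
  have r2 : Rz r (fun z => L z) := (lin_rz hr hd').congr (Eventually.of_forall fun z => (hLz z).symm)
  have r3 := r1.comp r2 L.continuous.continuousAt (map_zero L)
  obtain ⟨h, hh, hval⟩ := r3
  refine ⟨h, hh.1, hh.2.1, hh.2.2, ?_⟩
  filter_upwards [hval] with z hz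
  rw [hz, ← hEz, ContinuousLinearEquiv.symm_apply_apply]

end Pool.Agent.Work.MP_ac1d8d_gt
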