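import Mathlib
import Pool.Agent.Work.MP_ac1d8d_gt.Surf
import Pool.Agent.Work.MP_ac1d8d_gt.Gen

/-!
Transitivity on germs of charts.
-/

set_option linter.all false
set_option autoImplicit false

namespace Pool.Agent.Work.MP_ac1d8d_gt

open scoped ContDiff Topology
open Filter Complex Set

variable {X : Type*} [TopologicalSpace X] [ChartedSpace ℂ X]

/-- `e` is an area preserving chart, centered at `x`. -/
structure Cen (e : OpenPartialHomeomorph X ℂ) (x : X) : Prop where
  ch : IsCh e
  mem : x ∈ e.source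
  zero : e x = 0

theorem Cen.zero_mem {e : OpenPartialHomeomorph X ℂ} {x : X} (h : Cen e x) :
    (0 : ℂ) ∈ e.target := by
  rw [← h.zero]; exact e.map_source h.mem

theorem Cen.symm_zero {e : OpenPartialHomeomorph X ℂ} {x : X} (h : Cen e x) :
    e.symm 0 = x := by
  rw [← h.zero]; exact e.left_inv h.mem

theorem Cen.tendsto {e : OpenPartialHomeomorph X ℂ} {x : X} (h : Cen e x) :
    Tendsto e (𝓝 x) (𝓝 0) := by
  have := e.continuousAt h.mem
  rwa [ContinuousAt, h.zero] at this

theorem Cen.tendsto_symm {e : OpenPartialHomeomorph X ℂ} {x : X} (h : Cen e x) :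
    Tendsto e.symm (𝓝 0) (𝓝 x) := by
  have := e.symm.continuousAt h.zero_mem
  rwa [ContinuousAt, h.symm_zero] at this

/-- Translate a chart. -/
noncomputable def trCh (e : OpenPartialHomeomorph X ℂ) (a : ℂ) : OpenPartialHomeomorph X ℂ :=
  e.trans (Homeomorph.subRight a).toOpenPartialHomeomorph

theorem ar_sub (a z : ℂ) : Ar (fun x => x - a) z := by
  refine Eventually.of_forall fun y => ⟨by fun_prop, ?_⟩
  rw [fderiv_sub_const, fderiv_fun_id]
  exact det_id'

theorem ar_add (a z : ℂ) : Ar (fun x => x + a) z := by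
  refine Eventually.of_forall fun y => ⟨by fun_prop, ?_⟩
  rw [fderiv_add_const, fderiv_fun_id]
  exact det_id'

theorem trCh_apply (e : OpenPartialHomeomorph X ℂ) (a : ℂ) (x : X) : trCh e a x = e x - a := rfl

theorem trCh_symm_apply (e : OpenPartialHomeomorph X ℂ) (a : ℂ) (z : ℂ) :
    (trCh e a).symm z = e.symm (z + a) := rfl

theorem trCh_source (e : OpenPartialHomeomorph X ℂ) (a : ℂ) : (trCh e a).source = e.source := by
  simp [trCh]

theorem trCh_target (e : OpenPartialHomeomorph X ℂ) (a : ℂ) (z : ℂ) :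
    z ∈ (trCh e a).target ↔ z + a ∈ e.target := by
  simp [trCh]

theorem IsCh.trCh [AreaAtlas X] {e : OpenPartialHomeomorph X ℂ} (he : IsCh e) (a : ℂ) :
    IsCh (trCh e a) := by
  apply isCh_iff
  · intro x hx
    rw [trCh_source] at hx
    exact ArM.comp (g := fun z => z - a) (arM_self_iff.2 (ar_sub a _)) (he.arM hx)
  · intro z hz
    rw [trCh_target] at hz
    exact ArM.comp (g := e.symm) (f := fun z => z + a) (he.arM_symm hz)
      (arM_self_iff.2 (ar_add a _))

theorem IsCh.cen [AreaAtlas X] {e : OpenPartialHomeomorph X ℂ} (he : IsCh e) {x : X}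
    (hx : x ∈ e.source) : Cen (Pool.Agent.Work.MP_ac1d8d_gt.trCh e (e x)) x :=
  ⟨he.trCh _, by rw [trCh_source]; exact hx, by rw [trCh_apply, sub_self]⟩

theorem exists_cen [AreaAtlas X] (x : X) : ∃ e : OpenPartialHomeomorph X ℂ, Cen e x :=
  ⟨_, (isCh_chartAt x).cen (mem_chart_source ℂ x)⟩

/-- There is an automorphism supported in `O` which near `x` is `c.symm ∘ e`. -/
def Good (O : Set X) (e : OpenPartialHomeomorph X ℂ) (x : X) (c : OpenPartialHomeomorph X ℂ) :
    Prop := ∃ φ : X ≃ₜ X, IsAut φ ∧ SuppIn φ O ∧ ∀ᶠ z in 𝓝 x, φ z = c.symm (e z)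

theorem Good.trans [AreaAtlas X] {O : Set X} {e c d : OpenPartialHomeomorph X ℂ} {x y : X}
    (he : Cen e x) (hc : Cen c y) (h : Good O e x c) (h' : Good O c y d) : Good O e x d := by
  obtain ⟨φ, h1, h2, h3⟩ := h
  obtain ⟨ψ, h1', h2', h3'⟩ := h'
  refine ⟨φ.trans ψ, h1.trans h1', h2.trans h2', ?_⟩
  have hφx : φ x = y := by rw [h3.self_of_nhds, he.zero, hc.symm_zero]
  have ht : Tendsto φ (𝓝 x) (𝓝 y) := by
    have := φ.continuous.continuousAt (x := x)
    rwa [ContinuousAt, hφx] at this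
  filter_upwards [h3, ht.eventually h3', he.tendsto.eventually
    (c.open_target.mem_nhds hc.zero_mem)] with z hz1 hz2 hz3
  rw [Homeomorph.trans_apply, hz2, hz1, c.right_inv hz3]

theorem Good.symm {O : Set X} {e c : OpenPartialHomeomorph X ℂ} {x y : X}
    (he : Cen e x) (hc : Cen c y) (h : Good O e x c) : Good O c y e := by
  obtain ⟨φ, h1, h2, h3⟩ := h
  refine ⟨φ.symm, h1.symm, h2.symm, ?_⟩
  have hφx : φ x = y := by rw [h3.self_of_nhds, he.zero, hc.symm_zero]
  have ht : Tendsto φ.symm (𝓝 y) (𝓝 x) := by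
    have := φ.symm.continuous.continuousAt (x := y)
    rwa [ContinuousAt, ← hφx, φ.symm_apply_apply, hφx] at this
  filter_upwards [ht.eventually h3, ht.eventually (e.open_source.mem_nhds he.mem),
    ht.eventually (he.tendsto.eventually (c.open_target.mem_nhds hc.zero_mem))] with w h1 h2 h3
  rw [φ.apply_symm_apply] at h1
  rw [h1, c.right_inv h3, ← h1, e.left_inv h2]

theorem good_self [T2Space X] [AreaAtlas X] {O : Set X} (hO : IsOpen O)
    {e c : OpenPartialHomeomorph X ℂ} {x : X} (hx : x ∈ O)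
    (he : Cen e x) (hc : Cen c x) : Good O e x c := by
  have hu : Ar (fun z => e (c.symm z)) 0 := by
    have := hc.ch.ar he.ch hc.mem he.mem
    rwa [hc.zero] at this
  have hu0 : e (c.symm 0) = 0 := by rw [hc.symm_zero, he.zero]
  have hN : e.target ∩ e.symm ⁻¹' O ∈ 𝓝 (0 : ℂ) :=
    inter_mem (e.open_target.mem_nhds he.zero_mem)
      (he.tendsto_symm.eventually (hO.mem_nhds hx))
  obtain ⟨r, hr, hball⟩ := Metric.nhds_basis_closedBall.mem_iff.1 hN
  obtain ⟨h, ha, ha', hs, hg⟩ := local_germ _ hu hu0 hr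
  have hK : ∀ z, z ∉ Metric.closedBall (0 : ℂ) r → h z = z := by
    intro z hz
    rw [mem_closedBall_zero_iff, not_le] at hz
    exact hs z hz.le
  have hKc := isCompact_closedBall (0 : ℂ) r
  have hKt : Metric.closedBall (0 : ℂ) r ⊆ e.target := fun z hz => (hball hz).1
  refine ⟨extHomeo e h _ hKc hKt hK, extHomeo_isAut he.ch hKc hKt hK ha ha',
    extHomeo_suppIn hKc hKt hK ?_, ?_⟩
  · rintro _ ⟨z, hz, rfl⟩
    exact (hball hz).2
  · have t : Tendsto (fun z => c.symm (e z)) (𝓝 x) (𝓝 x) := hc.tendsto_symm.comp he.tendsto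
    filter_upwards [e.open_source.mem_nhds he.mem, he.tendsto.eventually hg,
      t.eventually (e.open_source.mem_nhds he.mem)] with z h1 h2 h3
    show extFun e h z = _
    rw [extFun_of_mem h1, h2, e.left_inv h3]

theorem good_near [T2Space X] [AreaAtlas X] {O : Set X} (hO : IsOpen O)
    {e : OpenPartialHomeomorph X ℂ} {x : X} (hx : x ∈ O) (he : Cen e x) :
    ∀ᶠ y in 𝓝 x, y ∈ e.source ∧ Good O e x (trCh e (e y)) := by
  have hN : e.target ∩ e.symm ⁻¹' O ∈ 𝓝 (0 : ℂ) :=
    inter_mem (e.open_target.mem_nhds he.zero_mem)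
      (he.tendsto_symm.eventually (hO.mem_nhds hx))
  obtain ⟨r, hr, hball⟩ := Metric.nhds_basis_closedBall.mem_iff.1 hN
  obtain ⟨δ, hδ, hg⟩ := local_trans hr
  filter_upwards [e.open_source.mem_nhds he.mem, he.tendsto.eventually
    (Metric.ball_mem_nhds (0 : ℂ) hδ)] with y h1 h2
  refine ⟨h1, ?_⟩
  rw [dist_zero_right] at h2
  obtain ⟨h, ha, ha', hs, hg⟩ := hg _ h2
  have hK : ∀ z, z ∉ Metric.closedBall (0 : ℂ) r → h z = z := by
    intro z hz
    rw [mem_closedBall_zero_iff, not_le] at hz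
    exact hs z hz.le
  have hKc := isCompact_closedBall (0 : ℂ) r
  have hKt : Metric.closedBall (0 : ℂ) r ⊆ e.target := fun z hz => (hball hz).1
  refine ⟨extHomeo e h _ hKc hKt hK, extHomeo_isAut he.ch hKc hKt hK ha ha',
    extHomeo_suppIn hKc hKt hK ?_, ?_⟩
  · rintro _ ⟨z, hz, rfl⟩
    exact (hball hz).2
  · filter_upwards [e.open_source.mem_nhds he.mem, he.tendsto.eventually hg] with z h1 h2
    show extFun e h z = _
    rw [extFun_of_mem h1, h2, trCh_symm_apply]

/-- Transitivity on germs of charts in a connected open set. -/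
theorem germ_transitive [T2Space X] [AreaAtlas X] {O : Set X} (hO : IsOpen O)
    (hOc : IsPreconnected O) {x y : X} (hx : x ∈ O) (hy : y ∈ O)
    {e c : OpenPartialHomeomorph X ℂ} (he : Cen e x) (hc : Cen c y) : Good O e x c := by
  have key : ∀ e c : OpenPartialHomeomorph X ℂ, Cen e x → Cen c y → Good O e x c := by
    refine hOc.induction₂ (fun x y => ∀ e c : OpenPartialHomeomorph X ℂ,
      Cen e x → Cen c y → Good O e x c) ?_ ?_ ?_ hx hy
    · intro x hx
      obtain ⟨e₀, he₀⟩ := exists_cen x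
      filter_upwards [mem_nhdsWithin_of_mem_nhds (good_near hO hx he₀),
        self_mem_nhdsWithin] with y hy hyO
      intro e c he hc
      have h1 := good_self hO hx he he₀
      have hcy : Cen (trCh e₀ (e₀ y)) y := he₀.ch.cen hy.1
      have h2 := good_self hO hyO hcy hc
      exact (h1.trans he he₀ hy.2).trans he hcy h2
    · intro x y z hx hy hz hxy hyz e c he hc
      obtain ⟨d, hd⟩ := exists_cen y
      exact (hxy e d he hd).trans he hd (hyz d c hd hc)
    · intro x y hx hy hxy e c he hc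
      exact (hxy c e hc he).symm hc he
  exact key e c he hc

end Pool.Agent.Work.MP_ac1d8d_gt
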