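import Mathlib
import Pool.Agent.Work.MP_ac1d8d_gt.Trans

/-!
Swapping two points with prescribed germs.
-/

set_option linter.all false
set_option autoImplicit false

namespace Pool.Agent.Work.MP_ac1d8d_gt

open scoped ContDiff Topology
open Filter Complex Set

theorem isPreconnected_punctured (r : ℝ) : IsPreconnected {w : ℂ | w ≠ 0 ∧ ‖w‖ < r} := by
  rcases le_or_gt r 0 with hr | hr
  · have : {w : ℂ | w ≠ 0 ∧ ‖w‖ < r} = ∅ := by
      ext w
      simp only [mem_setOf_eq, mem_empty_iff_false, iff_false, not_and, not_lt]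
      intro _
      exact hr.trans (norm_nonneg w)
    rw [this]
    exact isPreconnected_empty
  · have : {w : ℂ | w ≠ 0 ∧ ‖w‖ < r} = Complex.exp '' {w : ℂ | w.re < Real.log r} := by
      ext w
      constructor
      · rintro ⟨h0, h1⟩
        refine ⟨Complex.log w, ?_, Complex.exp_log h0⟩
        show (Complex.log w).re < Real.log r
        rw [Complex.log_re]
        exact Real.log_lt_log (norm_pos_iff.2 h0) h1
      · rintro ⟨v, hv, rfl⟩
        refine ⟨Complex.exp_ne_zero v, ?_⟩
        rw [Complex.norm_exp, ← Real.lt_log_iff_exp_lt hr]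
        exact hv
    rw [this]
    have hc : Convex ℝ {w : ℂ | w.re < Real.log r} :=
      convex_halfSpace_re_lt _
    exact hc.isPreconnected.image _ Complex.continuous_exp.continuousOn

variable {X : Type*} [TopologicalSpace X] [ChartedSpace ℂ X]

theorem isPreconnected_diff_point [T2Space X] [AreaAtlas X] {O : Set X} (hO : IsOpen O)
    (hOc : IsPreconnected O) {y : X} (hy : y ∈ O) : IsPreconnected (O \ {y}) := by
  obtain ⟨e, he⟩ := exists_cen y
  have hN : e.target ∩ e.symm ⁻¹' O ∈ 𝓝 (0 : ℂ) :=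
    inter_mem (e.open_target.mem_nhds he.zero_mem)
      (he.tendsto_symm.eventually (hO.mem_nhds hy))
  obtain ⟨r, hr, hball⟩ := Metric.nhds_basis_ball.mem_iff.1 hN
  set P : Set ℂ := {w : ℂ | w ≠ 0 ∧ ‖w‖ < r} with hP
  have hPt : P ⊆ e.target ∩ e.symm ⁻¹' O := fun w hw => hball (by
    rw [mem_ball_zero_iff]; exact hw.2)
  set D : Set X := e.symm '' P with hD
  have hDc : IsPreconnected D := (isPreconnected_punctured r).image _
    (e.symm.continuousOn.mono fun w hw => (hPt hw).1)
  have hDO : D ⊆ O \ {y} := by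
    rintro _ ⟨w, hw, rfl⟩
    refine ⟨(hPt hw).2, ?_⟩
    intro h
    apply hw.1
    have h' : e (e.symm w) = 0 := by rw [show e.symm w = y from h, he.zero]
    rwa [e.right_inv (hPt hw).1] at h'
  have hDy : IsOpen (D ∪ {y}) := by
    have : D ∪ {y} = e.symm '' (Metric.ball 0 r) := by
      ext x
      constructor
      · rintro (⟨w, hw, rfl⟩ | h)
        · exact ⟨w, by rw [mem_ball_zero_iff]; exact hw.2, rfl⟩
        · exact ⟨0, Metric.mem_ball_self hr, by rw [he.symm_zero]; exact h.symm⟩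
      · rintro ⟨w, hw, rfl⟩
        by_cases h0 : w = 0
        · right; rw [h0, he.symm_zero]; rfl
        · left; exact ⟨w, ⟨h0, by rwa [mem_ball_zero_iff] at hw⟩, rfl⟩
    rw [this]
    exact e.symm.isOpen_image_of_subset_source Metric.isOpen_ball (fun w hw => (hball hw).1)
  rw [isPreconnected_iff_subset_of_disjoint]
  have key : ∀ U V : Set X, IsOpen U → IsOpen V → O \ {y} ⊆ U ∪ V → O \ {y} ∩ (U ∩ V) = ∅ →
      D ⊆ U → O \ {y} ⊆ U := by
    intro U V hU hV hUV hd hDU
    have h1 : IsOpen (U ∪ (D ∪ {y})) := hU.union hDy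
    have h2 : IsOpen (V ∩ {y}ᶜ) := hV.inter isOpen_compl_singleton
    have h3 : O ⊆ (U ∪ (D ∪ {y})) ∪ (V ∩ {y}ᶜ) := by
      intro z hz
      by_cases hzy : z = y
      · left; right; right; exact hzy
      · rcases hUV ⟨hz, hzy⟩ with h | h
        · left; left; exact h
        · right; exact ⟨h, hzy⟩
    have h4 : O ∩ ((U ∪ (D ∪ {y})) ∩ (V ∩ {y}ᶜ)) = ∅ := by
      rw [eq_empty_iff_forall_notMem] at hd ⊢
      rintro z ⟨hz, h1, h2, h3⟩
      rcases h1 with h | h | h
      · exact hd z ⟨⟨hz, h3⟩, h, h2⟩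
      · exact hd z ⟨⟨hz, h3⟩, hDU h, h2⟩
      · exact h3 h
    rcases isPreconnected_iff_subset_of_disjoint.1 hOc _ _ h1 h2 h3 h4 with h | h
    · rintro z ⟨hz, hzy⟩
      rcases h hz with h | h | h
      · exact h
      · exact hDU h
      · exact absurd h hzy
    · exact absurd rfl (h hy).2
  intro U V hU hV hUV hd
  have h5 : D ∩ (U ∩ V) = ∅ := by
    rw [eq_empty_iff_forall_notMem] at hd ⊢
    rintro z ⟨hz, h⟩
    exact hd z ⟨hDO hz, h⟩
  rcases isPreconnected_iff_subset_of_disjoint.1 hDc U V hU hV (hDO.trans hUV) h5 with h | h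
  · left; exact key U V hU hV hUV hd h
  · right
    exact key V U hV hU (by rwa [union_comm]) (by rwa [inter_comm V U]) h

/-- Two points can be swapped with prescribed germs. -/
theorem exists_swap [T2Space X] [AreaAtlas X] {O : Set X} (hO : IsOpen O)
    (hOc : IsPreconnected O) {x y : X} (hx : x ∈ O) (hy : y ∈ O) (hxy : x ≠ y)
    {e c : OpenPartialHomeomorph X ℂ} (he : Cen e x) (hc : Cen c y) :
    ∃ φ : X ≃ₜ X, IsAut φ ∧ SuppIn φ O ∧ (∀ᶠ z in 𝓝 x, φ z = c.symm (e z)) ∧
      (∀ᶠ z in 𝓝 y, φ z = e.symm (c z)) := by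
  obtain ⟨φ, a1, a2, a3⟩ := germ_transitive hO hOc hx hy he hc
  have hφx : φ x = y := by rw [a3.self_of_nhds, he.zero, hc.symm_zero]
  set u := φ y with hu
  have huy : u ≠ y := by
    intro h
    apply hxy
    apply φ.injective
    rw [hφx, ← hu, h]
  have huO : u ∈ O := by
    by_contra h
    obtain ⟨K, _, hK, hK'⟩ := a2
    have := hK' u (fun h' => h (hK h'))
    exact huy (φ.injective this)
  set d : OpenPartialHomeomorph X ℂ := φ.symm.toOpenPartialHomeomorph.trans c with hd
  have hdc : Cen d u := by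
    refine ⟨isCh_iff ?_ ?_, ?_, ?_⟩
    · intro z hz
      have hz' : φ.symm z ∈ c.source := by simpa [hd] using hz
      exact ArM.comp (g := c) (f := φ.symm) (hc.ch.arM hz') (a1.2 z)
    · intro w hw
      have hw' : w ∈ c.target := by simpa [hd] using hw
      exact ArM.comp (g := φ) (f := c.symm) (a1.1 _) (hc.ch.arM_symm hw')
    · simp only [hd, OpenPartialHomeomorph.trans_source, mem_inter_iff, mem_preimage]
      refine ⟨by trivial, ?_⟩
      show φ.symm u ∈ c.source
      rw [hu, φ.symm_apply_apply]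
      exact hc.mem
    · show c (φ.symm u) = 0
      rw [hu, φ.symm_apply_apply]
      exact hc.zero
  obtain ⟨ψ, b1, b2, b3⟩ := germ_transitive (hO.sdiff isClosed_singleton)
    (isPreconnected_diff_point hO hOc hy) (x := u) (y := x) ⟨huO, huy⟩ ⟨hx, hxy⟩ hdc he
  refine ⟨φ.trans ψ, a1.trans b1, a2.trans (b2.mono diff_subset), ?_, ?_⟩
  · have ht : Tendsto φ (𝓝 x) (𝓝 y) := by
      have := φ.continuous.continuousAt (x := x)
      rwa [ContinuousAt, hφx] at this
    obtain ⟨K, hK1, hK2, hK3⟩ := b2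
    have hyK : y ∉ K := fun h => (hK2 h).2 rfl
    filter_upwards [a3, ht.eventually (hK1.isClosed.isOpen_compl.mem_nhds hyK)] with z h1 h2
    rw [Homeomorph.trans_apply, hK3 _ h2, h1]
  · have ht : Tendsto φ (𝓝 y) (𝓝 u) := φ.continuous.continuousAt
    filter_upwards [ht.eventually b3] with z h1
    rw [Homeomorph.trans_apply, h1]
    show e.symm (c (φ.symm (φ z))) = _
    rw [φ.symm_apply_apply]

end Pool.Agent.Work.MP_ac1d8d_gt
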