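import Mathlib
import Pool.Agent.Work.MP_ac1d8d_gt.Param
import Pool.Agent.Work.MP_ac1d8d_gt.SwapPt

/-!
Collapsing half spaces of a surface to points.
-/

set_option linter.all false
set_option autoImplicit false

namespace Pool.Agent.Work.MP_ac1d8d_gt

open scoped ContDiff Topology
open Filter Complex Set

variable {S : Type*} [TopologicalSpace S] [ChartedSpace ℂ S] {ι : Type*}

/-- Disjoint closed sets `V i` with deleted neighborhoods parametrized by the punctured disc. -/
structure Caps (V : ι → Set S) (k : ι → OpenPartialHomeomorph S ℂ) : Prop where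
  closed : IsClosed (⋃ i, V i)
  nonempty : ∀ i, (V i).Nonempty
  disj : ∀ i j, i ≠ j → Disjoint (V i) (V j)
  ch : ∀ i, IsCh (k i)
  target : ∀ i, (k i).target = {w | w ≠ 0 ∧ ‖w‖ < 1}
  off : ∀ i j, Disjoint (k i).source (V j)
  sep : ∀ i j, i ≠ j → Disjoint (k i).source (k j).source
  opn : ∀ i, ∀ t : ℝ, 0 < t → t ≤ 1 → IsOpen (V i ∪ {x | x ∈ (k i).source ∧ ‖k i x‖ < t})
  cls : ∀ i, ∀ t : ℝ, 0 < t → t < 1 → IsClosed (V i ∪ {x | x ∈ (k i).source ∧ ‖k i x‖ ≤ t})

/-- The set underlying the collapsed surface. -/
inductive Coll {S : Type*} {ι : Type*} (V : ι → Set S)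
  | off (x : S) (h : ∀ i, x ∉ V i) : Coll V
  | pt (i : ι) : Coll V

open scoped Classical in
/-- The collapsing map. -/
noncomputable def toColl (V : ι → Set S) (x : S) : Coll V :=
  if h : ∃ i, x ∈ V i then Coll.pt h.choose else Coll.off x (not_exists.1 h)

/-- A point of `Coll V` as a point of `S`. -/
def Coll.out {V : ι → Set S} (s₀ : S) : Coll V → S
  | Coll.off x _ => x
  | Coll.pt _ => s₀

theorem toColl_off {V : ι → Set S} {x : S} (h : ∀ i, x ∉ V i) :
    toColl V x = Coll.off x h := dif_neg (not_exists.2 h)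

theorem out_toColl {V : ι → Set S} (s₀ : S) {x : S} (h : ∀ i, x ∉ V i) :
    Coll.out s₀ (toColl V x) = x := by rw [toColl_off h]; rfl

theorem toColl_injOn {V : ι → Set S} {x y : S} (hx : ∀ i, x ∉ V i) (hy : ∀ i, y ∉ V i)
    (h : toColl V x = toColl V y) : x = y := by
  rw [toColl_off hx, toColl_off hy] at h
  exact Coll.off.inj h

theorem toColl_ne {V : ι → Set S} {x : S} (hx : ∀ i, x ∉ V i) (i : ι) :
    toColl V x ≠ Coll.pt i := by
  rw [toColl_off hx]
  intro h
  cases h

variable {V : ι → Set S} {k : ι → OpenPartialHomeomorph S ℂ}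

theorem Caps.toColl_mem (H : Caps V k) {x : S} {i : ι} (h : x ∈ V i) :
    toColl V x = Coll.pt i := by
  have hex : ∃ i, x ∈ V i := ⟨i, h⟩
  rw [toColl, dif_pos hex]
  congr 1
  by_contra hne
  exact (Set.disjoint_left.1 (H.disj _ _ hne)) hex.choose_spec h

/-- The parametrizations of the collapsed surface. -/
noncomputable def capP (V : ι → Set S) (k : ι → OpenPartialHomeomorph S ℂ) :
    S ⊕ ι → ℂ → Coll V
  | Sum.inl x, z => toColl V ((chartAt ℂ x).symm z)
  | Sum.inr i, w => haveI := Classical.dec (w = 0)
      if w = 0 then Coll.pt i else toColl V ((k i).symm w)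

/-- The domains of the parametrizations. -/
def capU (V : ι → Set S) : S ⊕ ι → Set ℂ
  | Sum.inl x => {z | z ∈ (chartAt ℂ x).target ∧ ∀ i, (chartAt ℂ x).symm z ∉ V i}
  | Sum.inr i => {w | ‖w‖ < 1}

theorem capP_inl (x : S) (z : ℂ) : capP V k (Sum.inl x) z = toColl V ((chartAt ℂ x).symm z) := rfl

theorem capP_inr_zero (i : ι) : capP V k (Sum.inr i) 0 = Coll.pt i := by
  simp [capP]

theorem capP_inr {i : ι} {w : ℂ} (hw : w ≠ 0) :
    capP V k (Sum.inr i) w = toColl V ((k i).symm w) := by
  simp [capP, hw]

theorem Caps.mem_target (H : Caps V k) {i : ι} {w : ℂ} (hw : w ≠ 0) (hw1 : ‖w‖ < 1) :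
    w ∈ (k i).target := by rw [H.target]; exact ⟨hw, hw1⟩

theorem Caps.off' (H : Caps V k) {i : ι} {x : S} (hx : x ∈ (k i).source) (j : ι) : x ∉ V j :=
  fun h => Set.disjoint_left.1 (H.off i j) hx h

theorem Caps.off_symm (H : Caps V k) {i : ι} {w : ℂ} (hw : w ≠ 0) (hw1 : ‖w‖ < 1) (j : ι) :
    (k i).symm w ∉ V j := H.off' ((k i).map_target (H.mem_target hw hw1)) j

theorem Caps.ne_zero (H : Caps V k) {i : ι} {x : S} (hx : x ∈ (k i).source) : k i x ≠ 0 := by
  have := (k i).map_source hx
  rw [H.target] at this
  exact this.1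

theorem Caps.lt_one (H : Caps V k) {i : ι} {x : S} (hx : x ∈ (k i).source) : ‖k i x‖ < 1 := by
  have := (k i).map_source hx
  rw [H.target] at this
  exact this.2

/-- The collapsed surface. -/
noncomputable def capParam [AreaAtlas S] (H : Caps V k) : Param (Coll V) (S ⊕ ι) where
  U := capU V
  p := capP V k
  openU := by
    rintro (x | i)
    · have : capU V (Sum.inl x) = (chartAt ℂ x).target ∩ (chartAt ℂ x).symm ⁻¹' (⋃ i, V i)ᶜ := by
        ext z
        simp [capU]
      rw [this]
      exact (chartAt ℂ x).isOpen_inter_preimage_symm H.closed.isOpen_compl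
    · have : capU V (Sum.inr i) = Metric.ball 0 1 := by
        ext z; simp [capU]
      rw [this]
      exact Metric.isOpen_ball
  inj := by
    rintro (x | i) z hz w hw h
    · have := toColl_injOn hz.2 hw.2 h
      exact (chartAt ℂ x).symm.injOn hz.1 hw.1 this
    · by_cases hz0 : z = 0
      · subst hz0
        by_contra hne
        have hw0 : w ≠ 0 := fun h => hne h.symm
        rw [capP_inr_zero, capP_inr hw0] at h
        exact toColl_ne (H.off_symm hw0 hw) i h.symm
      · by_cases hw0 : w = 0
        · subst hw0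
          rw [capP_inr_zero, capP_inr hz0] at h
          exact absurd h (toColl_ne (H.off_symm hz0 hz) i)
        · rw [capP_inr hz0, capP_inr hw0] at h
          have := toColl_injOn (H.off_symm hz0 hz) (H.off_symm hw0 hw) h
          exact (k i).symm.injOn (H.mem_target hz0 hz) (H.mem_target hw0 hw) this
  cover := by
    rintro (⟨x, hx⟩ | i)
    · refine ⟨Sum.inl x, chartAt ℂ x x, ⟨(chartAt ℂ x).map_source (mem_chart_source ℂ x), ?_⟩, ?_⟩
      · rw [(chartAt ℂ x).left_inv (mem_chart_source ℂ x)]; exact hx
      · rw [capP_inl, (chartAt ℂ x).left_inv (mem_chart_source ℂ x), toColl_off hx]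
    · exact ⟨Sum.inr i, 0, by simp [capU], capP_inr_zero i⟩
  trans := by
    rintro (x | i) (y | j) z w hz hw h
    · have hh := toColl_injOn hz.2 hw.2 h
      have hs : (chartAt ℂ x).symm z ∈ (chartAt ℂ y).source := by
        rw [hh]; exact (chartAt ℂ y).map_target hw.1
      refine ⟨fun u => chartAt ℂ y ((chartAt ℂ x).symm u), ?_, ?_, ?_⟩
      · have := (isCh_chartAt x).ar (isCh_chartAt y) ((chartAt ℂ x).map_target hz.1) hs
        rwa [(chartAt ℂ x).right_inv hz.1] at this
      · show chartAt ℂ y ((chartAt ℂ x).symm z) = w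
        rw [hh, (chartAt ℂ y).right_inv hw.1]
      · have hc := (chartAt ℂ x).symm.continuousAt hz.1
        filter_upwards [hc.eventually ((chartAt ℂ y).open_source.mem_nhds hs)] with u hu
        rw [capP_inl, capP_inl, (chartAt ℂ y).left_inv hu]
    · have hw0 : w ≠ 0 := by
        rintro rfl
        rw [capP_inr_zero] at h
        exact toColl_ne hz.2 j h
      rw [capP_inr hw0] at h
      have hh := toColl_injOn hz.2 (H.off_symm hw0 hw) h
      have hwt := H.mem_target (i := j) hw0 hw
      have hs : (chartAt ℂ x).symm z ∈ (k j).source := by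
        rw [hh]; exact (k j).map_target hwt
      refine ⟨fun u => k j ((chartAt ℂ x).symm u), ?_, ?_, ?_⟩
      · have := (isCh_chartAt x).ar (H.ch j) ((chartAt ℂ x).map_target hz.1) hs
        rwa [(chartAt ℂ x).right_inv hz.1] at this
      · show k j ((chartAt ℂ x).symm z) = w
        rw [hh, (k j).right_inv hwt]
      · have hc := (chartAt ℂ x).symm.continuousAt hz.1
        filter_upwards [hc.eventually ((k j).open_source.mem_nhds hs)] with u hu
        rw [capP_inl, capP_inr (H.ne_zero hu), (k j).left_inv hu]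
    · have hz0 : z ≠ 0 := by
        rintro rfl
        rw [capP_inr_zero] at h
        exact toColl_ne hw.2 i h.symm
      rw [capP_inr hz0] at h
      have hh := toColl_injOn (H.off_symm hz0 hz) hw.2 h
      have hzt := H.mem_target (i := i) hz0 hz
      have hs : (k i).symm z ∈ (chartAt ℂ y).source := by
        rw [hh]; exact (chartAt ℂ y).map_target hw.1
      refine ⟨fun u => chartAt ℂ y ((k i).symm u), ?_, ?_, ?_⟩
      · have := (H.ch i).ar (isCh_chartAt y) ((k i).map_target hzt) hs
        rwa [(k i).right_inv hzt] at this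
      · show chartAt ℂ y ((k i).symm z) = w
        rw [hh, (chartAt ℂ y).right_inv hw.1]
      · have hc := (k i).symm.continuousAt hzt
        filter_upwards [hc.eventually ((chartAt ℂ y).open_source.mem_nhds hs),
          isOpen_ne.mem_nhds hz0] with u hu hu0
        rw [capP_inl, capP_inr hu0, (chartAt ℂ y).left_inv hu]
    · by_cases hz0 : z = 0
      · subst hz0
        rw [capP_inr_zero] at h
        by_cases hw0 : w = 0
        · subst hw0
          rw [capP_inr_zero] at h
          obtain rfl : i = j := Coll.pt.inj h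
          exact ⟨fun u => u, ar_id 0, rfl, Eventually.of_forall fun _ => rfl⟩
        · rw [capP_inr hw0] at h
          exact absurd h.symm (toColl_ne (H.off_symm hw0 hw) i)
      · by_cases hw0 : w = 0
        · subst hw0
          rw [capP_inr_zero, capP_inr hz0] at h
          exact absurd h (toColl_ne (H.off_symm hz0 hz) j)
        · rw [capP_inr hz0, capP_inr hw0] at h
          have hh := toColl_injOn (H.off_symm hz0 hz) (H.off_symm hw0 hw) h
          have hzt := H.mem_target (i := i) hz0 hz
          have hwt := H.mem_target (i := j) hw0 hw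
          have hij : i = j := by
            by_contra hne
            refine Set.disjoint_left.1 (H.sep i j hne) ((k i).map_target hzt) ?_
            rw [hh]
            exact (k j).map_target hwt
          subst hij
          have hzw : z = w := (k i).symm.injOn hzt hwt hh
          subst hzw
          exact ⟨fun u => u, ar_id z, rfl, Eventually.of_forall fun _ => rfl⟩

end Pool.Agent.Work.MP_ac1d8d_gt
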