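import Mathlib
import Pool.Agent.Work.MP_ac1d8d_gt.Cap

/-!
Topology of the collapsed surface.
-/

set_option linter.all false
set_option autoImplicit false

namespace Pool.Agent.Work.MP_ac1d8d_gt

open scoped ContDiff Topology
open Filter Complex Set

variable {S : Type*} [TopologicalSpace S] [ChartedSpace ℂ S] [AreaAtlas S] {ι : Type*}
  {V : ι → Set S} {k : ι → OpenPartialHomeomorph S ℂ}

theorem Caps.union_closed (H : Caps V k) : IsClosed (⋃ i, V i) := H.closed

/-- An open subset of `S`, seen in the collapsed surface. -/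
def liftSet (V : ι → Set S) (N : Set S) : Set (Coll V) :=
  {a | ∃ x, ∃ h : ∀ i, x ∉ V i, x ∈ N ∧ a = Coll.off x h}

theorem liftSet_toColl {N : Set S} {x : S} (hx : ∀ i, x ∉ V i) :
    toColl V x ∈ liftSet V N ↔ x ∈ N := by
  rw [toColl_off hx]
  constructor
  · rintro ⟨y, hy, h1, h2⟩
    obtain rfl := Coll.off.inj h2
    exact h1
  · intro h
    exact ⟨x, hx, h, rfl⟩

theorem liftSet_pt {N : Set S} (i : ι) : (Coll.pt i : Coll V) ∉ liftSet V N := by
  rintro ⟨y, hy, h1, h2⟩
  cases h2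

theorem Caps.isOpen_liftSet (H : Caps V k) {N : Set S} (hN : IsOpen N) :
    IsOpen[(capParam H).topology] (liftSet V N) := by
  rintro (x | i)
  · have : (capParam H).U (Sum.inl x) ∩ (capParam H).p (Sum.inl x) ⁻¹' liftSet V N
        = (capParam H).U (Sum.inl x) ∩ ((chartAt ℂ x).target ∩ (chartAt ℂ x).symm ⁻¹' N) := by
      ext z
      constructor
      · rintro ⟨h1, h2⟩
        exact ⟨h1, h1.1, (liftSet_toColl h1.2).1 h2⟩
      · rintro ⟨h1, h2, h3⟩
        exact ⟨h1, (liftSet_toColl h1.2).2 h3⟩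
    rw [this]
    exact ((capParam H).openU _).inter ((chartAt ℂ x).isOpen_inter_preimage_symm hN)
  · have : (capParam H).U (Sum.inr i) ∩ (capParam H).p (Sum.inr i) ⁻¹' liftSet V N
        = (k i).target ∩ (k i).symm ⁻¹' N := by
      ext w
      constructor
      · rintro ⟨h1, h2⟩
        by_cases hw : w = 0
        · subst hw
          change capP V k (Sum.inr i) 0 ∈ liftSet V N at h2
          rw [capP_inr_zero] at h2
          exact absurd h2 (liftSet_pt i)
        · change capP V k (Sum.inr i) w ∈ liftSet V N at h2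
          rw [capP_inr hw] at h2
          exact ⟨H.mem_target hw h1, (liftSet_toColl (H.off_symm hw h1)).1 h2⟩
      · rintro ⟨h1, h2⟩
        have h1' := h1
        rw [H.target] at h1'
        refine ⟨h1'.2, ?_⟩
        show capP V k (Sum.inr i) w ∈ liftSet V N
        rw [capP_inr h1'.1]
        exact (liftSet_toColl (H.off_symm h1'.1 h1'.2)).2 h2
    rw [this]
    exact (k i).isOpen_inter_preimage_symm hN

/-- Basic neighborhoods of the collapsed points. -/
def ptSet (V : ι → Set S) (k : ι → OpenPartialHomeomorph S ℂ) (i : ι) (t : ℝ) : Set (Coll V) :=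
  capP V k (Sum.inr i) '' {w | ‖w‖ < t}

theorem Caps.isOpen_ptSet (H : Caps V k) (i : ι) {t : ℝ} (ht : t ≤ 1) :
    IsOpen[(capParam H).topology] (ptSet V k i t) := by
  have : IsOpen {w : ℂ | ‖w‖ < t} := isOpen_lt continuous_norm continuous_const
  exact (capParam H).isOpen_image (j := Sum.inr i) this (fun w hw => lt_of_lt_of_le hw ht)

theorem Caps.toColl_mem_ptSet (H : Caps V k) {i : ι} {t : ℝ} (ht : t ≤ 1) {x : S}
    (hx : ∀ j, x ∉ V j) :
    toColl V x ∈ ptSet V k i t ↔ x ∈ (k i).source ∧ ‖k i x‖ < t := by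
  constructor
  · rintro ⟨w, hw, h⟩
    by_cases hw0 : w = 0
    · subst hw0
      rw [capP_inr_zero] at h
      exact absurd h.symm (toColl_ne hx i)
    · rw [capP_inr hw0] at h
      have hw1 : ‖w‖ < 1 := lt_of_lt_of_le hw ht
      have := toColl_injOn (H.off_symm hw0 hw1) hx h
      subst this
      have hwt := H.mem_target (i := i) hw0 hw1
      refine ⟨(k i).map_target hwt, ?_⟩
      rw [(k i).right_inv hwt]
      exact hw
  · rintro ⟨h1, h2⟩
    refine ⟨k i x, h2, ?_⟩
    rw [capP_inr (H.ne_zero h1), (k i).left_inv h1]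

theorem Caps.pt_mem_ptSet (H : Caps V k) {i j : ι} {t : ℝ} (ht : t ≤ 1)
    (h : (Coll.pt j : Coll V) ∈ ptSet V k i t) : i = j := by
  obtain ⟨w, hw, h⟩ := h
  by_cases hw0 : w = 0
  · subst hw0
    rw [capP_inr_zero] at h
    exact Coll.pt.inj h
  · rw [capP_inr hw0] at h
    exact absurd h (toColl_ne (H.off_symm hw0 (lt_of_lt_of_le hw ht)) j)

theorem pt_mem_self (i : ι) {t : ℝ} (ht : 0 < t) : (Coll.pt i : Coll V) ∈ ptSet V k i t :=
  ⟨0, by simpa using ht, capP_inr_zero i⟩

theorem Caps.t2 [T2Space S] (H : Caps V k) : @T2Space _ (capParam H).topology := by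
  letI := (capParam H).topology
  have key : ∀ (i : ι) (x : S) (hx : ∀ j, x ∉ V j), ∃ u v : Set (Coll V), IsOpen u ∧ IsOpen v ∧
      Coll.pt i ∈ u ∧ toColl V x ∈ v ∧ Disjoint u v := by
    intro i x hx
    have : ∃ t : ℝ, 0 < t ∧ t < 1 ∧ x ∉ V i ∪ {x | x ∈ (k i).source ∧ ‖k i x‖ ≤ t} := by
      by_cases hs : x ∈ (k i).source
      · have h0 : 0 < ‖k i x‖ := norm_pos_iff.2 (H.ne_zero hs)
        refine ⟨‖k i x‖ / 2, by positivity, by linarith [H.lt_one hs], ?_⟩
        rintro (h | ⟨_, h⟩)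
        · exact hx i h
        · linarith
      · refine ⟨1 / 2, by norm_num, by norm_num, ?_⟩
        rintro (h | ⟨h, _⟩)
        · exact hx i h
        · exact hs h
    obtain ⟨t, ht0, ht1, hxt⟩ := this
    refine ⟨ptSet V k i t, liftSet V (V i ∪ {x | x ∈ (k i).source ∧ ‖k i x‖ ≤ t})ᶜ,
      H.isOpen_ptSet i ht1.le, H.isOpen_liftSet (H.cls i t ht0 ht1).isOpen_compl,
      pt_mem_self i ht0, (liftSet_toColl hx).2 hxt, ?_⟩
    rw [Set.disjoint_left]
    rintro a ha ⟨y, hy, h1, rfl⟩
    rw [← toColl_off hy, H.toColl_mem_ptSet ht1.le hy] at ha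
    exact h1 (Or.inr ⟨ha.1, ha.2.le⟩)
  refine ⟨?_⟩
  rintro (⟨x, hx⟩ | i) (⟨y, hy⟩ | j) hne
  · have hxy : x ≠ y := fun h => hne (by subst h; rfl)
    obtain ⟨u, v, hu, hv, hxu, hyv, hd⟩ := t2_separation hxy
    refine ⟨liftSet V u, liftSet V v, H.isOpen_liftSet hu, H.isOpen_liftSet hv,
      ⟨x, hx, hxu, rfl⟩, ⟨y, hy, hyv, rfl⟩, ?_⟩
    rw [Set.disjoint_left]
    rintro _ ⟨a, ha, h1, rfl⟩ ⟨b, hb, h2, h3⟩
    obtain rfl := Coll.off.inj h3
    exact Set.disjoint_left.1 hd h1 h2
  · obtain ⟨u, v, h1, h2, h3, h4, h5⟩ := key j x hx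
    rw [toColl_off hx] at h4
    exact ⟨v, u, h2, h1, h4, h3, h5.symm⟩
  · obtain ⟨u, v, h1, h2, h3, h4, h5⟩ := key i y hy
    rw [toColl_off hy] at h4
    exact ⟨u, v, h1, h2, h3, h4, h5⟩
  · have hij : i ≠ j := fun h => hne (by subst h; rfl)
    refine ⟨ptSet V k i 1, ptSet V k j 1, H.isOpen_ptSet i le_rfl, H.isOpen_ptSet j le_rfl,
      pt_mem_self i one_pos, pt_mem_self j one_pos, ?_⟩
    rw [Set.disjoint_left]
    rintro (⟨x, hx⟩ | l) h1 h2
    · rw [← toColl_off hx, H.toColl_mem_ptSet le_rfl hx] at h1 h2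
      exact Set.disjoint_left.1 (H.sep i j hij) h1.1 h2.1
    · exact hij ((H.pt_mem_ptSet le_rfl h1).trans (H.pt_mem_ptSet le_rfl h2).symm)

theorem Caps.continuous_toColl (H : Caps V k) :
    @Continuous _ _ _ (capParam H).topology (toColl V) := by
  letI := (capParam H).topology
  refine ⟨fun W hW => ?_⟩
  rw [isOpen_iff_mem_nhds]
  intro x hx
  by_cases hV : ∃ i, x ∈ V i
  · obtain ⟨i, hi⟩ := hV
    have hpt : (Coll.pt i : Coll V) ∈ W := by rw [← H.toColl_mem hi]; exact hx
    have h1 := hW (Sum.inr i)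
    have h2 : (0 : ℂ) ∈ (capParam H).U (Sum.inr i) ∩ (capParam H).p (Sum.inr i) ⁻¹' W := by
      refine ⟨by show ‖(0 : ℂ)‖ < 1; simp, ?_⟩
      show capP V k (Sum.inr i) 0 ∈ W
      rw [capP_inr_zero]; exact hpt
    obtain ⟨r, hr, hball⟩ := Metric.isOpen_iff.1 h1 0 h2
    have h3 := H.opn i (min r 1) (lt_min hr one_pos) (min_le_right _ _)
    refine mem_of_superset (h3.mem_nhds (Or.inl hi)) ?_
    rintro y (hy | ⟨hy1, hy2⟩)
    · show toColl V y ∈ W
      rw [H.toColl_mem hy]; exact hpt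
    · show toColl V y ∈ W
      have h4 : k i y ∈ Metric.ball (0 : ℂ) r := by
        rw [mem_ball_zero_iff]; exact lt_of_lt_of_le hy2 (min_le_left _ _)
      have h5 : capP V k (Sum.inr i) (k i y) ∈ W := (hball h4).2
      rwa [capP_inr (H.ne_zero hy1), (k i).left_inv hy1] at h5
  · have hV' : ∀ i, x ∉ V i := not_exists.1 hV
    have h1 := hW (Sum.inl x)
    have hs := mem_chart_source ℂ x
    have h2 : chartAt ℂ x x ∈ (capParam H).U (Sum.inl x) ∩ (capParam H).p (Sum.inl x) ⁻¹' W := by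
      refine ⟨⟨(chartAt ℂ x).map_source hs, ?_⟩, ?_⟩
      · rw [(chartAt ℂ x).left_inv hs]; exact hV'
      · show toColl V ((chartAt ℂ x).symm (chartAt ℂ x x)) ∈ W
        rw [(chartAt ℂ x).left_inv hs]; exact hx
    filter_upwards [(chartAt ℂ x).open_source.mem_nhds hs,
      ((chartAt ℂ x).continuousAt hs).eventually (h1.mem_nhds h2)] with y hy1 hy2
    have h3 : toColl V ((chartAt ℂ x).symm (chartAt ℂ x y)) ∈ W := hy2.2
    rwa [(chartAt ℂ x).left_inv hy1] at h3

theorem Caps.toColl_surjective (H : Caps V k) : Function.Surjective (toColl V) := by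
  rintro (⟨x, hx⟩ | i)
  · exact ⟨x, toColl_off hx⟩
  · obtain ⟨x, hx⟩ := H.nonempty i
    exact ⟨x, H.toColl_mem hx⟩

theorem Caps.arM_toColl (H : Caps V k) {x : S} (hx : ∀ i, x ∉ V i) :
    @ArM _ _ _ _ (capParam H).topology (capParam H).chartedSpace (toColl V) x := by
  letI := (capParam H).topology
  letI := (capParam H).chartedSpace
  haveI := (capParam H).areaAtlas
  have hs := mem_chart_source ℂ x
  have hU : chartAt ℂ x x ∈ (capParam H).U (Sum.inl x) := by
    refine ⟨(chartAt ℂ x).map_source hs, ?_⟩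
    rw [(chartAt ℂ x).left_inv hs]; exact hx
  have hp : (capParam H).p (Sum.inl x) (chartAt ℂ x x) = toColl V x := by
    show toColl V ((chartAt ℂ x).symm (chartAt ℂ x x)) = _
    rw [(chartAt ℂ x).left_inv hs]
  have hmem : toColl V x ∈ ((capParam H).chart (Sum.inl x)).source := ⟨_, hU, hp⟩
  rw [arM_iff (isCh_chartAt x) hs (isCh_of_mem_atlas ((capParam H).chart_mem_atlas (Sum.inl x)))
    hmem]
  refine ⟨H.continuous_toColl.continuousAt, (ar_id _).congr ?_⟩
  filter_upwards [((capParam H).openU (Sum.inl x)).mem_nhds hU] with z hz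
  exact ((capParam H).chart_apply hz).symm

theorem Caps.arM_out (H : Caps V k) (s₀ : S) {x : S} (hx : ∀ i, x ∉ V i) :
    @ArM _ _ (capParam H).topology (capParam H).chartedSpace _ _ (Coll.out s₀) (toColl V x) := by
  letI := (capParam H).topology
  letI := (capParam H).chartedSpace
  haveI := (capParam H).areaAtlas
  have hs := mem_chart_source ℂ x
  have hU : chartAt ℂ x x ∈ (capParam H).U (Sum.inl x) := by
    refine ⟨(chartAt ℂ x).map_source hs, ?_⟩
    rw [(chartAt ℂ x).left_inv hs]; exact hx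
  have hp : (capParam H).p (Sum.inl x) (chartAt ℂ x x) = toColl V x := by
    show toColl V ((chartAt ℂ x).symm (chartAt ℂ x x)) = _
    rw [(chartAt ℂ x).left_inv hs]
  have hmem : toColl V x ∈ ((capParam H).chart (Sum.inl x)).source := ⟨_, hU, hp⟩
  have hval : (capParam H).chart (Sum.inl x) (toColl V x) = chartAt ℂ x x := by
    rw [← hp]; exact (capParam H).chart_apply hU
  have hout : Coll.out s₀ (toColl V x) ∈ (chartAt ℂ x).source := by
    rw [out_toColl s₀ hx]; exact hs
  have hcont : ContinuousAt (Coll.out (V := V) s₀) (toColl V x) := by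
    have h1 : ∀ᶠ a in 𝓝 (toColl V x), Coll.out (V := V) s₀ a =
        (chartAt ℂ x).symm ((capParam H).chart (Sum.inl x) a) := by
      filter_upwards [((capParam H).chart (Sum.inl x)).open_source.mem_nhds hmem] with a ha
      obtain ⟨z, hz, rfl⟩ := ha
      rw [(capParam H).chart_apply hz]
      exact out_toColl s₀ hz.2
    have h2 : ContinuousAt (fun a => (chartAt ℂ x).symm ((capParam H).chart (Sum.inl x) a))
        (toColl V x) := by
      refine ContinuousAt.comp (g := (chartAt ℂ x).symm) ?_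
        (((capParam H).chart (Sum.inl x)).continuousAt hmem)
      rw [hval]
      exact (chartAt ℂ x).symm.continuousAt ((chartAt ℂ x).map_source hs)
    exact h2.congr (h1.mono fun a ha => ha.symm)
  rw [arM_iff (isCh_of_mem_atlas ((capParam H).chart_mem_atlas (Sum.inl x))) hmem
    (isCh_chartAt x) hout, hval]
  refine ⟨hcont, (ar_id _).congr ?_⟩
  filter_upwards [((capParam H).openU (Sum.inl x)).mem_nhds hU] with z hz
  show z = chartAt ℂ x (Coll.out s₀ (toColl V ((chartAt ℂ x).symm z)))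
  rw [out_toColl s₀ hz.2, (chartAt ℂ x).right_inv hz.1]

theorem Caps.cen_pt (H : Caps V k) (i : ι) :
    @Cen _ (capParam H).topology (capParam H).chartedSpace ((capParam H).chart (Sum.inr i))
      (Coll.pt i) := by
  letI := (capParam H).topology
  letI := (capParam H).chartedSpace
  haveI := (capParam H).areaAtlas
  have h0 : (0 : ℂ) ∈ (capParam H).U (Sum.inr i) := by show ‖(0 : ℂ)‖ < 1; simp
  have hp : (capParam H).p (Sum.inr i) 0 = Coll.pt i := capP_inr_zero i
  refine ⟨isCh_of_mem_atlas ((capParam H).chart_mem_atlas _), ⟨0, h0, hp⟩, ?_⟩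
  rw [← hp]
  exact (capParam H).chart_apply h0

theorem Caps.chart_pt_apply (H : Caps V k) {i : ι} {x : S} (hx : x ∈ (k i).source) :
    letI := (capParam H).topology
    (capParam H).chart (Sum.inr i) (toColl V x) = k i x := by
  have h1 : k i x ∈ (capParam H).U (Sum.inr i) := H.lt_one hx
  have h2 : (capParam H).p (Sum.inr i) (k i x) = toColl V x := by
    show capP V k (Sum.inr i) (k i x) = _
    rw [capP_inr (H.ne_zero hx), (k i).left_inv hx]
  rw [← h2]
  exact (capParam H).chart_apply h1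

end Pool.Agent.Work.MP_ac1d8d_gt
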