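import Mathlib
import Pool.Agent.Work.MP_ac1d8d_gt.Cap2

/-!
Swapping a half space with its image.
-/

set_option linter.all false
set_option autoImplicit false

namespace Pool.Agent.Work.MP_ac1d8d_gt

open scoped ContDiff Topology
open Filter Complex Set

variable {S : Type*} [TopologicalSpace S] [ChartedSpace ℂ S] 

/-- A closed set with a deleted neighborhood parametrized by the punctured disc. -/
structure HS (V : Set S) (k : OpenPartialHomeomorph S ℂ) : Prop where
  closed : IsClosed V
  nonempty : V.Nonempty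
  ch : IsCh k
  target : k.target = {w | w ≠ 0 ∧ ‖w‖ < 1}
  off : Disjoint k.source V
  opn : ∀ t : ℝ, 0 < t → t ≤ 1 → IsOpen (V ∪ {x | x ∈ k.source ∧ ‖k x‖ < t})
  cls : ∀ t : ℝ, 0 < t → t < 1 → IsClosed (V ∪ {x | x ∈ k.source ∧ ‖k x‖ ≤ t})

theorem Caps.of_HS {ι : Type*} [Finite ι] {V : ι → Set S} {k : ι → OpenPartialHomeomorph S ℂ}
    (h : ∀ i, HS (V i) (k i))
    (hd : ∀ i j, i ≠ j → Disjoint (V i ∪ (k i).source) (V j ∪ (k j).source)) : Caps V k where
  closed := isClosed_iUnion_of_finite fun i => (h i).closed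
  nonempty i := (h i).nonempty
  disj i j hij := (hd i j hij).mono subset_union_left subset_union_left
  ch i := (h i).ch
  target i := (h i).target
  off i j := by
    by_cases hij : i = j
    · subst hij; exact (h i).off
    · exact (hd i j hij).mono subset_union_right subset_union_left
  sep i j hij := (hd i j hij).mono subset_union_right subset_union_right
  opn i := (h i).opn
  cls i := (h i).cls

theorem HS.image [AreaAtlas S] {V : Set S} {k : OpenPartialHomeomorph S ℂ} (h : HS V k)
    {f : S ≃ₜ S} (hf : IsAut f) : HS (f '' V) (f.symm.toOpenPartialHomeomorph.trans k) where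
  closed := f.isClosedMap _ h.closed
  nonempty := h.nonempty.image f
  ch := by
    apply isCh_iff
    · intro z hz
      have hz' : f.symm z ∈ k.source := by simpa using hz
      exact ArM.comp (g := k) (f := f.symm) (h.ch.arM hz') (hf.2 z)
    · intro w hw
      have hw' : w ∈ k.target := by simpa using hw
      exact ArM.comp (g := f) (f := k.symm) (hf.1 _) (h.ch.arM_symm hw')
  target := by simp [h.target]
  off := by
    rw [Set.disjoint_left]
    rintro _ hx ⟨y, hy, rfl⟩
    have : f.symm (f y) ∈ k.source := by simpa using hx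
    rw [f.symm_apply_apply] at this
    exact Set.disjoint_left.1 h.off this hy
  opn t ht ht1 := by
    have : f '' V ∪ {x | x ∈ (f.symm.toOpenPartialHomeomorph.trans k).source ∧
        ‖(f.symm.toOpenPartialHomeomorph.trans k) x‖ < t}
        = f '' (V ∪ {x | x ∈ k.source ∧ ‖k x‖ < t}) := by
      rw [image_union]
      congr 1
      ext x
      simp only [OpenPartialHomeomorph.trans_source, Homeomorph.toOpenPartialHomeomorph_source,
        Homeomorph.toOpenPartialHomeomorph_apply, univ_inter, mem_preimage, mem_setOf_eq,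
        OpenPartialHomeomorph.coe_trans, Function.comp_apply, mem_image]
      constructor
      · rintro ⟨h1, h2⟩
        exact ⟨f.symm x, ⟨h1, h2⟩, f.apply_symm_apply x⟩
      · rintro ⟨y, ⟨h1, h2⟩, rfl⟩
        rw [f.symm_apply_apply]
        exact ⟨h1, h2⟩
    rw [this]
    exact f.isOpenMap _ (h.opn t ht ht1)
  cls t ht ht1 := by
    have : f '' V ∪ {x | x ∈ (f.symm.toOpenPartialHomeomorph.trans k).source ∧
        ‖(f.symm.toOpenPartialHomeomorph.trans k) x‖ ≤ t}
        = f '' (V ∪ {x | x ∈ k.source ∧ ‖k x‖ ≤ t}) := by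
      rw [image_union]
      congr 1
      ext x
      simp only [OpenPartialHomeomorph.trans_source, Homeomorph.toOpenPartialHomeomorph_source,
        Homeomorph.toOpenPartialHomeomorph_apply, univ_inter, mem_preimage, mem_setOf_eq,
        OpenPartialHomeomorph.coe_trans, Function.comp_apply, mem_image]
      constructor
      · rintro ⟨h1, h2⟩
        exact ⟨f.symm x, ⟨h1, h2⟩, f.apply_symm_apply x⟩
      · rintro ⟨y, ⟨h1, h2⟩, rfl⟩
        rw [f.symm_apply_apply]
        exact ⟨h1, h2⟩
    rw [this]
    exact f.isClosedMap _ (h.cls t ht ht1)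

section
variable [AreaAtlas S] {V : Fin 3 → Set S} {k : Fin 3 → OpenPartialHomeomorph S ℂ}

open scoped Classical in
/-- The swap. -/
noncomputable def swapFun (V : Fin 3 → Set S) (f : S ≃ₜ S) (φ : Coll V → Coll V) (x : S) : S :=
  if x ∈ V 0 then f x else if x ∈ V 1 then f.symm x else if x ∈ V 2 then x else
    Coll.out x (φ (toColl V x))

theorem swapFun_off {f : S ≃ₜ S} {φ : Coll V → Coll V} {x : S} (h : ∀ i, x ∉ V i) :
    swapFun V f φ x = Coll.out x (φ (toColl V x)) := by
  simp [swapFun, h 0, h 1, h 2]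

theorem out_off {s₀ : S} {x : S} (h : ∀ i, x ∉ V i) : Coll.out s₀ (Coll.off x h : Coll V) = x :=
  rfl

/-- The properties of the swap of the collapsed surface. -/
structure SwapData (H : Caps V k)
    (φ : letI := (capParam H).topology; Coll V ≃ₜ Coll V) : Prop where
  aut : letI := (capParam H).topology; letI := (capParam H).chartedSpace; ∀ a, ArM φ a
  g0 : letI := (capParam H).topology; ∀ᶠ a in 𝓝 (Coll.pt 0),
    φ a = ((capParam H).chart (Sum.inr 1)).symm ((capParam H).chart (Sum.inr 0) a)
  g1 : letI := (capParam H).topology; ∀ᶠ a in 𝓝 (Coll.pt 1),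
    φ a = ((capParam H).chart (Sum.inr 0)).symm ((capParam H).chart (Sum.inr 1) a)
  g2 : letI := (capParam H).topology; ∀ᶠ a in 𝓝 (Coll.pt 2), φ a = a

theorem SwapData.pt0 {H : Caps V k} {φ : letI := (capParam H).topology; Coll V ≃ₜ Coll V}
    (h : SwapData H φ) : letI := (capParam H).topology; φ (Coll.pt 0) = Coll.pt 1 := by
  letI := (capParam H).topology
  letI := (capParam H).chartedSpace
  have := h.g0.self_of_nhds
  rw [this, (H.cen_pt 0).zero, (H.cen_pt 1).symm_zero]

theorem SwapData.pt1 {H : Caps V k} {φ : letI := (capParam H).topology; Coll V ≃ₜ Coll V}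
    (h : SwapData H φ) : letI := (capParam H).topology; φ (Coll.pt 1) = Coll.pt 0 := by
  letI := (capParam H).topology
  letI := (capParam H).chartedSpace
  have := h.g1.self_of_nhds
  rw [this, (H.cen_pt 1).zero, (H.cen_pt 0).symm_zero]

theorem SwapData.pt2 {H : Caps V k} {φ : letI := (capParam H).topology; Coll V ≃ₜ Coll V}
    (h : SwapData H φ) : letI := (capParam H).topology; φ (Coll.pt 2) = Coll.pt 2 := by
  letI := (capParam H).topology
  exact h.g2.self_of_nhds

/-- The image of an uncollapsed point is uncollapsed. -/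
theorem SwapData.off {H : Caps V k} {φ : letI := (capParam H).topology; Coll V ≃ₜ Coll V}
    (h : SwapData H φ) {x : S} (hx : ∀ i, x ∉ V i) :
    letI := (capParam H).topology
    ∃ y, ∃ hy : ∀ i, y ∉ V i, φ (toColl V x) = Coll.off y hy := by
  letI := (capParam H).topology
  rcases hh : φ (toColl V x) with ⟨y, hy⟩ | i
  · exact ⟨y, hy, rfl⟩
  · exfalso
    fin_cases i
    · have := φ.injective (hh.trans h.pt1.symm)
      exact toColl_ne hx 1 this
    · have := φ.injective (hh.trans h.pt0.symm)
      exact toColl_ne hx 0 this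
    · have := φ.injective (hh.trans h.pt2.symm)
      exact toColl_ne hx 2 this

theorem SwapData.arM {H : Caps V k} {φ : letI := (capParam H).topology; Coll V ≃ₜ Coll V}
    (h : SwapData H φ) {f : S ≃ₜ S} (hf : IsAut f) (hV : V 1 = f '' V 0)
    (hk : k 1 = f.symm.toOpenPartialHomeomorph.trans (k 0)) (x : S) :
    letI := (capParam H).topology
    ArM (swapFun V f φ) x := by
  letI := (capParam H).topology
  letI := (capParam H).chartedSpace
  haveI := (capParam H).areaAtlas
  have hk1 : ∀ y, y ∈ (k 0).source → f y ∈ (k 1).source ∧ k 1 (f y) = k 0 y := by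
    intro y hy
    rw [hk]
    simp [hy]
  have hk2 : ∀ y, y ∈ (k 1).source → f.symm y ∈ (k 0).source ∧ k 0 (f.symm y) = k 1 y := by
    intro y hy
    rw [hk] at hy ⊢
    simp at hy
    exact ⟨hy, rfl⟩
  by_cases hx : ∀ i, x ∉ V i
  · obtain ⟨y, hy, hφ⟩ := h.off hx
    have h1 : ArM (toColl V) x := H.arM_toColl hx
    have h2 : ArM φ (toColl V x) := h.aut _
    have h3 : ArM (Coll.out (V := V) x) (φ (toColl V x)) := by
      rw [hφ, ← toColl_off hy]
      exact H.arM_out x hy
    have h4 : ArM (fun a => Coll.out x (φ (toColl V a))) x :=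
      ArM.comp (g := fun a => Coll.out x (φ a)) (f := toColl V)
        (ArM.comp (g := Coll.out x) (f := φ) h3 h2) h1
    refine h4.congr ?_
    have hcl : x ∈ (⋃ i, V i)ᶜ := by simpa using hx
    filter_upwards [H.closed.isOpen_compl.mem_nhds hcl] with a ha
    have ha' : ∀ i, a ∉ V i := by simpa using ha
    rw [swapFun_off ha']
    obtain ⟨y, hy, hφ⟩ := h.off ha'
    rw [hφ]; rfl
  · rw [not_forall] at hx
    obtain ⟨i, hi⟩ := hx
    rw [not_not] at hi
    have hq : toColl V x = Coll.pt i := H.toColl_mem hi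
    have hqc : Tendsto (toColl V) (𝓝 x) (𝓝 (Coll.pt i)) := by
      have := H.continuous_toColl.continuousAt (x := x)
      rwa [ContinuousAt, hq] at this
    have hnb : V i ∪ {x | x ∈ (k i).source ∧ ‖k i x‖ < 1} ∈ 𝓝 x :=
      (H.opn i 1 one_pos le_rfl).mem_nhds (Or.inl hi)
    have h3c : i = 0 ∨ i = 1 ∨ i = 2 := by fin_cases i <;> simp
    rcases h3c with rfl | rfl | rfl
    · refine (hf.1 x).congr ?_
      filter_upwards [hqc.eventually h.g0, hnb] with y h1 h2
      rcases h2 with h2 | ⟨h2, _⟩
      · simp only [swapFun]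
        rw [if_pos h2]
      · have hy : ∀ i, y ∉ V i := H.off' h2
        obtain ⟨h3, h4⟩ := hk1 y h2
        rw [swapFun_off hy, h1, H.chart_pt_apply h2, (capParam H).chart_symm_apply]
        show f y = Coll.out y (capP V k (Sum.inr 1) (k 0 y))
        rw [capP_inr (H.ne_zero h2), ← h4, (k 1).left_inv h3]
        exact (out_toColl y (H.off' h3)).symm
    · have hx0 : x ∉ V 0 := fun h0 => Set.disjoint_left.1 (H.disj 0 1 (by decide)) h0 hi
      refine (hf.2 x).congr ?_
      have hcl0 : ∀ᶠ y in 𝓝 x, y ∉ V 0 := by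
        have hcl : IsClosed (V 0) := by
          rw [← f.isClosed_image, ← hV]
          have h5 : V 1 = (⋃ i, V i) ∩ (V 1 ∪ {x | x ∈ (k 1).source ∧ ‖k 1 x‖ ≤ 1/2}) := by
            ext a
            constructor
            · intro ha
              exact ⟨mem_iUnion.2 ⟨1, ha⟩, Or.inl ha⟩
            · rintro ⟨ha, hb | hb⟩
              · exact hb
              · obtain ⟨j, hj⟩ := mem_iUnion.1 ha
                exact absurd hj (H.off' hb.1 j)
          rw [h5]
          exact H.closed.inter (H.cls 1 (1/2) (by norm_num) (by norm_num))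
        exact hcl.isOpen_compl.mem_nhds hx0
      filter_upwards [hqc.eventually h.g1, hnb, hcl0] with y h1 h2 h0
      rcases h2 with h2 | ⟨h2, _⟩
      · have h2' : y ∈ V 1 := h2
        simp only [swapFun]
        rw [if_neg h0, if_pos h2']
      · have hy : ∀ i, y ∉ V i := H.off' h2
        obtain ⟨h3, h4⟩ := hk2 y h2
        have h2' : y ∈ (k 1).source := h2
        rw [swapFun_off hy, h1, H.chart_pt_apply h2', (capParam H).chart_symm_apply]
        show f.symm y = Coll.out y (capP V k (Sum.inr 0) (k 1 y))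
        rw [capP_inr (H.ne_zero h2'), ← h4, (k 0).left_inv h3]
        exact (out_toColl y (H.off' h3)).symm
    · have hx2 : x ∈ V 2 := hi
      refine (arM_id x).congr ?_
      filter_upwards [hqc.eventually h.g2, hnb] with y h1 h2
      rcases h2 with h2 | ⟨h2, _⟩
      · have h2' : y ∈ V 2 := h2
        have h0 : y ∉ V 0 := fun h0 => Set.disjoint_left.1 (H.disj 0 2 (by decide)) h0 h2'
        have h1 : y ∉ V 1 := fun h0 => Set.disjoint_left.1 (H.disj 1 2 (by decide)) h0 h2'
        simp only [swapFun]
        rw [if_neg h0, if_neg h1, if_pos h2']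
      · have hy : ∀ i, y ∉ V i := H.off' h2
        rw [swapFun_off hy, h1, out_toColl y hy]

theorem SwapData.symm {H : Caps V k} {φ : letI := (capParam H).topology; Coll V ≃ₜ Coll V}
    (h : SwapData H φ)
    (haut : letI := (capParam H).topology; letI := (capParam H).chartedSpace
      ∀ a, ArM φ.symm a) : SwapData H (letI := (capParam H).topology; φ.symm) := by
  letI := (capParam H).topology
  letI := (capParam H).chartedSpace
  haveI := (capParam H).areaAtlas
  have key : ∀ i j : Fin 3, φ (Coll.pt i) = Coll.pt j →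
      (∀ᶠ a in 𝓝 (Coll.pt i), φ a =
        ((capParam H).chart (Sum.inr j)).symm ((capParam H).chart (Sum.inr i) a)) →
      ∀ᶠ a in 𝓝 (Coll.pt j), φ.symm a =
        ((capParam H).chart (Sum.inr i)).symm ((capParam H).chart (Sum.inr j) a) := by
    intro i j hij hg
    have ht : Tendsto φ.symm (𝓝 (Coll.pt j)) (𝓝 (Coll.pt i)) := by
      have := φ.symm.continuous.continuousAt (x := Coll.pt j)
      rwa [ContinuousAt, ← hij, φ.symm_apply_apply, hij] at this
    filter_upwards [ht.eventually hg,
      ht.eventually (((capParam H).chart (Sum.inr i)).open_source.mem_nhds (H.cen_pt i).mem),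
      ht.eventually ((H.cen_pt i).tendsto.eventually
        (((capParam H).chart (Sum.inr j)).open_target.mem_nhds (H.cen_pt j).zero_mem))]
      with w h1 h2 h3
    rw [φ.apply_symm_apply] at h1
    rw [h1, ((capParam H).chart (Sum.inr j)).right_inv h3, ← h1,
      ((capParam H).chart (Sum.inr i)).left_inv h2]
  refine ⟨haut, key 1 0 h.pt1 h.g1, key 0 1 h.pt0 h.g0, ?_⟩
  have ht : Tendsto φ.symm (𝓝 (Coll.pt 2)) (𝓝 (Coll.pt 2)) := by
    have := φ.symm.continuous.continuousAt (x := Coll.pt 2)
    rwa [ContinuousAt, ← h.pt2, φ.symm_apply_apply, h.pt2] at this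
  filter_upwards [ht.eventually h.g2] with w h1
  rw [φ.apply_symm_apply] at h1
  exact h1.symm

theorem SwapData.left_inv {H : Caps V k} {φ : letI := (capParam H).topology; Coll V ≃ₜ Coll V}
    (h : SwapData H φ) {f : S ≃ₜ S} (hV : V 1 = f '' V 0) (x : S) :
    letI := (capParam H).topology
    swapFun V f φ.symm (swapFun V f φ x) = x := by
  letI := (capParam H).topology
  have d01 := Set.disjoint_left.1 (H.disj 0 1 (by decide))
  have d02 := Set.disjoint_left.1 (H.disj 0 2 (by decide))
  have d12 := Set.disjoint_left.1 (H.disj 1 2 (by decide))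
  by_cases h0 : x ∈ V 0
  · have h1 : f x ∈ V 1 := by rw [hV]; exact mem_image_of_mem f h0
    have h2 : f x ∉ V 0 := fun h => d01 h h1
    have e1 : swapFun V f φ x = f x := by simp [swapFun, h0]
    rw [e1]
    simp [swapFun, h1, h2]
  · by_cases h1 : x ∈ V 1
    · have e1 : swapFun V f φ x = f.symm x := by simp [swapFun, h0, h1]
      have h2 : f.symm x ∈ V 0 := by
        rw [hV] at h1
        obtain ⟨y, hy, rfl⟩ := h1
        rwa [f.symm_apply_apply]
      rw [e1]
      simp [swapFun, h2]
    · by_cases h2 : x ∈ V 2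
      · have e1 : swapFun V f φ x = x := by simp [swapFun, h0, h1, h2]
        rw [e1]
        simp [swapFun, h0, h1, h2]
      · have hx : ∀ i, x ∉ V i := by
          intro i
          fin_cases i
          · exact h0
          · exact h1
          · exact h2
        obtain ⟨y, hy, hφ⟩ := h.off hx
        have e1 : swapFun V f φ x = y := by rw [swapFun_off hx, hφ]; rfl
        rw [e1, swapFun_off hy, toColl_off hy, ← hφ, φ.symm_apply_apply, out_toColl y hx]

/-- The half space `V 0` is swapped with `V 1 = f '' V 0`, keeping `V 2` fixed. -/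
theorem swap_half [T2Space S] [PreconnectedSpace S] (H : Caps V k) {f : S ≃ₜ S} (hf : IsAut f)
    (hV : V 1 = f '' V 0) (hk : k 1 = f.symm.toOpenPartialHomeomorph.trans (k 0)) :
    ∃ g : S ≃ₜ S, IsAut g ∧ (∀ x ∈ V 0, g x = f x) ∧ (∀ x ∈ V 2, g x = x) := by
  letI := (capParam H).topology
  letI := (capParam H).chartedSpace
  haveI := (capParam H).areaAtlas
  haveI : T2Space (Coll V) := H.t2
  haveI : PreconnectedSpace (Coll V) := by
    refine ⟨?_⟩
    rw [← H.toColl_surjective.range_eq]
    exact isPreconnected_range H.continuous_toColl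
  have hO : IsOpen ((univ : Set (Coll V)) \ {Coll.pt 2}) := isOpen_univ.sdiff isClosed_singleton
  have hOc : IsPreconnected ((univ : Set (Coll V)) \ {Coll.pt 2}) :=
    isPreconnected_diff_point isOpen_univ isPreconnected_univ (mem_univ _)
  have ne02 : (Coll.pt 0 : Coll V) ≠ Coll.pt 2 := by
    intro h; have := Coll.pt.inj h; revert this; decide
  have ne12 : (Coll.pt 1 : Coll V) ≠ Coll.pt 2 := by
    intro h; have := Coll.pt.inj h; revert this; decide
  have ne01 : (Coll.pt 0 : Coll V) ≠ Coll.pt 1 := by
    intro h; have := Coll.pt.inj h; revert this; decide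
  obtain ⟨φ, h1, h2, h3, h4⟩ := exists_swap hO hOc ⟨mem_univ _, ne02⟩ ⟨mem_univ _, ne12⟩ ne01
    (H.cen_pt 0) (H.cen_pt 1)
  have h5 : ∀ᶠ a in 𝓝 (Coll.pt 2 : Coll V), φ a = a := by
    obtain ⟨K, hK1, hK2, hK3⟩ := h2
    have : (Coll.pt 2 : Coll V) ∉ K := fun h => (hK2 h).2 rfl
    filter_upwards [hK1.isClosed.isOpen_compl.mem_nhds this] with a ha
    exact hK3 a ha
  have D : SwapData H φ := ⟨h1.1, h3, h4, h5⟩
  have D' : SwapData H φ.symm := D.symm h1.2
  have A := fun x => D.arM hf hV hk x
  have A' := fun x => D'.arM hf hV hk x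
  refine ⟨⟨⟨swapFun V f φ, swapFun V f φ.symm, fun x => D.left_inv hV x,
    fun x => D'.left_inv hV x⟩, ?_, ?_⟩, ⟨A, A'⟩, ?_, ?_⟩
  · exact continuous_iff_continuousAt.2 fun x => (A x).continuousAt
  · exact continuous_iff_continuousAt.2 fun x => (A' x).continuousAt
  · intro x hx
    show swapFun V f φ x = f x
    simp [swapFun, hx]
  · intro x hx
    show swapFun V f φ x = x
    have n0 : x ∉ V 0 := fun h => Set.disjoint_left.1 (H.disj 0 2 (by decide)) h hx
    have n1 : x ∉ V 1 := fun h => Set.disjoint_left.1 (H.disj 1 2 (by decide)) h hx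
    simp [swapFun, hx, n0, n1]

end

end Pool.Agent.Work.MP_ac1d8d_gt
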