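import Mathlib
import Pool.Agent.Work.MP_ac1d8d_gt.Model
import Pool.Agent.Work.MP_ac1d8d_gt.Swap

/-!
Half spaces of the surface.
-/

set_option linter.all false
set_option autoImplicit false

namespace Pool.Agent.Work.MP_ac1d8d_gt

open scoped ContDiff Topology ComplexConjugate
open Filter Complex Set

/-- The complement of the half space of level `t`. -/
def PP (γ : Gp) (l : Bool × Bool) (t : ℝ) : Set Surf :=
  (⋃ g ∈ {g : Gp | g ≠ γ ∧ γ⁻¹ * g ∉ W l}, tile g) ∪ mk γ '' {z | z ∈ UU ∧ t < ‖z - cc l‖}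

/-- The half space of level `t`. -/
def VV (γ : Gp) (l : Bool × Bool) (t : ℝ) : Set Surf := (PP γ l t)ᶜ

theorem isOpen_PP (γ : Gp) (l : Bool × Bool) (t : ℝ) : IsOpen (PP γ l t) := by
  refine (isOpen_biUnion fun g _ => isOpen_tile g).union (isOpen_mk_image ?_ fun z hz => hz.1)
  have h : IsOpen {z : ℂ | t < ‖z - cc l‖} := isOpen_lt continuous_const (by fun_prop)
  exact isOpen_UU.inter h

theorem isClosed_VV (γ : Gp) (l : Bool × Bool) (t : ℝ) : IsClosed (VV γ l t) :=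
  (isOpen_PP γ l t).isClosed_compl

theorem mem_PP {γ : Gp} {l : Bool × Bool} {t : ℝ} {x : Surf} :
    x ∈ PP γ l t ↔ (∃ g, g ≠ γ ∧ γ⁻¹ * g ∉ W l ∧ x ∈ tile g) ∨
      ∃ z, z ∈ UU ∧ t < ‖z - cc l‖ ∧ mk γ z = x := by
  simp only [PP, mem_union, mem_iUnion, mem_setOf_eq, exists_prop, mem_image]
  constructor
  · rintro (⟨g, ⟨h1, h2⟩, h3⟩ | ⟨z, ⟨h1, h2⟩, h3⟩)
    · exact Or.inl ⟨g, h1, h2, h3⟩
    · exact Or.inr ⟨z, h1, h2, h3⟩
  · rintro (⟨g, h1, h2, h3⟩ | ⟨z, h1, h2, h3⟩)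
    · exact Or.inl ⟨g, ⟨h1, h2⟩, h3⟩
    · exact Or.inr ⟨z, ⟨h1, h2⟩, h3⟩

/-- The tiles meeting a half space. -/
theorem VV_tile {γ g : Gp} {l : Bool × Bool} {t : ℝ} {x : Surf} (hx : x ∈ VV γ l t)
    (hg : x ∈ tile g) : g = γ ∨ γ⁻¹ * g ∈ W l := by
  by_contra h
  rw [not_or] at h
  exact hx (mem_PP.2 (Or.inl ⟨g, h.1, h.2, hg⟩))

theorem VV_tile' {γ g : Gp} {l : Bool × Bool} {t : ℝ} {x : Surf} (hx : x ∈ VV γ l t)
    (hg : x ∈ tile g) : ∃ v, (v = 1 ∨ v ∈ W l) ∧ g = γ * v := by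
  refine ⟨γ⁻¹ * g, ?_, by group⟩
  rcases VV_tile hx hg with h | h
  · left; rw [h]; group
  · exact Or.inr h

theorem mk_inj {g : Gp} {z w : ℂ} (hz : z ∈ UU) (hw : w ∈ UU) (h : mk g z = mk g w) : z = w :=
  surfParam.inj g hz hw h

theorem mem_tile_self {g : Gp} {z : ℂ} (hz : z ∈ UU) : mk g z ∈ tile g := ⟨z, hz, rfl⟩

theorem mk_mem_VV_zero {γ g : Gp} {l : Bool × Bool} {z : ℂ} (hz : z ∈ UU) :
    mk g z ∈ VV γ l 0 ↔ γ⁻¹ * g ∈ W l ∧ (g = γ * gl l → z ∉ PD (inv l)) := by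
  constructor
  · intro h
    have hne : g ≠ γ := by
      rintro rfl
      exact h (mem_PP.2 (Or.inr ⟨z, hz, norm_pos_iff.2 (hz l), rfl⟩))
    refine ⟨(VV_tile h (mem_tile_self hz)).resolve_left hne, ?_⟩
    rintro rfl hzp
    apply h
    refine mem_PP.2 (Or.inr ⟨glue (inv l) z, PD_subset _ (glue_mem hzp),
      norm_pos_iff.2 (PD_subset _ (glue_mem hzp) l), ?_⟩)
    have := mk_glue (g := γ * gl l) hzp
    rw [gl_inv] at this
    simpa using this
  · rintro ⟨h1, h2⟩ h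
    have hgγ : g ≠ γ := by
      rintro rfl
      rw [inv_mul_cancel] at h1
      exact one_notMem_W l h1
    have exit : ∀ m, z ∈ PD m → γ⁻¹ * (g * gl m) ∉ W l → False := by
      intro m hm hn
      rw [← mul_assoc] at hn
      obtain ⟨h3, h4⟩ := W_exit h1 hn
      subst h4
      exact h2 (by rw [← h3]; group) hm
    rcases mem_PP.1 h with ⟨g', h3, h4, h5⟩ | ⟨w, hw, h3, h4⟩
    · rw [mk_mem_tile hz] at h5
      rcases h5 with rfl | ⟨m, rfl, hm⟩
      · exact h4 h1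
      · exact exit m hm h4
    · have h5 : mk g z ∈ tile γ := ⟨w, hw, h4⟩
      rw [mk_mem_tile hz] at h5
      rcases h5 with h6 | ⟨m, h6, hm⟩
      · exact hgγ h6.symm
      · refine exit m hm ?_
        rw [← h6, inv_mul_cancel]
        exact one_notMem_W l

theorem mk_mem_VV_self {γ : Gp} {l : Bool × Bool} {t : ℝ} (ht : t ≤ 1) {z : ℂ}
    (hz : z ∈ UU) : mk γ z ∈ VV γ l t ↔ ‖z - cc l‖ ≤ t := by
  constructor
  · intro h
    by_contra hlt
    exact h (mem_PP.2 (Or.inr ⟨z, hz, not_le.1 hlt, rfl⟩))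
  · intro h hP
    rcases mem_PP.1 hP with ⟨g', h3, h4, h5⟩ | ⟨w, hw, h3, h4⟩
    · rw [mk_mem_tile hz] at h5
      rcases h5 with rfl | ⟨m, rfl, hm⟩
      · exact h3 rfl
      · by_cases hml : m = l
        · subst hml
          apply h4
          rw [inv_mul_cancel_left]
          exact gl_mem_W m
        · have := far_of_close hml hm.2.le
          linarith
    · rw [mk_inj hw hz h4] at h3
      linarith

theorem VV_eq_union {γ : Gp} {l : Bool × Bool} {t : ℝ} (ht0 : 0 ≤ t) (ht : t ≤ 1) :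
    VV γ l t = VV γ l 0 ∪ mk γ '' {z | z ∈ UU ∧ ‖z - cc l‖ ≤ t} := by
  ext x
  constructor
  · intro h
    by_cases hx : x ∈ tile γ
    · obtain ⟨z, hz, rfl⟩ := hx
      right
      exact ⟨z, ⟨hz, (mk_mem_VV_self ht hz).1 h⟩, rfl⟩
    · left
      intro hP
      rcases mem_PP.1 hP with ⟨g, h1, h2, h3⟩ | ⟨z, hz, _, rfl⟩
      · exact h (mem_PP.2 (Or.inl ⟨g, h1, h2, h3⟩))
      · exact hx ⟨z, hz, rfl⟩
  · rintro (h | ⟨z, ⟨hz, h1⟩, rfl⟩)
    · intro hP
      apply h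
      rcases mem_PP.1 hP with h1 | ⟨z, hz, h1, rfl⟩
      · exact mem_PP.2 (Or.inl h1)
      · exact mem_PP.2 (Or.inr ⟨z, hz, lt_of_le_of_lt ht0 h1, rfl⟩)
    · exact (mk_mem_VV_self ht hz).2 h1

/-- The half space with its open collar of width `t` is open. -/
theorem VV_collar {γ : Gp} {l : Bool × Bool} {t : ℝ} (ht0 : 0 < t) (ht : t ≤ 1) :
    VV γ l 0 ∪ mk γ '' {z | z ∈ PD l ∧ ‖z - cc l‖ < t} =
      PP (γ * gl l) (inv l) (Real.sqrt (1 - t ^ 2)) := by
  have hs0 : 0 ≤ 1 - t ^ 2 := by nlinarith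
  have hdual : ∀ g : Gp, (γ * gl l)⁻¹ * g ∉ W (inv l) ↔ γ⁻¹ * g ∈ W l := by
    intro g
    rw [mul_inv_rev, mul_assoc, ← compl_W, not_not]
  have hiff : ∀ z : ℂ, Real.sqrt (1 - t ^ 2) < ‖z‖ ↔ 1 - t ^ 2 < ‖z‖ ^ 2 := by
    intro z
    rw [← not_le, Real.le_sqrt (norm_nonneg z), not_le]
    exact hs0
  ext x
  constructor
  · rintro (h | ⟨z, ⟨hz, h1⟩, rfl⟩)
    · obtain ⟨g, z, hz, rfl⟩ := exists_mk x
      rw [mk_mem_VV_zero hz] at h
      by_cases hg : g = γ * gl l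
      · subst hg
        refine mem_PP.2 (Or.inr ⟨z, hz, ?_, rfl⟩)
        rw [hiff]
        have : ¬ ‖z - cc (inv l)‖ < 1 := fun hlt => h.2 rfl ⟨hz _, hlt⟩
        rw [not_lt] at this
        nlinarith
      · exact mem_PP.2 (Or.inl ⟨g, hg, (hdual g).2 h.1, mem_tile_self hz⟩)
    · refine mem_PP.2 (Or.inr ⟨glue l z, PD_subset _ (glue_mem hz), ?_, mk_glue hz⟩)
      rw [hiff, glue_sub, norm_iot hz.1 hz.2]
      nlinarith [norm_nonneg (z - cc l)]
  · intro h
    rcases mem_PP.1 h with ⟨g, h1, h2, ⟨z, hz, rfl⟩⟩ | ⟨z, hz, h1, rfl⟩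
    · left
      rw [mk_mem_VV_zero hz]
      exact ⟨(hdual g).1 h2, fun h => absurd h h1⟩
    · by_cases hp : z ∈ PD (inv l)
      · right
        refine ⟨glue (inv l) z, ⟨?_, ?_⟩, ?_⟩
        · have := glue_mem hp
          rwa [inv_inv'] at this
        · have h2 := glue_sub (inv l) z
          rw [inv_inv'] at h2
          rw [h2]
          have h3 := norm_iot hp.1 hp.2
          rw [hiff] at h1
          have h4 : ‖iot (z - cc (inv l))‖ ^ 2 < t ^ 2 := by linarith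
          exact lt_of_pow_lt_pow_left₀ 2 ht0.le h4
        · have := mk_glue (g := γ * gl l) hp
          rw [gl_inv] at this
          simpa using this
      · left
        rw [mk_mem_VV_zero hz]
        refine ⟨?_, fun _ => hp⟩
        rw [inv_mul_cancel_left]
        exact gl_mem_W l

/-- The chart of the collar. -/
noncomputable def kk (γ : Gp) (l : Bool × Bool) : OpenPartialHomeomorph Surf ℂ :=
  trCh (((surfParam.chart γ).symm.restr (PD l)).symm) (cc l)

theorem kk_source (γ : Gp) (l : Bool × Bool) : (kk γ l).source = mk γ '' PD l := by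
  rw [kk, trCh_source]
  ext x
  simp only [OpenPartialHomeomorph.symm_source, OpenPartialHomeomorph.restr_target,
    OpenPartialHomeomorph.symm_target, OpenPartialHomeomorph.symm_symm,
    (isOpen_PD l).interior_eq, mem_inter_iff, mem_preimage]
  constructor
  · rintro ⟨⟨z, hz, rfl⟩, h⟩
    refine ⟨z, ?_, rfl⟩
    have := surfParam.chart_apply (j := γ) hz
    change (surfParam.chart γ) (mk γ z) = z at this
    have h' : (surfParam.chart γ) (mk γ z) ∈ PD l := h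
    rwa [this] at h'
  · rintro ⟨z, hz, rfl⟩
    refine ⟨⟨z, PD_subset _ hz, rfl⟩, ?_⟩
    have := surfParam.chart_apply (j := γ) (PD_subset _ hz)
    change (surfParam.chart γ) (mk γ z) = z at this
    show (surfParam.chart γ) (mk γ z) ∈ PD l
    rwa [this]

theorem kk_apply (γ : Gp) (l : Bool × Bool) {z : ℂ} (hz : z ∈ PD l) :
    kk γ l (mk γ z) = z - cc l := by
  have := surfParam.chart_apply (j := γ) (PD_subset _ hz)
  change (surfParam.chart γ) (mk γ z) = z at this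
  show (surfParam.chart γ) (mk γ z) - cc l = _
  rw [this]

theorem kk_target (γ : Gp) (l : Bool × Bool) : (kk γ l).target = {w | w ≠ 0 ∧ ‖w‖ < 1} := by
  ext w
  rw [kk, trCh_target]
  simp only [OpenPartialHomeomorph.symm_target, OpenPartialHomeomorph.restr_source,
    OpenPartialHomeomorph.symm_source, (isOpen_PD l).interior_eq, mem_inter_iff, mem_setOf_eq]
  rw [surfParam.chart_target]
  have h1 : w + cc l ∈ PD l ↔ w ≠ 0 ∧ ‖w‖ < 1 := by
    simp [PD]
  rw [h1]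
  constructor
  · exact fun h => h.2
  · intro h
    exact ⟨PD_subset l (h1.2 h), h⟩

theorem isCh_kk (γ : Gp) (l : Bool × Bool) : IsCh (kk γ l) := by
  apply IsCh.trCh
  have hc : IsCh (surfParam.chart γ) := isCh_of_mem_atlas (surfParam.chart_mem_atlas γ)
  apply isCh_iff
  · intro x hx
    refine hc.arM ?_
    simp only [OpenPartialHomeomorph.symm_source, OpenPartialHomeomorph.restr_target,
      OpenPartialHomeomorph.symm_target] at hx
    exact hx.1
  · intro z hz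
    refine hc.arM_symm ?_
    simp only [OpenPartialHomeomorph.symm_target, OpenPartialHomeomorph.restr_source,
      OpenPartialHomeomorph.symm_source] at hz
    exact hz.1

theorem VV_nonempty (γ : Gp) (l : Bool × Bool) : (VV γ l 0).Nonempty := by
  refine ⟨mk (γ * gl l) 0, ?_⟩
  rw [mk_mem_VV_zero zero_mem_UU]
  refine ⟨by rw [inv_mul_cancel_left]; exact gl_mem_W l, fun _ h => ?_⟩
  have h2 := h.2
  have h3 := h.1
  rw [zero_sub, norm_neg] at h2
  revert h2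
  rcases l with ⟨a, b⟩
  cases a <;> cases b <;> norm_num [cc, cr, inv]

theorem hs_VV (γ : Gp) (l : Bool × Bool) : HS (VV γ l 0) (kk γ l) where
  closed := isClosed_VV γ l 0
  nonempty := VV_nonempty γ l
  ch := isCh_kk γ l
  target := kk_target γ l
  off := by
    rw [kk_source, Set.disjoint_left]
    rintro _ ⟨z, hz, rfl⟩ h
    rw [mk_mem_VV_zero (PD_subset _ hz), inv_mul_cancel] at h
    exact one_notMem_W l h.1
  opn t ht ht1 := by
    have : {x | x ∈ (kk γ l).source ∧ ‖kk γ l x‖ < t} = mk γ '' {z | z ∈ PD l ∧ ‖z - cc l‖ < t} := by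
      ext x
      simp only [mem_setOf_eq, kk_source]
      constructor
      · rintro ⟨⟨z, hz, rfl⟩, h⟩
        rw [kk_apply _ _ hz] at h
        exact ⟨z, ⟨hz, h⟩, rfl⟩
      · rintro ⟨z, ⟨hz, h⟩, rfl⟩
        refine ⟨⟨z, hz, rfl⟩, ?_⟩
        rwa [kk_apply _ _ hz]
    rw [this, VV_collar ht ht1]
    exact isOpen_PP _ _ _
  cls t ht ht1 := by
    have : {x | x ∈ (kk γ l).source ∧ ‖kk γ l x‖ ≤ t} = mk γ '' {z | z ∈ UU ∧ ‖z - cc l‖ ≤ t} := by
      ext x
      simp only [mem_setOf_eq, kk_source]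
      constructor
      · rintro ⟨⟨z, hz, rfl⟩, h⟩
        rw [kk_apply _ _ hz] at h
        exact ⟨z, ⟨PD_subset _ hz, h⟩, rfl⟩
      · rintro ⟨z, ⟨hz, h⟩, rfl⟩
        have hz' : z ∈ PD l := ⟨hz l, lt_of_le_of_lt h ht1⟩
        refine ⟨⟨z, hz', rfl⟩, ?_⟩
        rwa [kk_apply _ _ hz']
    rw [this, ← VV_eq_union ht.le ht1.le]
    exact isClosed_VV _ _ _

theorem VV_source_subset (γ : Gp) (l : Bool × Bool) :
    VV γ l 0 ∪ (kk γ l).source ⊆ VV γ l 1 := by
  rw [VV_eq_union zero_le_one le_rfl, kk_source]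
  apply union_subset_union_right
  rintro _ ⟨z, hz, rfl⟩
  exact ⟨z, ⟨PD_subset _ hz, hz.2.le⟩, rfl⟩

/-- The open half space is a union of tiles. -/
theorem VV_tiles (γ : Gp) (l : Bool × Bool) :
    VV γ l 0 ∪ mk γ '' PD l = ⋃ g ∈ {g : Gp | γ⁻¹ * g ∈ W l}, tile g := by
  ext x
  simp only [mem_union, mem_iUnion, mem_setOf_eq, exists_prop]
  constructor
  · rintro (h | ⟨z, hz, rfl⟩)
    · obtain ⟨g, z, hz, rfl⟩ := exists_mk x
      exact ⟨g, ((mk_mem_VV_zero hz).1 h).1, mem_tile_self hz⟩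
    · refine ⟨γ * gl l, by rw [inv_mul_cancel_left]; exact gl_mem_W l, ?_⟩
      rw [mk_mem_tile (PD_subset _ hz)]
      exact Or.inr ⟨l, rfl, hz⟩
  · rintro ⟨g, hg, ⟨z, hz, rfl⟩⟩
    by_cases h : g = γ * gl l ∧ z ∈ PD (inv l)
    · right
      obtain ⟨rfl, hp⟩ := h
      refine ⟨glue (inv l) z, ?_, ?_⟩
      · have := glue_mem hp
        rwa [inv_inv'] at this
      · have := mk_glue (g := γ * gl l) hp
        rw [gl_inv] at this
        simpa using this
    · left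
      rw [mk_mem_VV_zero hz]
      exact ⟨hg, fun h1 h2 => h ⟨h1, h2⟩⟩

theorem VV_one (γ : Gp) (l : Bool × Bool) :
    VV γ l 1 = (⋃ g ∈ {g : Gp | γ⁻¹ * g ∈ W l}, tile g) ∪ mk γ '' {z | z ∈ UU ∧ ‖z - cc l‖ ≤ 1} := by
  rw [← VV_tiles, VV_eq_union zero_le_one le_rfl, union_assoc]
  congr 1
  rw [← image_union]
  congr 1
  ext z
  simp only [mem_setOf_eq, mem_union]
  constructor
  · exact fun h => Or.inr h
  · rintro (h | h)
    · exact ⟨PD_subset _ h, h.2.le⟩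
    · exact h

end Pool.Agent.Work.MP_ac1d8d_gt
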