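import Mathlib
import Pool.Agent.Work.MP_ac1d8d_gt.Surf

/-!
The infinite swindle.
-/

set_option linter.all false
set_option autoImplicit false

namespace Pool.Agent.Work.MP_ac1d8d_gt

open scoped ContDiff Topology
open Filter Complex Set

variable {X : Type*} [TopologicalSpace X] [ChartedSpace ℂ X] [AreaAtlas X]

open scoped Classical in
/-- The infinite product of the conjugates of `f`. -/
noncomputable def swFun (Z : Set X) (φ : ℕ → X ≃ₜ X) (f : X → X) (x : X) : X :=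
  if h : ∃ k, (φ k).symm x ∈ Z then φ h.choose (f ((φ h.choose).symm x)) else x

/-- Local finiteness of the translates. -/
def LocFin (Z : Set X) (φ : ℕ → X ≃ₜ X) : Prop :=
  ∀ x, ∃ k, ∀ᶠ y in 𝓝 x, ∀ j, (φ j).symm y ∈ Z → j = k

variable {Z : Set X} {φ : ℕ → X ≃ₜ X}

theorem LocFin.unique (H : LocFin Z φ) {x : X} {i j : ℕ} (hi : (φ i).symm x ∈ Z)
    (hj : (φ j).symm x ∈ Z) : i = j := by
  obtain ⟨k, hk⟩ := H x
  have := hk.self_of_nhds
  rw [this i hi, this j hj]

theorem swFun_of_mem (H : LocFin Z φ) {f : X → X} {x : X} {k : ℕ} (h : (φ k).symm x ∈ Z) :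
    swFun Z φ f x = φ k (f ((φ k).symm x)) := by
  have hex : ∃ k, (φ k).symm x ∈ Z := ⟨k, h⟩
  have : hex.choose = k := H.unique hex.choose_spec h
  rw [swFun, dif_pos hex, this]

theorem swFun_of_notMem {f : X → X} {x : X} (h : ∀ k, (φ k).symm x ∉ Z) :
    swFun Z φ f x = x := by
  rw [swFun, dif_neg (not_exists.2 h)]

theorem swFun_local (H : LocFin Z φ) {f : X → X} (hf : ∀ x, x ∉ Z → f x = x) (x : X) :
    ∃ k, ∀ᶠ y in 𝓝 x, swFun Z φ f y = φ k (f ((φ k).symm y)) := by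
  obtain ⟨k, hk⟩ := H x
  refine ⟨k, ?_⟩
  filter_upwards [hk] with y hy
  by_cases h : (φ k).symm y ∈ Z
  · exact swFun_of_mem H h
  · rw [swFun_of_notMem, hf _ h, (φ k).apply_symm_apply]
    intro j hj
    have := hy j hj
    subst this
    exact h hj

theorem preserves' {f : X ≃ₜ X} (hf : ∀ x, x ∉ Z → f x = x) {z : X} (hz : z ∈ Z) :
    f z ∈ Z := by
  by_contra hn
  have := f.injective (hf _ hn)
  rw [this] at hn
  exact hn hz

theorem symm_fix' {f : X ≃ₜ X} (hf : ∀ x, x ∉ Z → f x = x) (z : X) (hz : z ∉ Z) :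
    f.symm z = z := by rw [Homeomorph.symm_apply_eq, hf z hz]

theorem swFun_inv (H : LocFin Z φ) {f : X ≃ₜ X} (hf : ∀ x, x ∉ Z → f x = x) (x : X) :
    swFun Z φ f.symm (swFun Z φ f x) = x := by
  by_cases h : ∃ k, (φ k).symm x ∈ Z
  · obtain ⟨k, hk⟩ := h
    rw [swFun_of_mem H hk]
    have h2 : (φ k).symm (φ k (f ((φ k).symm x))) ∈ Z := by
      rw [(φ k).symm_apply_apply]
      exact preserves' hf hk
    rw [swFun_of_mem H h2, (φ k).symm_apply_apply, f.symm_apply_apply, (φ k).apply_symm_apply]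
  · rw [not_exists] at h
    rw [swFun_of_notMem (f := f) h, swFun_of_notMem h]

theorem swFun_arM (H : LocFin Z φ) (hφ : ∀ k, IsAut (φ k)) {f : X ≃ₜ X} (hfa : ∀ x, ArM f x)
    (hf : ∀ x, x ∉ Z → f x = x) (x : X) : ArM (swFun Z φ f) x := by
  obtain ⟨k, hk⟩ := swFun_local H hf x
  have h1 : ArM (φ k).symm x := (hφ k).2 x
  have h2 : ArM (fun y => f ((φ k).symm y)) x := ArM.comp (g := f) (f := (φ k).symm) (hfa _) h1
  have h3 : ArM (fun y => φ k (f ((φ k).symm y))) x :=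
    ArM.comp (g := φ k) (f := fun y => f ((φ k).symm y)) ((hφ k).1 _) h2
  exact h3.congr (hk.mono fun y hy => hy.symm)

/-- The infinite product. -/
noncomputable def swHomeo (H : LocFin Z φ) (hφ : ∀ k, IsAut (φ k)) (f : X ≃ₜ X) (hfa : IsAut f)
    (hf : ∀ x, x ∉ Z → f x = x) : X ≃ₜ X where
  toFun := swFun Z φ f
  invFun := swFun Z φ f.symm
  left_inv := swFun_inv H hf
  right_inv := swFun_inv (f := f.symm) H (symm_fix' hf)
  continuous_toFun := continuous_iff_continuousAt.2 fun x =>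
    (swFun_arM H hφ hfa.1 hf x).continuousAt
  continuous_invFun := continuous_iff_continuousAt.2 fun x =>
    (swFun_arM H hφ (f := f.symm) hfa.2 (symm_fix' hf) x).continuousAt

/-- The swindle: `f` is a commutator. -/
theorem swindle (H : LocFin Z φ) (hφ : ∀ k, IsAut (φ k)) {s : X ≃ₜ X} (hs : IsAut s)
    (h0 : ∀ x, φ 0 x = x) (hsucc : ∀ k x, φ (k + 1) x = s (φ k x))
    {f : X ≃ₜ X} (hfa : IsAut f) (hf : ∀ x, x ∉ Z → f x = x) :
    ∃ F : X ≃ₜ X, IsAut F ∧ f = F * s * F⁻¹ * s⁻¹ := by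
  have h0' : ∀ x, (φ 0).symm x = x := fun x => by rw [Homeomorph.symm_apply_eq, h0]
  have hsucc' : ∀ k x, (φ (k + 1)).symm (s x) = (φ k).symm x := fun k x => by
    rw [Homeomorph.symm_apply_eq, hsucc, (φ k).apply_symm_apply]
  refine ⟨swHomeo H hφ f hfa hf, ⟨swFun_arM H hφ hfa.1 hf,
    swFun_arM H hφ (f := f.symm) hfa.2 (symm_fix' hf)⟩, ?_⟩
  ext x
  show f x = swFun Z φ f (s (swFun Z φ f.symm (s.symm x)))
  obtain ⟨y, rfl⟩ := s.surjective x
  rw [s.symm_apply_apply]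
  by_cases h : ∃ k, (φ k).symm y ∈ Z
  · obtain ⟨k, hk⟩ := h
    rw [swFun_of_mem H hk]
    have h2 : (φ (k + 1)).symm (s (φ k (f.symm ((φ k).symm y)))) ∈ Z := by
      rw [hsucc', (φ k).symm_apply_apply]
      exact preserves' (symm_fix' hf) hk
    rw [swFun_of_mem H h2, hsucc', (φ k).symm_apply_apply, f.apply_symm_apply, hsucc,
      (φ k).apply_symm_apply]
    apply hf
    intro hZ
    have h3 : (φ 0).symm (s y) ∈ Z := by rwa [h0']
    have h4 : (φ (k + 1)).symm (s y) ∈ Z := by rwa [hsucc']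
    have := H.unique h3 h4
    omega
  · rw [not_exists] at h
    rw [swFun_of_notMem h]
    by_cases hZ : s y ∈ Z
    · have h3 : (φ 0).symm (s y) ∈ Z := by rwa [h0']
      rw [swFun_of_mem H h3, h0', h0]
    · rw [swFun_of_notMem, hf _ hZ]
      intro k
      cases k with
      | zero => rwa [h0']
      | succ k => rw [hsucc']; exact h k

end Pool.Agent.Work.MP_ac1d8d_gt
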