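import Mathlib
import Pool.Agent.Work.MP_ac1d8d_gt.Half
import Pool.Agent.Work.MP_ac1d8d_gt.Swindle

/-!
The action of the free group, and the commutator property for maps supported in a half space.
-/

set_option linter.all false
set_option autoImplicit false

namespace Pool.Agent.Work.MP_ac1d8d_gt

open scoped ContDiff Topology ComplexConjugate
open Filter Complex Set

theorem Rel.mul {g g' : Gp} {z z' : ℂ} (h : Rel g z g' z') (δ : Gp) :
    Rel (δ * g) z (δ * g') z' := by
  rcases h with ⟨rfl, rfl⟩ | ⟨l, h1, h2, h3⟩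
  · exact Or.inl ⟨rfl, rfl⟩
  · exact Or.inr ⟨l, by rw [h1, mul_assoc], h2, h3⟩

/-- The left action. -/
def actFun (δ : Gp) (x : Surf) : Surf :=
  Quotient.map (sa := relSetoid) (sb := relSetoid) (fun a : Pt => (⟨δ * a.g, a.z, a.h⟩ : Pt))
    (fun a b (h : Rel a.g a.z b.g b.z) => h.mul δ) x

theorem actFun_mk (δ g : Gp) {z : ℂ} (hz : z ∈ UU) : actFun δ (mk g z) = mk (δ * g) z := by
  rw [mk_of_mem _ hz, mk_of_mem _ hz]
  rfl

theorem actFun_actFun (δ δ' : Gp) (x : Surf) : actFun δ (actFun δ' x) = actFun (δ * δ') x := by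
  obtain ⟨g, z, hz, rfl⟩ := exists_mk x
  rw [actFun_mk _ _ hz, actFun_mk _ _ hz, actFun_mk _ _ hz, mul_assoc]

theorem actFun_one (x : Surf) : actFun 1 x = x := by
  obtain ⟨g, z, hz, rfl⟩ := exists_mk x
  rw [actFun_mk _ _ hz, one_mul]

theorem arM_of_mk {F : Surf → Surf} {g g' : Gp} {z : ℂ} (hz : z ∈ UU)
    (h : ∀ᶠ w in 𝓝 z, F (mk g w) = mk g' w) : ArM F (mk g z) := by
  have hc : IsCh (surfParam.chart g) := isCh_of_mem_atlas (surfParam.chart_mem_atlas g)
  have hc' : IsCh (surfParam.chart g') := isCh_of_mem_atlas (surfParam.chart_mem_atlas g')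
  have hs : mk g z ∈ (surfParam.chart g).source := ⟨z, hz, rfl⟩
  have hv : (surfParam.chart g) (mk g z) = z := surfParam.chart_apply (j := g) hz
  have h1 : ArM (surfParam.chart g) (mk g z) := hc.arM hs
  have h2 : ArM (surfParam.chart g').symm ((surfParam.chart g) (mk g z)) := by
    rw [hv]
    exact hc'.arM_symm hz
  have h3 : ArM (fun x => (surfParam.chart g').symm ((surfParam.chart g) x)) (mk g z) :=
    ArM.comp (g := (surfParam.chart g').symm) (f := surfParam.chart g) h2 h1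
  refine h3.congr ?_
  have ht : Tendsto (surfParam.chart g) (𝓝 (mk g z)) (𝓝 z) := by
    have := (surfParam.chart g).continuousAt hs
    rwa [ContinuousAt, hv] at this
  filter_upwards [(surfParam.chart g).open_source.mem_nhds hs, ht.eventually h] with x hx hx2
  obtain ⟨w, hw, rfl⟩ := hx
  have hv' : (surfParam.chart g) (mk g w) = w := surfParam.chart_apply (j := g) hw
  change (surfParam.chart g').symm ((surfParam.chart g) (mk g w)) = F (mk g w)
  change F (mk g ((surfParam.chart g) (mk g w))) = mk g' ((surfParam.chart g) (mk g w)) at hx2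
  rw [hv'] at hx2 ⊢
  rw [hx2]
  rfl

theorem actFun_arM (δ : Gp) (x : Surf) : ArM (actFun δ) x := by
  obtain ⟨g, z, hz, rfl⟩ := exists_mk x
  refine arM_of_mk (g' := δ * g) hz ?_
  filter_upwards [isOpen_UU.mem_nhds hz] with w hw
  exact actFun_mk δ g hw

/-- The left action by homeomorphisms. -/
def act (δ : Gp) : Surf ≃ₜ Surf where
  toFun := actFun δ
  invFun := actFun δ⁻¹
  left_inv x := by rw [actFun_actFun, inv_mul_cancel, actFun_one]
  right_inv x := by rw [actFun_actFun, mul_inv_cancel, actFun_one]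
  continuous_toFun := continuous_iff_continuousAt.2 fun x => (actFun_arM δ x).continuousAt
  continuous_invFun := continuous_iff_continuousAt.2 fun x => (actFun_arM δ⁻¹ x).continuousAt

theorem isAut_act (δ : Gp) : IsAut (act δ) := ⟨actFun_arM δ, actFun_arM δ⁻¹⟩

theorem act_mk (δ g : Gp) {z : ℂ} (hz : z ∈ UU) : act δ (mk g z) = mk (δ * g) z :=
  actFun_mk δ g hz

theorem act_mul (δ δ' : Gp) : act (δ * δ') = act δ * act δ' := by
  ext x
  exact (actFun_actFun δ δ' x).symm

theorem act_symm_apply (δ : Gp) (x : Surf) : (act δ).symm x = act δ⁻¹ x := rfl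

theorem act_tile {δ g : Gp} {x : Surf} : act δ x ∈ tile (δ * g) ↔ x ∈ tile g := by
  obtain ⟨g', z, hz, rfl⟩ := exists_mk x
  rw [act_mk _ _ hz, mk_mem_tile hz, mk_mem_tile hz]
  constructor
  · rintro (h | ⟨l, h, h2⟩)
    · exact Or.inl (mul_left_cancel h)
    · exact Or.inr ⟨l, mul_left_cancel (by rw [h, mul_assoc]), h2⟩
  · rintro (h | ⟨l, h, h2⟩)
    · exact Or.inl (by rw [h])
    · exact Or.inr ⟨l, by rw [h, mul_assoc], h2⟩

/-- The group of all area preserving homeomorphisms. -/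
def AutGp (X : Type*) [TopologicalSpace X] [ChartedSpace ℂ X] [AreaAtlas X] :
    Subgroup (X ≃ₜ X) where
  carrier := {φ | IsAut φ}
  mul_mem' {a b} ha hb := IsAut.trans (φ := b) (ψ := a) hb ha
  one_mem' := isAut_refl
  inv_mem' {a} ha := IsAut.symm ha

theorem mem_autGp {X : Type*} [TopologicalSpace X] [ChartedSpace ℂ X] [AreaAtlas X]
    {φ : X ≃ₜ X} : φ ∈ AutGp X ↔ IsAut φ := Iff.rfl

/-- The commutator subgroup, as a subgroup of the homeomorphisms. -/
noncomputable def Com : Subgroup (Surf ≃ₜ Surf) := ⁅AutGp Surf, AutGp Surf⁆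

theorem com_le : Com ≤ AutGp Surf := Subgroup.commutator_le_self _

theorem locFin_aux {l m : Bool × Bool} (h : m.1 ≠ l.1) {γ : Gp} :
    LocFin (VV γ l 1) (fun k => act (γ * gl m ^ k * γ⁻¹)) := by
  intro x
  obtain ⟨g, z, hz, rfl⟩ := exists_mk x
  have huniq : ∀ i j : ℕ, (∃ v : Gp, (v = 1 ∨ v ∈ W l) ∧ γ⁻¹ * g = gl m ^ i * v) →
      (∃ v : Gp, (v = 1 ∨ v ∈ W l) ∧ γ⁻¹ * g = gl m ^ j * v) → i = j := by
    have key : ∀ i j : ℕ, i < j → (∃ v : Gp, (v = 1 ∨ v ∈ W l) ∧ γ⁻¹ * g = gl m ^ i * v) →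
      (∃ v : Gp, (v = 1 ∨ v ∈ W l) ∧ γ⁻¹ * g = gl m ^ j * v) → False := by
      rintro i j hij ⟨v, hv, e⟩ ⟨v', hv', e'⟩
      have h1 : v = gl m ^ (j - i) * v' := by
        have h2 : gl m ^ i * v = gl m ^ i * (gl m ^ (j - i) * v') := by
          rw [← e, e', ← mul_assoc, ← pow_add]
          congr 2
          omega
        exact mul_left_cancel h2
      have h3 : v ∈ W m := by
        rw [h1]
        exact pow_other h (by omega) hv'
      rcases hv with rfl | hv
      · exact one_notMem_W m h3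
      · exact h (by rw [W_disj h3 hv])
    intro i j hi hj
    rcases lt_trichotomy i j with hlt | heq | hgt
    · exact absurd (key i j hlt hi hj) id
    · exact heq
    · exact absurd (key j i hgt hj hi) id
  have hmem : ∀ y ∈ tile g, ∀ j : ℕ, (act (γ * gl m ^ j * γ⁻¹)).symm y ∈ VV γ l 1 →
      ∃ v : Gp, (v = 1 ∨ v ∈ W l) ∧ γ⁻¹ * g = gl m ^ j * v := by
    intro y hy j hj
    have h1 : (act (γ * gl m ^ j * γ⁻¹)).symm y ∈ tile ((γ * gl m ^ j * γ⁻¹)⁻¹ * g) := by
      rw [act_symm_apply, act_tile]; exact hy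
    obtain ⟨v, hv, e⟩ := VV_tile' hj h1
    refine ⟨v, hv, ?_⟩
    have : g = (γ * gl m ^ j * γ⁻¹) * (γ * v) := by rw [← e]; group
    rw [this]; group
  by_cases hex : ∃ i : ℕ, ∃ v : Gp, (v = 1 ∨ v ∈ W l) ∧ γ⁻¹ * g = gl m ^ i * v
  · obtain ⟨i, hi⟩ := hex
    refine ⟨i, ?_⟩
    filter_upwards [(isOpen_tile g).mem_nhds (mem_tile_self hz)] with y hy j hj
    exact huniq j i (hmem y hy j hj) hi
  · refine ⟨0, ?_⟩
    filter_upwards [(isOpen_tile g).mem_nhds (mem_tile_self hz)] with y hy j hj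
    exact absurd ⟨j, hmem y hy j hj⟩ hex

theorem com_of_supp {f : Surf ≃ₜ Surf} (hf : IsAut f) {γ : Gp} {l : Bool × Bool}
    (h : ∀ x, x ∉ VV γ l 1 → f x = x) : f ∈ Com := by
  set m : Bool × Bool := (!l.1, true) with hm
  have hml : m.1 ≠ l.1 := by rw [hm]; simp
  obtain ⟨F, hF, e⟩ := swindle (Z := VV γ l 1) (φ := fun k => act (γ * gl m ^ k * γ⁻¹))
    (locFin_aux hml) (fun k => isAut_act _) (s := act (γ * gl m * γ⁻¹)) (isAut_act _)
    (fun x => by
      show act (γ * gl m ^ 0 * γ⁻¹) x = x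
      rw [pow_zero, mul_one, mul_inv_cancel]
      exact actFun_one x)
    (fun k x => by
      show act (γ * gl m ^ (k + 1) * γ⁻¹) x = act (γ * gl m * γ⁻¹) (act (γ * gl m ^ k * γ⁻¹) x)
      rw [← Homeomorph.mul_apply, ← act_mul]
      congr 2
      rw [pow_succ']
      group)
    hf h
  rw [e]
  exact Subgroup.commutator_mem_commutator (g₁ := F) (g₂ := act (γ * gl m * γ⁻¹)) hF (isAut_act _)

/-- A map which is the identity on a half space is a commutator. -/
theorem com_of_id {f : Surf ≃ₜ Surf} (hf : IsAut f) {γ : Gp} {l : Bool × Bool}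
    (h : ∀ x ∈ VV γ l 0, f x = x) : f ∈ Com := by
  refine com_of_supp hf (γ := γ * gl l) (l := inv l) ?_
  intro x hx
  apply h
  by_contra hn
  apply hx
  intro hP
  obtain ⟨g, z, hz, rfl⟩ := exists_mk x
  have hdual : ∀ g : Gp, (γ * gl l)⁻¹ * g ∉ W (inv l) ↔ γ⁻¹ * g ∈ W l := by
    intro g
    rw [mul_inv_rev, mul_assoc, ← compl_W, not_not]
  rw [mk_mem_VV_zero hz] at hn
  by_cases h1 : γ⁻¹ * g ∈ W l
  · -- then `g = γ * gl l` and `z` in the disc
    have h2 : g = γ * gl l ∧ z ∈ PD (inv l) := by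
      by_contra h3
      exact hn ⟨h1, fun h4 h5 => h3 ⟨h4, h5⟩⟩
    obtain ⟨rfl, h3⟩ := h2
    have := (mk_mem_VV_self (γ := γ * gl l) (l := inv l) le_rfl hz).2 h3.2.le
    exact this hP
  · -- the tile is on the other side
    have h2 : (γ * gl l)⁻¹ * g ∈ W (inv l) := by
      by_contra h3
      exact h1 ((hdual g).1 h3)
    have h3 : mk g z ∈ VV (γ * gl l) (inv l) 1 := by
      rw [VV_one]
      left
      simp only [mem_iUnion, mem_setOf_eq, exists_prop]
      exact ⟨g, h2, mem_tile_self hz⟩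
    exact h3 hP

end Pool.Agent.Work.MP_ac1d8d_gt
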