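import Mathlib
import Pool.Agent.Work.MP_ac1d8d_gt.Act

/-!
Every area preserving homeomorphism is a product of commutators.
-/

set_option linter.all false
set_option autoImplicit false

namespace Pool.Agent.Work.MP_ac1d8d_gt

open scoped ContDiff Topology ComplexConjugate
open Filter Complex Set

theorem isPreconnected_closed_punctured (l : Bool × Bool) :
    IsPreconnected {z : ℂ | z ∈ UU ∧ ‖z - cc l‖ ≤ 1} := by
  have : {z : ℂ | z ∈ UU ∧ ‖z - cc l‖ ≤ 1} = (fun w => cc l + Complex.exp w) '' {w : ℂ | w.re ≤ 0} := by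
    ext z
    constructor
    · rintro ⟨h1, h2⟩
      refine ⟨Complex.log (z - cc l), ?_, ?_⟩
      · show (Complex.log (z - cc l)).re ≤ 0
        rw [Complex.log_re]
        exact Real.log_nonpos (norm_nonneg _) h2
      · simp only
        rw [Complex.exp_log (h1 l)]
        ring
    · rintro ⟨w, hw, rfl⟩
      have h1 : cc l + Complex.exp w - cc l = Complex.exp w := by ring
      have h2 : ‖cc l + Complex.exp w - cc l‖ ≤ 1 := by
        rw [h1, Complex.norm_exp]
        exact Real.exp_le_one_iff.2 hw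
      refine ⟨mem_UU_of_close (l := l) ?_ h2, h2⟩
      rw [h1]
      exact Complex.exp_ne_zero w
  rw [this]
  have hc : Convex ℝ {w : ℂ | w.re ≤ 0} := convex_halfSpace_re_le _
  exact hc.isPreconnected.image _ (by fun_prop)

theorem isPreconnected_VV (γ : Gp) (l : Bool × Bool) : IsPreconnected (VV γ l 1) := by
  rw [VV_one]
  have h1 : IsPreconnected (⋃ g ∈ {g : Gp | γ⁻¹ * g ∈ W l}, tile g) := by
    apply IsPreconnected.biUnion_of_reflTransGen (fun g _ => isPreconnected_tile g)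
    have up : ∀ w ∈ W l, Relation.ReflTransGen
        (fun i j : Gp => (tile i ∩ tile j).Nonempty ∧ i ∈ {g : Gp | γ⁻¹ * g ∈ W l})
        (γ * gl l) (γ * w) := by
      apply W_induction
      · exact Relation.ReflTransGen.refl
      · intro w m hw hwm h
        refine h.tail ⟨?_, ?_⟩
        · rw [← mul_assoc]; exact tile_inter _ _
        · show γ⁻¹ * (γ * w) ∈ W l
          rwa [inv_mul_cancel_left]
    have down : ∀ w ∈ W l, Relation.ReflTransGen
        (fun i j : Gp => (tile i ∩ tile j).Nonempty ∧ i ∈ {g : Gp | γ⁻¹ * g ∈ W l})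
        (γ * w) (γ * gl l) := by
      apply W_induction
      · exact Relation.ReflTransGen.refl
      · intro w m hw hwm h
        refine Relation.ReflTransGen.head ⟨?_, ?_⟩ h
        · rw [← mul_assoc, inter_comm]; exact tile_inter _ _
        · show γ⁻¹ * (γ * (w * gl m)) ∈ W l
          rwa [inv_mul_cancel_left]
    intro i hi j hj
    have e1 : γ * (γ⁻¹ * i) = i := mul_inv_cancel_left _ _
    have e2 : γ * (γ⁻¹ * j) = j := mul_inv_cancel_left _ _
    have := (down _ hi).trans (up _ hj)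
    rwa [e1, e2] at this
  have h2 : IsPreconnected (mk γ '' {z | z ∈ UU ∧ ‖z - cc l‖ ≤ 1}) :=
    (isPreconnected_closed_punctured l).image _ ((continuousOn_mk γ).mono fun z hz => hz.1)
  have h := cc_add_half l
  refine h1.union (mk γ (cc l + 1/2)) ?_ ?_ h2
  · simp only [mem_iUnion, mem_setOf_eq, exists_prop]
    refine ⟨γ * gl l, by rw [inv_mul_cancel_left]; exact gl_mem_W l, ?_⟩
    exact (mk_mem_tile (PD_subset _ h)).2 (Or.inr ⟨l, rfl, h⟩)
  · exact ⟨_, ⟨PD_subset _ h, h.2.le⟩, rfl⟩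

/-- The open region beyond the circle of `l`. -/
def OO (l : Bool × Bool) : Set Surf := ⋃ g ∈ {g : Gp | g ∈ W l}, tile g

/-- The central region. -/
def O0 : Set Surf := mk 1 '' {z | ∀ l, 1 < ‖z - cc l‖}

/-- The circles. -/
def CC : Set Surf := ⋃ l : Bool × Bool, mk 1 '' {z | ‖z - cc l‖ = 1}

theorem mem_OO {l : Bool × Bool} {x : Surf} : x ∈ OO l ↔ ∃ g, g ∈ W l ∧ x ∈ tile g := by
  simp [OO]

theorem isOpen_OO (l : Bool × Bool) : IsOpen (OO l) :=
  isOpen_biUnion fun g _ => isOpen_tile g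

theorem O0_sub {z : ℂ} (h : ∀ l, 1 < ‖z - cc l‖) : z ∈ UU := by
  intro l h0
  have := h l
  rw [h0, norm_zero] at this
  linarith

theorem isOpen_O0 : IsOpen O0 := by
  refine isOpen_mk_image ?_ fun z hz => O0_sub hz
  have : {z : ℂ | ∀ l, 1 < ‖z - cc l‖} = ⋂ l, {z : ℂ | 1 < ‖z - cc l‖} := by
    ext z; simp
  rw [this]
  exact isOpen_iInter_of_finite fun l => isOpen_lt continuous_const (by fun_prop)

theorem isCompact_CC : IsCompact CC := by
  refine isCompact_iUnion fun l => ?_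
  have h1 : IsCompact {z : ℂ | ‖z - cc l‖ = 1} := by
    have : {z : ℂ | ‖z - cc l‖ = 1} = Metric.sphere (cc l) 1 := by
      ext z; simp [Complex.dist_eq]
    rw [this]
    exact isCompact_sphere _ _
  refine h1.image_of_continuousOn ((continuousOn_mk 1).mono fun z hz => ?_)
  have hz' : ‖z - cc l‖ = 1 := hz
  refine mem_UU_of_close (l := l) ?_ hz'.le
  intro h0
  rw [h0, norm_zero] at hz'
  exact zero_ne_one hz'

theorem cover_CC (x : Surf) (hx : x ∉ CC) : x ∈ O0 ∨ ∃ l, x ∈ OO l := by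
  obtain ⟨g, z, hz, rfl⟩ := exists_mk x
  by_cases hg : g = 1
  · subst hg
    by_cases h : ∃ l, ‖z - cc l‖ < 1
    · obtain ⟨l, hl⟩ := h
      right
      refine ⟨l, mem_OO.2 ⟨gl l, gl_mem_W l, ?_⟩⟩
      rw [mk_mem_tile hz]
      exact Or.inr ⟨l, by rw [one_mul], hz l, hl⟩
    · left
      refine ⟨z, ?_, rfl⟩
      intro l
      rw [not_exists] at h
      have h1 := not_lt.1 (h l)
      refine lt_of_le_of_ne h1 fun h2 => hx ?_
      exact mem_iUnion.2 ⟨l, z, h2.symm, rfl⟩
  · obtain ⟨l, hl⟩ := exists_W hg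
    exact Or.inr ⟨l, mem_OO.2 ⟨g, hl, mem_tile_self hz⟩⟩

theorem OO_disj {l m : Bool × Bool} {x : Surf} (h : x ∈ OO l) (h' : x ∈ OO m) : l = m := by
  obtain ⟨g, hg, z, hz, rfl⟩ := mem_OO.1 h
  obtain ⟨g', hg', h2⟩ := mem_OO.1 h'
  rw [mk_mem_tile hz] at h2
  rcases h2 with rfl | ⟨n, rfl, _⟩
  · exact W_disj hg hg'
  · by_contra hne
    have hn : g * gl n ∉ W l := fun h3 => hne (W_disj h3 hg')
    obtain ⟨h3, h4⟩ := W_exit hg hn
    rw [h3, h4, gl_inv, mul_inv_cancel] at hg'
    exact one_notMem_W m hg'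

theorem O0_disj {l : Bool × Bool} {x : Surf} (h : x ∈ OO l) (h' : x ∈ O0) : False := by
  obtain ⟨z, hz, rfl⟩ := h'
  obtain ⟨g', hg', h2⟩ := mem_OO.1 h
  rw [mk_mem_tile (O0_sub hz)] at h2
  rcases h2 with rfl | ⟨n, rfl, hn⟩
  · exact one_notMem_W l hg'
  · have := hz n
    linarith [hn.2]

theorem region {Z : Set Surf} (hZ : IsPreconnected Z) (hd : ∀ x ∈ Z, x ∉ CC) :
    Z ⊆ O0 ∨ ∃ l, Z ⊆ OO l := by
  by_contra hcon
  rw [not_or, not_exists] at hcon
  have key : ∀ l, ∀ x ∈ Z, x ∉ OO l := by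
    intro l
    have h2 : IsOpen (O0 ∪ ⋃ m ∈ {m : Bool × Bool | m ≠ l}, OO m) :=
      isOpen_O0.union (isOpen_biUnion fun m _ => isOpen_OO m)
    have h3 : Z ⊆ OO l ∪ (O0 ∪ ⋃ m ∈ {m : Bool × Bool | m ≠ l}, OO m) := by
      intro x hx
      rcases cover_CC x (hd x hx) with h | ⟨m, h⟩
      · exact Or.inr (Or.inl h)
      · by_cases hm : m = l
        · exact Or.inl (hm ▸ h)
        · refine Or.inr (Or.inr ?_)
          simp only [mem_iUnion, mem_setOf_eq, exists_prop]
          exact ⟨m, hm, h⟩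
    have h4 : Z ∩ (OO l ∩ (O0 ∪ ⋃ m ∈ {m : Bool × Bool | m ≠ l}, OO m)) = ∅ := by
      rw [eq_empty_iff_forall_notMem]
      rintro x ⟨_, h5, h6 | h6⟩
      · exact O0_disj h5 h6
      · simp only [mem_iUnion, mem_setOf_eq, exists_prop] at h6
        obtain ⟨m, hm, h7⟩ := h6
        exact hm (OO_disj h7 h5)
    rcases isPreconnected_iff_subset_of_disjoint.1 hZ _ _ (isOpen_OO l) h2 h3 h4 with h | h
    · exact absurd h (hcon.2 l)
    · intro x hx h5
      have h6 := h hx
      rcases h6 with h6 | h6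
      · exact O0_disj h5 h6
      · simp only [mem_iUnion, mem_setOf_eq, exists_prop] at h6
        obtain ⟨m, hm, h7⟩ := h6
        exact hm (OO_disj h7 h5)
  apply hcon.1
  intro x hx
  rcases cover_CC x (hd x hx) with h | ⟨m, h⟩
  · exact h
  · exact absurd h (key m x hx)

theorem VV_one_subset_OO (l : Bool × Bool) {n : ℕ} (hn : n ≠ 0) : VV (gl l ^ n) l 1 ⊆ OO l := by
  intro x hx
  obtain ⟨g, z, hz, rfl⟩ := exists_mk x
  obtain ⟨v, hv, rfl⟩ := VV_tile' hx (mem_tile_self hz)
  exact mem_OO.2 ⟨_, far_mem hn hv, mem_tile_self hz⟩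

/-- Three disjoint half spaces. -/
def Sep (f : Surf ≃ₜ Surf) : Prop :=
  ∃ (γ : Gp) (l : Bool × Bool) (γ' : Gp) (l' : Bool × Bool),
    (∀ x ∈ VV γ l 1, f x ∉ VV γ l 1) ∧ (∀ x ∈ VV γ' l' 1, x ∉ VV γ l 1) ∧
    (∀ x ∈ VV γ l 1, f x ∉ VV γ' l' 1)

theorem exists_third (l m : Bool × Bool) : ∃ n : Bool × Bool, n ≠ l ∧ n ≠ m := by
  revert l m; decide

theorem sep_of {f : Surf ≃ₜ Surf} {l : Bool × Bool} {n : ℕ} (hn : n ≠ 0)
    (h : (∀ x ∈ VV (gl l ^ n) l 1, f x ∈ O0) ∨
      ∃ m, m ≠ l ∧ ∀ x ∈ VV (gl l ^ n) l 1, f x ∈ OO m) : Sep f := by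
  have hsub := VV_one_subset_OO l hn
  rcases h with h | ⟨m, hm, h⟩
  · obtain ⟨l', h1, _⟩ := exists_third l l
    have hsub' := VV_one_subset_OO l' (n := 1) one_ne_zero
    refine ⟨gl l ^ n, l, gl l' ^ 1, l', ?_, ?_, ?_⟩
    · intro x hx h2
      exact O0_disj (hsub h2) (h x hx)
    · intro x hx h2
      exact h1 (OO_disj (hsub' hx) (hsub h2))
    · intro x hx h2
      exact O0_disj (hsub' h2) (h x hx)
  · obtain ⟨l', h1, h1'⟩ := exists_third l m
    have hsub' := VV_one_subset_OO l' (n := 1) one_ne_zero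
    refine ⟨gl l ^ n, l, gl l' ^ 1, l', ?_, ?_, ?_⟩
    · intro x hx h2
      exact hm (OO_disj (h x hx) (hsub h2))
    · intro x hx h2
      exact h1 (OO_disj (hsub' hx) (hsub h2))
    · intro x hx h2
      exact h1' (OO_disj (hsub' h2) (h x hx))

theorem selection (f : Surf ≃ₜ Surf) : Sep f ∨ Sep (act dl * f) := by
  -- the preimage of the circles is compact, hence covered by finitely many tiles
  have hK : IsCompact (f ⁻¹' CC) := by
    have : f ⁻¹' CC = f.symm '' CC := by
      ext x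
      constructor
      · intro h
        exact ⟨f x, h, f.symm_apply_apply x⟩
      · rintro ⟨y, hy, rfl⟩
        show f (f.symm y) ∈ CC
        rwa [f.apply_symm_apply]
    rw [this]
    exact isCompact_CC.image f.symm.continuous
  obtain ⟨F, hF⟩ := hK.elim_finite_subcover (fun g : Gp => tile g) (fun g => isOpen_tile g)
    (by
      intro x _
      obtain ⟨g, z, hz, rfl⟩ := exists_mk x
      exact mem_iUnion.2 ⟨g, mem_tile_self hz⟩)
  have far : ∀ l : Bool × Bool, ∃ n : ℕ, n ≠ 0 ∧ ((∀ x ∈ VV (gl l ^ n) l 1, f x ∈ O0) ∨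
      ∃ m, ∀ x ∈ VV (gl l ^ n) l 1, f x ∈ OO m) := by
    intro l
    obtain ⟨n, hn, hfar⟩ := exists_far l (F : Set Gp) F.finite_toSet
    refine ⟨n, hn, ?_⟩
    have hpre : IsPreconnected (f '' VV (gl l ^ n) l 1) :=
      (isPreconnected_VV _ _).image _ f.continuous.continuousOn
    have hoff : ∀ y ∈ f '' VV (gl l ^ n) l 1, y ∉ CC := by
      rintro _ ⟨x, hx, rfl⟩ hC
      have h1 : x ∈ ⋃ i ∈ F, tile i := hF hC
      simp only [mem_iUnion, exists_prop] at h1
      obtain ⟨g, hg, hxg⟩ := h1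
      obtain ⟨v, hv, rfl⟩ := VV_tile' hx hxg
      exact hfar v hv hg
    rcases region hpre hoff with h | ⟨m, h⟩
    · exact Or.inl fun x hx => h ⟨x, hx, rfl⟩
    · exact Or.inr ⟨m, fun x hx => h ⟨x, hx, rfl⟩⟩
  obtain ⟨n, hn, h⟩ := far (true, false)
  rcases h with h | ⟨m, h⟩
  · exact Or.inl (sep_of hn (Or.inl h))
  · by_cases hm : m = (true, false)
    · right
      refine sep_of (l := (true, false)) hn (Or.inr ⟨(true, true), by decide, ?_⟩)
      intro x hx
      have h1 := h x hx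
      rw [hm] at h1
      obtain ⟨g, hg, h2⟩ := mem_OO.1 h1
      exact mem_OO.2 ⟨dl * g, dl_mul hg, act_tile.2 h2⟩
    · exact Or.inl (sep_of hn (Or.inr ⟨m, hm, h⟩))

theorem com_of_sep {f : Surf ≃ₜ Surf} (hf : IsAut f) (h : Sep f) : f ∈ Com := by
  obtain ⟨γ, l, γ', l', h1, h2, h3⟩ := h
  set V : Fin 3 → Set Surf := ![VV γ l 0, f '' VV γ l 0, VV γ' l' 0] with hV
  set k : Fin 3 → OpenPartialHomeomorph Surf ℂ :=
    ![kk γ l, f.symm.toOpenPartialHomeomorph.trans (kk γ l), kk γ' l'] with hk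
  have hs0 := VV_source_subset γ l
  have hs2 := VV_source_subset γ' l'
  have hs1 : ∀ x ∈ f '' VV γ l 0 ∪ (f.symm.toOpenPartialHomeomorph.trans (kk γ l)).source,
      ∃ y ∈ VV γ l 1, x = f y := by
    rintro x (⟨y, hy, rfl⟩ | hx)
    · exact ⟨y, hs0 (Or.inl hy), rfl⟩
    · have hx' : f.symm x ∈ (kk γ l).source := by simpa using hx
      exact ⟨f.symm x, hs0 (Or.inr hx'), (f.apply_symm_apply x).symm⟩
  have H : Caps V k := by
    apply Caps.of_HS
    · intro i
      fin_cases i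
      · exact hs_VV γ l
      · exact (hs_VV γ l).image hf
      · exact hs_VV γ' l'
    · have d01 : Disjoint (VV γ l 0 ∪ (kk γ l).source)
          (f '' VV γ l 0 ∪ (f.symm.toOpenPartialHomeomorph.trans (kk γ l)).source) := by
        rw [Set.disjoint_left]
        intro x hx hx'
        obtain ⟨y, hy, rfl⟩ := hs1 x hx'
        exact h1 y hy (hs0 hx)
      have d02 : Disjoint (VV γ l 0 ∪ (kk γ l).source) (VV γ' l' 0 ∪ (kk γ' l').source) := by
        rw [Set.disjoint_left]
        intro x hx hx'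
        exact h2 x (hs2 hx') (hs0 hx)
      have d12 : Disjoint (f '' VV γ l 0 ∪ (f.symm.toOpenPartialHomeomorph.trans (kk γ l)).source)
          (VV γ' l' 0 ∪ (kk γ' l').source) := by
        rw [Set.disjoint_left]
        intro x hx hx'
        obtain ⟨y, hy, rfl⟩ := hs1 x hx
        exact h3 y hy (hs2 hx')
      intro i j hij
      fin_cases i <;> fin_cases j
      · exact absurd rfl hij
      · exact d01
      · exact d02
      · exact d01.symm
      · exact absurd rfl hij
      · exact d12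
      · exact d02.symm
      · exact d12.symm
      · exact absurd rfl hij
  obtain ⟨g, hg, hg0, hg2⟩ := swap_half H hf rfl rfl
  have c1 : g ∈ Com := com_of_id hg (γ := γ') (l := l') hg2
  have c2 : g⁻¹ * f ∈ Com := by
    have ha : IsAut (g⁻¹ * f) := (AutGp Surf).mul_mem ((AutGp Surf).inv_mem hg) hf
    refine com_of_id ha (γ := γ) (l := l) ?_
    intro x hx
    show g.symm (f x) = x
    rw [Homeomorph.symm_apply_eq]
    exact (hg0 x hx).symm
  have : f = g * (g⁻¹ * f) := by group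
  rw [this]
  exact Com.mul_mem c1 c2

theorem act_dl_mem : act dl ∈ Com := by
  have : act dl = act (gl (true, true)) * act (gl (false, true)) *
      (act (gl (true, true)))⁻¹ * (act (gl (false, true)))⁻¹ := by
    rw [dl, act_mul, act_mul, act_mul]
    rfl
  rw [this]
  exact Subgroup.commutator_mem_commutator (g₁ := act (gl (true, true)))
    (g₂ := act (gl (false, true))) (isAut_act _) (isAut_act _)

/-- The group of area preserving homeomorphisms is perfect. -/
theorem autGp_le_com : AutGp Surf ≤ Com := by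
  intro f hf
  rcases selection f with h | h
  · exact com_of_sep hf h
  · have h1 : act dl * f ∈ Com := com_of_sep ((AutGp Surf).mul_mem (isAut_act _) hf) h
    have : f = (act dl)⁻¹ * (act dl * f) := by group
    rw [this]
    exact Com.mul_mem (Com.inv_mem act_dl_mem) h1

end Pool.Agent.Work.MP_ac1d8d_gt
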