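import Mathlib
import Pool.Agent.Work.MP_ac1d8d_gt.Defs
import Pool.Agent.Work.MP_ac1d8d_gt.Select

/-!
The surface as a smooth manifold with an area form.
-/

set_option linter.all false
set_option autoImplicit false

namespace Pool.Agent.Work.MP_ac1d8d_gt

open scoped Manifold ContDiff Topology
open Filter Complex Set

/-- The standard area form of the plane. -/
noncomputable def stdForm : ℂ →L[ℝ] ℂ →L[ℝ] ℝ :=
  Complex.reCLM.smulRight Complex.imCLM - Complex.imCLM.smulRight Complex.reCLM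

theorem stdForm_apply (u v : ℂ) : stdForm u v = u.re * v.im - u.im * v.re := by
  simp [stdForm]

theorem stdForm_map (L : ℂ →L[ℝ] ℂ) (u v : ℂ) : stdForm (L u) (L v) = L.det * stdForm u v := by
  have h : ∀ w : ℂ, L w = w.re • L 1 + w.im • L I := by
    intro w
    conv_lhs => rw [show w = w.re • (1 : ℂ) + w.im • I by
      apply Complex.ext <;> simp]
    rw [map_add, map_smul, map_smul]
  rw [det_formula, stdForm_apply, stdForm_apply, h u, h v]
  simp
  ring

theorem det_eq_one_of {L : ℂ →L[ℝ] ℂ} (h : ∀ u v, stdForm (L u) (L v) = stdForm u v) :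
    L.det = 1 := by
  have h1 := h 1 I
  rw [stdForm_map] at h1
  have h2 : stdForm 1 I = 1 := by rw [stdForm_apply]; simp
  rwa [h2, mul_one] at h1

/-- Smooth with Jacobian determinant one at the point `z`. -/
def Ar1 (u : ℂ → ℂ) (z : ℂ) : Prop := ContDiffAt ℝ ∞ u z ∧ (fderiv ℝ u z).det = 1

theorem Ar.ar1 {u : ℂ → ℂ} {z : ℂ} (h : Ar u z) : Ar1 u z := h.at

theorem Ar1.congr {u v : ℂ → ℂ} {z : ℂ} (h : Ar1 u z) (huv : u =ᶠ[𝓝 z] v) : Ar1 v z := by
  refine ⟨h.1.congr_of_eventuallyEq huv.symm, ?_⟩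
  rw [← huv.fderiv_eq]
  exact h.2

theorem Ar1.comp {u v : ℂ → ℂ} {z : ℂ} (hv : Ar1 v (u z)) (hu : Ar1 u z) :
    Ar1 (fun x => v (u x)) z := by
  refine ⟨hv.1.comp z hu.1, ?_⟩
  have h1 : DifferentiableAt ℝ u z := hu.1.differentiableAt (by simp)
  have h2 : DifferentiableAt ℝ v (u z) := hv.1.differentiableAt (by simp)
  have := fderiv_comp z h2 h1
  rw [show (fun x => v (u x)) = v ∘ u from rfl, this]
  rw [det_mul', hv.2, hu.2, one_mul]

section
variable {X Y : Type*} [TopologicalSpace X] [ChartedSpace ℂ X] [AreaAtlas X]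
  [TopologicalSpace Y] [ChartedSpace ℂ Y] [AreaAtlas Y]

theorem arM_of_pointwise {F : X → Y} (hF : ∀ x, ContinuousAt F x ∧
    Ar1 (fun z => chartAt ℂ (F x) (F ((chartAt ℂ x).symm z))) (chartAt ℂ x x)) (x : X) :
    ArM F x := by
  refine ⟨(hF x).1, ?_⟩
  set e := chartAt ℂ x with he
  set c := chartAt ℂ (F x) with hc
  have hxe : x ∈ e.source := mem_chart_source ℂ x
  have h1 : ∀ᶠ y in 𝓝 (e x), F (e.symm y) ∈ c.source :=
    ev_symm e hxe ((hF x).1.eventually (c.open_source.mem_nhds (mem_chart_source ℂ (F x))))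
  filter_upwards [h1, e.open_target.mem_nhds (e.map_source hxe)] with y hy1 hy2
  show Ar1 (fun z => c (F (e.symm z))) y
  have hx' : e.symm y ∈ e.source := e.map_target hy2
  obtain ⟨hcont, b2⟩ := hF (e.symm y)
  set x' := e.symm y with hx'def
  have hey : e x' = y := e.right_inv hy2
  have b1 : Ar1 (fun z => chartAt ℂ x' (e.symm z)) y := by
    rw [← hey]
    exact ((isCh_chartAt x).ar (isCh_chartAt x') hx' (mem_chart_source ℂ x')).ar1
  have b3 : Ar1 (fun z => c ((chartAt ℂ (F x')).symm z)) (chartAt ℂ (F x') (F x')) :=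
    ((isCh_chartAt (F x')).ar (isCh_chartAt (F x)) (mem_chart_source ℂ (F x')) hy1).ar1
  have b2' : Ar1 (fun z => chartAt ℂ (F x') (F ((chartAt ℂ x').symm z)))
      (chartAt ℂ x' (e.symm y)) := b2
  have b4 := Ar1.comp (v := fun z => chartAt ℂ (F x') (F ((chartAt ℂ x').symm z)))
    (u := fun z => chartAt ℂ x' (e.symm z)) b2' b1
  have b3' : Ar1 (fun z => c ((chartAt ℂ (F x')).symm z))
      (chartAt ℂ (F x') (F ((chartAt ℂ x').symm (chartAt ℂ x' (e.symm y))))) := by
    rw [← hx'def, (chartAt ℂ x').left_inv (mem_chart_source ℂ x')]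
    exact b3
  have b5 := Ar1.comp (v := fun z => c ((chartAt ℂ (F x')).symm z))
    (u := fun z => chartAt ℂ (F x') (F ((chartAt ℂ x').symm (chartAt ℂ x' (e.symm z))))) b3' b4
  refine b5.congr ?_
  have t1 : ∀ᶠ z in 𝓝 y, e.symm z ∈ (chartAt ℂ x').source := by
    have := e.symm.continuousAt hy2
    exact this.eventually ((chartAt ℂ x').open_source.mem_nhds (mem_chart_source ℂ x'))
  have t2 : ∀ᶠ z in 𝓝 y, F (e.symm z) ∈ (chartAt ℂ (F x')).source := by
    have h5 : ContinuousAt e.symm y := e.symm.continuousAt hy2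
    have h6 : ContinuousAt (fun z => F (e.symm z)) y := ContinuousAt.comp (g := F) hcont h5
    exact h6.eventually ((chartAt ℂ (F x')).open_source.mem_nhds (mem_chart_source ℂ (F x')))
  filter_upwards [t1, t2] with z hz1 hz2
  rw [(chartAt ℂ x').left_inv hz1, (chartAt ℂ (F x')).left_inv hz2]

end

section
variable {X Y : Type*} [TopologicalSpace X] [ChartedSpace ℂ X]
  [TopologicalSpace Y] [ChartedSpace ℂ Y]

theorem cmd_iff {F : X → Y} {x : X} : ContMDiffAt 𝓘(ℝ, ℂ) 𝓘(ℝ, ℂ) ∞ F x ↔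
    ContinuousAt F x ∧
      ContDiffAt ℝ ∞ (fun z => chartAt ℂ (F x) (F ((chartAt ℂ x).symm z))) (chartAt ℂ x x) := by
  rw [contMDiffAt_iff]
  simp only [mfld_simps, contDiffWithinAt_univ]
  rfl

/-- The derivative, as a linear map of the plane. -/
noncomputable def dM (F : X → Y) (x : X) : ℂ →L[ℝ] ℂ := mfderiv 𝓘(ℝ, ℂ) 𝓘(ℝ, ℂ) F x

theorem mfd_eq {F : X → Y} {x : X} (h : MDifferentiableAt 𝓘(ℝ, ℂ) 𝓘(ℝ, ℂ) F x) :
    dM F x =
      fderiv ℝ (fun z => chartAt ℂ (F x) (F ((chartAt ℂ x).symm z))) (chartAt ℂ x x) := by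
  have h1 : HasFDerivWithinAt (writtenInExtChartAt 𝓘(ℝ, ℂ) 𝓘(ℝ, ℂ) x F) (dM F x)
    (range (𝓘(ℝ, ℂ))) (extChartAt 𝓘(ℝ, ℂ) x x) := h.hasMFDerivAt.2
  have h0 : range (𝓘(ℝ, ℂ)) = univ := by simp only [mfld_simps]
  rw [h0] at h1
  have h2 : HasFDerivAt (writtenInExtChartAt 𝓘(ℝ, ℂ) 𝓘(ℝ, ℂ) x F) (dM F x)
    (extChartAt 𝓘(ℝ, ℂ) x x) := hasFDerivWithinAt_univ.1 h1
  exact h2.fderiv.symm

end

instance : IsManifold 𝓘(ℝ, ℂ) ∞ Surf := by
  apply isManifold_of_contDiffOn
  intro e e' he he'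
  simp only [mfld_simps]
  intro z hz
  have h1 : z ∈ e.target := by
    simp only [mfld_simps] at hz; exact hz.1
  have h2 : e.symm z ∈ e'.source := by
    simp only [mfld_simps] at hz; exact hz.2
  have := AreaAtlas.compat e he e' he' (e.symm z) (e.map_target h1) h2
  rw [e.right_inv h1] at this
  exact this.contDiffAt.contDiffWithinAt

theorem mfd_chart {e : OpenPartialHomeomorph Surf ℂ} (he : e ∈ atlas ℂ Surf) {z : ℂ}
    (hz : z ∈ e.target) :
    (dM e.symm z).det = 1 := by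
  have h1 : ArM e.symm z := (isCh_of_mem_atlas he).arM_symm hz
  have h2 : ContMDiffAt 𝓘(ℝ, ℂ) 𝓘(ℝ, ℂ) ∞ e.symm z := cmd_iff.2 ⟨h1.1, h1.2.contDiffAt⟩
  rw [mfd_eq (h2.mdifferentiableAt (by simp))]
  exact h1.2.ar1.2

/-- The area form of the surface. -/
noncomputable def surfForm : AreaForm Surf where
  form _ := stdForm
  alternating x v := by
    have h : ∀ w : ℂ, stdForm w w = 0 := fun w => by rw [stdForm_apply]; ring
    exact h v
  nonvanishing x := by
    intro h
    have h1 : stdForm 1 I = 1 := by rw [stdForm_apply]; simp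
    have h2 : stdForm = 0 := h
    rw [h2] at h1
    simp at h1
  smooth e he := by
    have : ∀ z ∈ e.target, stdForm (dM e.symm z (1 : ℂ)) (dM e.symm z Complex.I) = 1 := by
      intro z hz
      have h1 := stdForm_map (dM e.symm z) 1 I
      rw [mfd_chart he hz, stdForm_apply 1 I] at h1
      simp at h1
      exact h1
    exact (contDiffOn_const (c := (1 : ℝ))).congr this

theorem preserves_iff {φ : Surf ≃ₜ Surf} : Preserves surfForm φ ↔ IsAut φ := by
  constructor
  · intro h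
    have key : ∀ ψ : Surf ≃ₜ Surf, Preserves surfForm ψ → ∀ x, ArM ψ x := by
      intro ψ hψ
      apply arM_of_pointwise
      intro x
      refine ⟨ψ.continuous.continuousAt, (cmd_iff.1 (hψ.smooth x)).2, ?_⟩
      rw [← mfd_eq (hψ.smooth.mdifferentiable (by simp) x)]
      exact det_eq_one_of (L := dM ψ x) fun u v => hψ.pullback x u v
    exact ⟨key φ h, key φ.symm h.inv⟩
  · intro h
    have hs : ∀ ψ : Surf ≃ₜ Surf, (∀ x, ArM ψ x) → ContMDiff 𝓘(ℝ, ℂ) 𝓘(ℝ, ℂ) ∞ ψ := by
      intro ψ hψ x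
      exact cmd_iff.2 ⟨(hψ x).1, (hψ x).2.contDiffAt⟩
    refine ⟨hs φ h.1, hs φ.symm h.2, ?_⟩
    intro x u v
    have h1 := stdForm_map (dM φ x) u v
    have h2 : (dM φ x).det = 1 := by
      rw [mfd_eq ((hs φ h.1).mdifferentiable (by simp) x)]
      exact (h.1 x).2.ar1.2
    rw [h2, one_mul] at h1
    exact h1

theorem areaDiff_eq : AreaDiff Surf surfForm = AutGp Surf := by
  ext φ
  exact preserves_iff

theorem perfect_areaDiff : commutator (AreaDiff Surf surfForm) = ⊤ := by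
  have h1 : (commutator (AreaDiff Surf surfForm)).map (AreaDiff Surf surfForm).subtype =
      ⁅AreaDiff Surf surfForm, AreaDiff Surf surfForm⁆ := Subgroup.map_subtype_commutator _
  have h2 : AreaDiff Surf surfForm ≤ ⁅AreaDiff Surf surfForm, AreaDiff Surf surfForm⁆ := by
    rw [areaDiff_eq]
    exact autGp_le_com
  rw [eq_top_iff]
  intro g _
  have h3 := h2 g.2
  rw [← h1] at h3
  obtain ⟨g', hg', h4⟩ := h3
  have : g' = g := Subtype.ext h4
  rwa [← this]

theorem isSurface_surf : IsSurface Surf := ⟨inferInstance, inferInstance, inferInstance, inferInstance⟩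

end Pool.Agent.Work.MP_ac1d8d_gt
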