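import Mathlib

/-!
A criterion for the fundamental group of a path connected space not to be finitely generated:
outside every compact set there is a loop detected by a circle-valued function supported away
from the compact set.
-/

open Set

namespace Pool.Agent.Work.MP_ac1d8d_gt

theorem not_fg_of {S : Type*} [TopologicalSpace S] [PathConnectedSpace S]
    (h : ∀ K : Set S, IsCompact K → ∃ (ψ : C(S, Circle)) (x : S) (l : Path x x)
      (γ : C(unitInterval, ℝ)),
      (∀ y ∈ K, ψ y = 1) ∧ (∀ t, Circle.exp (γ t) = ψ (l t)) ∧ γ 0 ≠ γ 1) (x₀ : S) :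
    ¬ Group.FG (FundamentalGroup S x₀) := by
  intro hfg
  obtain ⟨T, hT⟩ := (Group.fg_def.mp hfg)
  classical
  let rep : FundamentalGroup S x₀ → Path x₀ x₀ := fun g => Quotient.out (s := Path.Homotopic.setoid x₀ x₀) g
  have hrep : ∀ g, Path.Homotopic.Quotient.mk (rep g) = g := fun g =>
    Quotient.out_eq (s := Path.Homotopic.setoid x₀ x₀) g
  have hK : IsCompact (⋃ g ∈ T, range (rep g)) :=
    T.isCompact_biUnion (fun g _ => isCompact_range (rep g).continuous)
  obtain ⟨ψ, x, l, γ, h1, h2, h3⟩ := h (insert x₀ (⋃ g ∈ T, range (rep g))) (hK.insert x₀)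
  have cov := Circle.isCoveringMap_exp
  let Φ : FundamentalGroup S x₀ →* Equiv.Perm (Circle.exp ⁻¹' {ψ x₀}) :=
    (cov.monodromyPerm (ψ x₀)).comp (FundamentalGroup.map ψ x₀)
  have hψ0 : ψ x₀ = 1 := h1 x₀ (mem_insert _ _)
  have hgen : ∀ g ∈ T, Φ g = 1 := by
    intro g hg
    have e1 : FundamentalGroup.map ψ x₀ g = 1 := by
      rw [FundamentalGroup.map_apply, ← hrep g]
      change Path.Homotopic.Quotient.mk ((rep g).map ψ.continuous) = Path.Homotopic.Quotient.mk (Path.refl (ψ x₀))
      refine congrArg Path.Homotopic.Quotient.mk (Path.ext (funext fun t => ?_))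
      change ψ (rep g t) = ψ x₀
      rw [hψ0]
      exact h1 _ (mem_insert_of_mem _ (mem_iUnion₂.mpr ⟨g, hg, mem_range_self t⟩))
    change cov.monodromyPerm (ψ x₀) (FundamentalGroup.map ψ x₀ g) = 1
    rw [e1, map_one]
  have hall : ∀ g : FundamentalGroup S x₀, Φ g = 1 := by
    have : (⊤ : Subgroup (FundamentalGroup S x₀)) ≤ Φ.ker := by
      rw [← hT, Subgroup.closure_le]
      intro g hg
      exact MonoidHom.mem_ker.mpr (hgen g hg)
    intro g
    exact MonoidHom.mem_ker.mp (this (Subgroup.mem_top g))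
  -- the conjugated loop
  let p : Path x₀ x := PathConnectedSpace.somePath x₀ x
  let q : Path x₀ x₀ := (p.trans l).trans p.symm
  have hq := hall (Path.Homotopic.Quotient.mk q)
  have hq' : ∀ e, cov.monodromy (Path.Homotopic.Quotient.mk (q.map ψ.continuous)) e = e := by
    intro e
    have := congrArg (fun σ : Equiv.Perm (Circle.exp ⁻¹' {ψ x₀}) => σ e) hq
    exact this
  have hqt : Path.Homotopic.Quotient.mk (q.map ψ.continuous) =
      ((Path.Homotopic.Quotient.mk (p.map ψ.continuous)).trans
        (Path.Homotopic.Quotient.mk (l.map ψ.continuous))).trans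
        (Path.Homotopic.Quotient.mk (p.map ψ.continuous)).symm := by
    simp only [q, Path.map_trans]
    rfl
  have hmon : ∀ e, cov.monodromy (Path.Homotopic.Quotient.mk (l.map ψ.continuous)) e = e := by
    intro e
    obtain ⟨e', he'⟩ := (cov.monodromy_bijective (Path.Homotopic.Quotient.mk (p.map ψ.continuous))).2 e
    have h4 := hq' e'
    rw [hqt, cov.monodromy_trans_apply, cov.monodromy_trans_apply, he'] at h4
    have h5 : cov.monodromy (Path.Homotopic.Quotient.mk (p.map ψ.continuous)).symm e = e' := by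
      rw [← he', ← cov.monodromy_trans_apply]
      have : (Path.Homotopic.Quotient.mk (p.map ψ.continuous)).trans
          (Path.Homotopic.Quotient.mk (p.map ψ.continuous)).symm = Path.Homotopic.Quotient.refl _ := by
        exact Quotient.sound ⟨(Path.Homotopy.reflTransSymm (p.map ψ.continuous)).symm⟩
      rw [this, cov.monodromy_refl]
      rfl
    exact (cov.monodromy_bijective (Path.Homotopic.Quotient.mk (p.map ψ.continuous)).symm).1
      (h4.trans h5.symm)
  -- the lift of `ψ ∘ l` is `γ`
  have hγ0 : Circle.exp (γ 0) = ψ x := by rw [h2 0, l.source]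
  have hγ1 : Circle.exp (γ 1) = ψ x := by rw [h2 1, l.target]
  have h6 := hmon ⟨γ 0, hγ0⟩
  have h7 := congrArg Subtype.val h6
  have h8 : cov.liftPath ((l.map ψ.continuous : Path (ψ x) (ψ x)) : C(unitInterval, Circle)) (γ 0)
      (((l.map ψ.continuous).source).trans hγ0.symm) 1 = γ 0 := h7
  have h9 : γ = cov.liftPath ((l.map ψ.continuous : Path (ψ x) (ψ x)) : C(unitInterval, Circle)) (γ 0)
      (((l.map ψ.continuous).source).trans hγ0.symm) := by
    rw [cov.eq_liftPath_iff']
    refine ⟨?_, rfl⟩
    funext t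
    exact h2 t
  rw [← h9] at h8
  exact h3 h8.symm

end Pool.Agent.Work.MP_ac1d8d_gt
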