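import Mathlib
import Pool.Agent.Work.MP_ac1d8d_gt.Model
import Pool.Agent.Work.MP_ac1d8d_gt.Pi1

/-!
The surface has infinite type: its fundamental group is not finitely generated.
-/

set_option linter.all false
set_option autoImplicit false

namespace Pool.Agent.Work.MP_ac1d8d_gt

open scoped ContDiff Topology ComplexConjugate
open Filter Complex Set

/-- Truncation to the interval `[-1, 1]`. -/
noncomputable def tru (s : ℝ) : ℝ := max (-1) (min 1 s)

theorem continuous_tru : Continuous tru := by unfold tru; fun_prop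

theorem tru_of_ge {s : ℝ} (h : 1 ≤ s) : tru s = 1 := by
  rw [tru, min_eq_left h]; norm_num

theorem tru_of_le {s : ℝ} (h : s ≤ -1) : tru s = -1 := by
  rw [tru, min_eq_right (by linarith), max_eq_left h]

open scoped Classical in
/-- The circle valued function on the punctured plane. -/
noncomputable def aa (w : ℂ) : Circle :=
  if 0 ≤ w.im then Circle.exp (Real.pi * (1 - tru (2 * (w.re / ‖w‖)))) else 1

theorem exp_two_pi' : Circle.exp (2 * Real.pi) = 1 := Circle.exp_two_pi

theorem aa_pos {w : ℂ} (h : 1 / 2 ≤ w.re / ‖w‖) : aa w = 1 := by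
  unfold aa
  split_ifs
  · rw [tru_of_ge (by linarith)]; simp
  · rfl

theorem aa_neg {w : ℂ} (h : w.re / ‖w‖ ≤ - (1 / 2)) : aa w = 1 := by
  unfold aa
  split_ifs
  · rw [tru_of_le (by linarith)]
    have : Real.pi * (1 - -1) = 2 * Real.pi := by ring
    rw [this, exp_two_pi']
  · rfl

theorem aa_smul {s : ℝ} (hs : 0 < s) (w : ℂ) : aa (s • w) = aa w := by
  have h1 : (0 ≤ (s • w).im) ↔ (0 ≤ w.im) := by
    rw [Complex.smul_im, smul_eq_mul]
    exact mul_nonneg_iff_of_pos_left hs
  have h2 : (s • w).re / ‖s • w‖ = w.re / ‖w‖ := by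
    rw [Complex.smul_re, norm_smul, Real.norm_eq_abs, abs_of_pos hs, smul_eq_mul]
    rw [mul_div_mul_left _ _ hs.ne']
  unfold aa
  rw [h2]
  simp only [h1]

theorem continuousOn_aa : ContinuousOn aa {0}ᶜ := by
  rw [continuousOn_iff_continuous_restrict]
  change Continuous (fun w : (({0}ᶜ : Set ℂ)) => aa (w : ℂ))
  have e : (fun w : (({0}ᶜ : Set ℂ)) => aa (w : ℂ)) = fun w : (({0}ᶜ : Set ℂ)) =>
      if 0 ≤ (w : ℂ).im then Circle.exp (Real.pi * (1 - tru (2 * ((w : ℂ).re / ‖(w : ℂ)‖)))) else 1 := by
    funext w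
    unfold aa
    congr
  rw [e]
  have hn : ∀ w : (({0}ᶜ : Set ℂ)), ‖(w : ℂ)‖ ≠ 0 := fun w => norm_ne_zero_iff.2 w.2
  refine Continuous.if_le ?_ continuous_const continuous_const ?_ ?_
  · refine Circle.exp.continuous.comp ?_
    refine continuous_const.mul (continuous_const.sub (continuous_tru.comp ?_))
    refine continuous_const.mul (Continuous.div ?_ ?_ hn)
    · exact Complex.continuous_re.comp continuous_subtype_val
    · exact continuous_norm.comp continuous_subtype_val
  · exact Complex.continuous_im.comp continuous_subtype_val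
  · intro w hw
    have h1 : |(w : ℂ).re| = ‖(w : ℂ)‖ := by
      rw [Complex.abs_re_eq_norm]; exact hw.symm
    have h2 : (w : ℂ).re / ‖(w : ℂ)‖ = 1 ∨ (w : ℂ).re / ‖(w : ℂ)‖ = -1 := by
      rcases abs_cases (w : ℂ).re with h | h
      · left
        rw [div_eq_one_iff_eq (hn w), ← h1, h.1]
      · right
        rw [div_eq_iff (hn w), ← h1, h.1]; ring
    rcases h2 with h | h
    · rw [h, tru_of_ge (by norm_num)]; simp
    · rw [h, tru_of_le (by norm_num)]
      have : Real.pi * (1 - -1) = 2 * Real.pi := by ring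
      rw [this, exp_two_pi']

/-- The letter of the generator which is used. -/
def xx : Bool × Bool := (true, true)

theorem aa_disc {l : Bool × Bool} (h : l ≠ xx) {z : ℂ} (hz : z ∈ PD l) : aa (z - cc xx) = 1 := by
  apply aa_pos
  have h0 : z - cc xx ≠ 0 := PD_subset l hz xx
  have hp : 0 < ‖z - cc xx‖ := norm_pos_iff.2 h0
  rw [le_div_iff₀ hp]
  have h1 : ‖z - cc l‖ < 1 := hz.2
  have h2 : |(z - cc l).re| ≤ 1 := (Complex.abs_re_le_norm _).trans h1.le
  have h3 : |(z - cc l).im| ≤ 1 := (Complex.abs_im_le_norm _).trans h1.le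
  have h4 : cr xx + 6 ≤ cr l := by
    rcases l with ⟨a, b⟩
    cases a <;> cases b <;> simp [cr, xx] at h ⊢ <;> norm_num
  have h5 : (z - cc l).re = z.re - cr l := by simp [cc]
  have h6 : (z - cc l).im = z.im := by simp [cc]
  have h7 : (z - cc xx).re = z.re - cr xx := by simp [cc]
  have h8 : (z - cc xx).im = z.im := by simp [cc]
  have h9 := Complex.norm_le_abs_re_add_abs_im (z - cc xx)
  rw [h5] at h2
  rw [h6] at h3
  rw [h7, h8] at h9
  rw [h7]
  have h10 := abs_le.1 h2
  have h11 : 0 ≤ z.re - cr xx := by linarith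
  rw [abs_of_nonneg h11] at h9
  linarith

theorem aa_disc' {l : Bool × Bool} (h : l ≠ inv xx) {z : ℂ} (hz : z ∈ PD l) :
    aa (conj (z - cc (inv xx))) = 1 := by
  apply aa_neg
  have h0 : z - cc (inv xx) ≠ 0 := PD_subset l hz _
  have hp : 0 < ‖z - cc (inv xx)‖ := norm_pos_iff.2 h0
  rw [Complex.norm_conj, div_le_iff₀ hp, Complex.conj_re]
  have h1 : ‖z - cc l‖ < 1 := hz.2
  have h2 : |(z - cc l).re| ≤ 1 := (Complex.abs_re_le_norm _).trans h1.le
  have h3 : |(z - cc l).im| ≤ 1 := (Complex.abs_im_le_norm _).trans h1.le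
  have h4 : cr l + 6 ≤ cr (inv xx) := by
    rcases l with ⟨a, b⟩
    cases a <;> cases b <;> simp [cr, xx, inv] at h ⊢ <;> norm_num
  have h5 : (z - cc l).re = z.re - cr l := by simp [cc]
  have h6 : (z - cc l).im = z.im := by simp [cc]
  have h7 : (z - cc (inv xx)).re = z.re - cr (inv xx) := by simp [cc]
  have h8 : (z - cc (inv xx)).im = z.im := by simp [cc]
  have h9 := Complex.norm_le_abs_re_add_abs_im (z - cc (inv xx))
  rw [h5] at h2
  rw [h6] at h3
  rw [h7, h8] at h9
  rw [h7]
  have h10 := abs_le.1 h2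
  have h11 : z.re - cr (inv xx) ≤ 0 := by linarith
  rw [abs_of_nonpos h11] at h9
  linarith

theorem aa_glue {z : ℂ} (hz : z ∈ PD xx) :
    aa (conj (glue xx z - cc (inv xx))) = aa (z - cc xx) := by
  rw [glue_sub, iot]
  have hp : 0 < ‖z - cc xx‖ := norm_pos_iff.2 hz.1
  have h1 : ‖z - cc xx‖ < 1 := hz.2
  have hn : 0 < 1 / ‖z - cc xx‖ ^ 2 - 1 := by
    rw [sub_pos, lt_div_iff₀ (by positivity)]
    nlinarith
  have e : conj ((Real.sqrt (1 / ‖z - cc xx‖ ^ 2 - 1) : ℝ) • conj (z - cc xx)) =
      (Real.sqrt (1 / ‖z - cc xx‖ ^ 2 - 1) : ℝ) • (z - cc xx) := by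
    simp only [Complex.real_smul, map_mul, Complex.conj_ofReal, Complex.conj_conj]
  rw [e, aa_smul (Real.sqrt_pos.2 hn)]

open scoped Classical in
/-- The circle valued function on the planes. -/
noncomputable def FF (g g' : Gp) (z : ℂ) : Circle :=
  if g' = g then aa (z - cc xx) else
    if g' = g * gl xx then aa (conj (z - cc (inv xx))) else 1

theorem FF_self (g : Gp) (z : ℂ) : FF g g z = aa (z - cc xx) := if_pos rfl

theorem mul_gl_ne (g : Gp) (l : Bool × Bool) : g * gl l ≠ g := by
  intro h
  exact gl_ne_one l (by rwa [mul_eq_left] at h)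

theorem FF_next (g : Gp) (z : ℂ) : FF g (g * gl xx) z = aa (conj (z - cc (inv xx))) := by
  unfold FF
  rw [if_neg (mul_gl_ne g xx), if_pos rfl]

theorem FF_other {g g' : Gp} (h : g' ≠ g) (h' : g' ≠ g * gl xx) (z : ℂ) : FF g g' z = 1 := by
  unfold FF
  rw [if_neg h, if_neg h']

theorem FF_step {g g' : Gp} {l : Bool × Bool} {z : ℂ} (hz : z ∈ PD l) :
    FF g g' z = FF g (g' * gl l) (glue l z) := by
  have hz' : glue l z ∈ PD (inv l) := glue_mem hz
  by_cases h1 : g' = g
  · subst h1
    by_cases hl : l = xx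
    · subst hl
      rw [FF_self, FF_next, aa_glue hz]
    · rw [FF_self, aa_disc hl hz, FF_other (mul_gl_ne _ _)]
      intro h
      exact hl (gl_injective (mul_left_cancel h))
  · by_cases h2 : g' = g * gl xx
    · subst h2
      by_cases hl : l = inv xx
      · subst hl
        have e : g * gl xx * gl (inv xx) = g := by rw [gl_inv]; simp
        rw [FF_next, e, FF_self]
        rw [inv_inv'] at hz'
        rw [← aa_glue hz']
        have := glue_glue hz
        rw [inv_inv'] at this
        rw [this]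
      · rw [FF_next, aa_disc' hl hz, FF_other]
        · intro h
          apply hl
          apply gl_injective
          rw [gl_inv]
          rw [mul_assoc, mul_eq_left] at h
          exact (inv_eq_of_mul_eq_one_right h).symm
        · intro h
          exact mul_gl_ne _ _ h
    · rw [FF_other h1 h2]
      symm
      have e : ∀ h : Gp, g' * gl l = h → g' = h * gl (inv l) := by
        intro h hh
        rw [← hh, gl_inv]; simp
      by_cases h3 : g' * gl l = g
      · have hl : inv l ≠ xx := by
          intro hl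
          apply h2
          rw [← hl]
          exact e _ h3
        rw [h3, FF_self, aa_disc hl hz']
      · by_cases h4 : g' * gl l = g * gl xx
        · have hl : inv l ≠ inv xx := by
            intro hl
            apply h1
            have := e _ h4
            rw [hl, gl_inv] at this
            simpa using this
          rw [h4, FF_next, aa_disc' hl hz']
        · exact FF_other h3 h4 _

/-- The circle valued function on the surface. -/
noncomputable def psi (g : Gp) : Surf → Circle :=
  Quotient.lift (fun a : Pt => FF g a.g a.z) (by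
    rintro ⟨g1, z1, h1⟩ ⟨g2, z2, h2⟩ h
    rcases h with ⟨h3, h4⟩ | ⟨l, h3, h4, h5⟩
    · simp only at h3 h4 ⊢
      rw [h3, h4]
    · simp only at h3 h4 h5 ⊢
      rw [h3, h5]
      exact FF_step h4)

theorem psi_mk (g g' : Gp) {z : ℂ} (hz : z ∈ UU) : psi g (mk g' z) = FF g g' z := by
  rw [mk_of_mem _ hz]
  rfl

theorem continuousOn_FF (g g' : Gp) : ContinuousOn (FF g g') UU := by
  by_cases h1 : g' = g
  · subst h1
    have : FF g' g' = fun z => aa (z - cc xx) := funext fun z => FF_self g' z
    rw [this]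
    refine continuousOn_aa.comp (by fun_prop) ?_
    intro z hz
    exact hz xx
  · by_cases h2 : g' = g * gl xx
    · subst h2
      have : FF g (g * gl xx) = fun z => aa (conj (z - cc (inv xx))) := funext fun z => FF_next g z
      rw [this]
      refine continuousOn_aa.comp ?_ ?_
      · exact (Complex.continuous_conj.comp (continuous_id.sub continuous_const)).continuousOn
      · intro z hz h
        rw [mem_singleton_iff, map_eq_zero] at h
        exact hz (inv xx) h
    · have : FF g g' = fun z => 1 := funext fun z => FF_other h1 h2 z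
      rw [this]
      exact continuousOn_const

theorem continuous_psi (g : Gp) : Continuous (psi g) := by
  rw [continuous_def]
  intro W hW
  have h : ∀ j, IsOpen (UU ∩ mk j ⁻¹' (psi g ⁻¹' W)) := by
    intro j
    have := (continuousOn_FF g j).isOpen_inter_preimage isOpen_UU hW
    convert this using 1
    ext z
    constructor
    · rintro ⟨h1, h2⟩
      refine ⟨h1, ?_⟩
      rw [mem_preimage, ← psi_mk g j h1]; exact h2
    · rintro ⟨h1, h2⟩
      refine ⟨h1, ?_⟩
      rw [mem_preimage, mem_preimage, psi_mk g j h1]; exact h2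
  exact h

theorem exists_avoid {K : Set Surf} (hK : IsCompact K) :
    ∃ g : Gp, ∀ y ∈ K, psi g y = 1 := by
  obtain ⟨t, ht⟩ := hK.elim_finite_subcover tile isOpen_tile (by
    intro y _
    obtain ⟨g, z, hz, rfl⟩ := exists_mk y
    exact mem_iUnion.2 ⟨g, z, hz, rfl⟩)
  obtain ⟨n, _, hn⟩ := exists_far xx (t : Set Gp) t.finite_toSet
  refine ⟨gl xx ^ n, fun y hy => ?_⟩
  have := ht hy
  simp only [mem_iUnion] at this
  obtain ⟨g', hg', z, hz, rfl⟩ := this
  rw [psi_mk _ _ hz]
  apply FF_other
  · rintro rfl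
    have := hn 1 (Or.inl rfl)
    rw [mul_one] at this
    exact this hg'
  · rintro rfl
    exact hn (gl xx) (Or.inr (gl_mem_W xx)) hg'

/-- The circle around the center of the disc. -/
noncomputable def cir (t : ℝ) : ℂ := cc xx + (1 / 2 : ℝ) • Complex.exp ((2 * Real.pi * t : ℝ) * I)

theorem continuous_cir : Continuous cir := by unfold cir; fun_prop

theorem cir_sub (t : ℝ) : cir t - cc xx = (1 / 2 : ℝ) • Complex.exp ((2 * Real.pi * t : ℝ) * I) := by
  simp [cir]

theorem cir_mem (t : ℝ) : cir t ∈ UU := by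
  apply mem_UU_of_close (l := xx)
  · rw [cir_sub]
    exact smul_ne_zero (by norm_num) (Complex.exp_ne_zero _)
  · rw [cir_sub, norm_smul, Complex.norm_exp_ofReal_mul_I]
    norm_num

theorem aa_cir (t : ℝ) : aa (cir t - cc xx) =
    if 0 ≤ Real.sin (2 * Real.pi * t) then
      Circle.exp (Real.pi * (1 - tru (2 * Real.cos (2 * Real.pi * t)))) else 1 := by
  rw [cir_sub, aa_smul (by norm_num)]
  unfold aa
  rw [Complex.norm_exp_ofReal_mul_I, Complex.exp_ofReal_mul_I_re, Complex.exp_ofReal_mul_I_im,
    div_one]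

theorem cir_zero_one : cir 1 = cir 0 := by
  unfold cir
  congr 2
  have h1 : ((2 * Real.pi * 1 : ℝ) : ℂ) * I = 2 * Real.pi * I := by push_cast; ring
  have h2 : ((2 * Real.pi * 0 : ℝ) : ℂ) * I = 0 := by push_cast; ring
  rw [h1, h2, Complex.exp_two_pi_mul_I, Complex.exp_zero]

/-- The loop. -/
noncomputable def lp (g : Gp) : Path (mk g (cir 0)) (mk g (cir 0)) where
  toFun t := mk g (cir t)
  continuous_toFun := (continuousOn_mk g).comp_continuous
    (continuous_cir.comp continuous_subtype_val) (fun t => cir_mem t)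
  source' := by simp
  target' := by simp [cir_zero_one]

/-- The lift. -/
noncomputable def lif : C(unitInterval, ℝ) where
  toFun t := if (t : ℝ) ≤ 1 / 2 then Real.pi * (1 - tru (2 * Real.cos (2 * Real.pi * t)))
    else 2 * Real.pi
  continuous_toFun := by
    refine Continuous.if_le ?_ continuous_const continuous_subtype_val continuous_const ?_
    · refine continuous_const.mul (continuous_const.sub (continuous_tru.comp ?_))
      fun_prop
    · intro t ht
      rw [ht]
      have : 2 * Real.pi * (1 / 2) = Real.pi := by ring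
      rw [this, Real.cos_pi, tru_of_le (by norm_num)]
      ring

theorem lif_spec (g : Gp) (t : unitInterval) : Circle.exp (lif t) = psi g (lp g t) := by
  have e1 : psi g (lp g t) = aa (cir t - cc xx) := by
    change psi g (mk g (cir t)) = _
    rw [psi_mk _ _ (cir_mem t), FF_self]
  rw [e1, aa_cir]
  change Circle.exp (if (t : ℝ) ≤ 1 / 2 then Real.pi * (1 - tru (2 * Real.cos (2 * Real.pi * t)))
    else 2 * Real.pi) = _
  have hpi := Real.pi_pos
  have ht0 : 0 ≤ (t : ℝ) := t.2.1
  have ht1 : (t : ℝ) ≤ 1 := t.2.2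
  by_cases h : (t : ℝ) ≤ 1 / 2
  · rw [if_pos h, if_pos]
    apply Real.sin_nonneg_of_nonneg_of_le_pi
    · positivity
    · nlinarith
  · rw [if_neg h, exp_two_pi']
    push Not at h
    by_cases h1 : (t : ℝ) = 1
    · rw [h1]
      have : 2 * Real.pi * 1 = 2 * Real.pi := by ring
      rw [this, Real.sin_two_pi, if_pos le_rfl, Real.cos_two_pi, tru_of_ge (by norm_num)]
      simp
    · rw [if_neg]
      push Not
      have h2 : (t : ℝ) < 1 := lt_of_le_of_ne ht1 h1
      have h3 : Real.sin (2 * Real.pi * t) = Real.sin (2 * Real.pi * t - 2 * Real.pi) :=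
        (Real.sin_sub_two_pi _).symm
      rw [h3]
      apply Real.sin_neg_of_neg_of_neg_pi_lt
      · nlinarith
      · nlinarith

theorem surf_not_fg (x₀ : Surf) : ¬ Group.FG (FundamentalGroup Surf x₀) := by
  haveI : LocallyPathConnectedSpace Surf := ChartedSpace.locallyPathConnectedSpace ℂ Surf
  haveI : PathConnectedSpace Surf := pathConnectedSpace_iff_connectedSpace.2 inferInstance
  apply not_fg_of
  intro K hK
  obtain ⟨g, hg⟩ := exists_avoid hK
  refine ⟨⟨psi g, continuous_psi g⟩, mk g (cir 0), lp g, lif, hg, fun t => lif_spec g t, ?_⟩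
  have h0 : lif 0 = 0 := by
    change (if ((0 : unitInterval) : ℝ) ≤ 1 / 2 then
      Real.pi * (1 - tru (2 * Real.cos (2 * Real.pi * ((0 : unitInterval) : ℝ))))
      else 2 * Real.pi) = 0
    rw [if_pos (by norm_num)]
    simp [tru_of_ge]
  have h1 : lif 1 = 2 * Real.pi := by
    change (if ((1 : unitInterval) : ℝ) ≤ 1 / 2 then
      Real.pi * (1 - tru (2 * Real.cos (2 * Real.pi * ((1 : unitInterval) : ℝ))))
      else 2 * Real.pi) = _
    rw [if_neg (by norm_num)]
  rw [h0, h1]
  have := Real.pi_pos
  intro h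
  linarith

end Pool.Agent.Work.MP_ac1d8d_gt
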